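import Mathlib

set_option autoImplicit false

namespace Pool.Agent.Lib.MP_476537_nt

open Finset

/-- list after stage `s`, zero indexed -/
def F : ℕ → ℕ → ℕ
  | 0, i => 2 * i + 1
  | s + 1, i => F s (i + i / (F s (s + 1) - 1))

/-- modulus used at stage `s` -/
def M (s : ℕ) : ℕ := F s (s + 1)

def Lk : Set ℕ := {x | ∀ s, ∃ j, F s j = x}

lemma iter_eq (s : ℕ) :
    Nat.iterate
      (fun p : ℕ × (ℕ → ℕ) =>
        ((p.1 + 1 : ℕ), fun i : ℕ => p.2 (i + i / (p.2 p.1 - 1))))
      s ((1 : ℕ), fun i : ℕ => 2 * i + 1) = (s + 1, F s) := by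
  induction s with
  | zero => rfl
  | succ s ih =>
    rw [Function.iterate_succ_apply', ih]
    rfl

lemma F_succ (s i : ℕ) : F (s + 1) i = F s (i + i / (M s - 1)) := rfl

lemma F_strictMono (s : ℕ) : StrictMono (F s) := by
  induction s with
  | zero => intro a b h; simp only [F]; omega
  | succ s ih =>
    intro a b h
    rw [F_succ, F_succ]
    apply ih
    have := Nat.div_le_div_right (c := M s - 1) h.le
    omega

lemma F_ge (s i : ℕ) : 2 * i + 1 ≤ F s i := by
  induction s generalizing i with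
  | zero => simp [F]
  | succ s ih =>
    rw [F_succ]
    have := ih (i + i / (M s - 1))
    have h2 : 0 ≤ i / (M s - 1) := Nat.zero_le _
    omega

lemma M_ge (s : ℕ) : 2 * s + 3 ≤ M s := by
  have := F_ge s (s + 1)
  unfold M; omega

lemma M_lt_succ (s : ℕ) : M s < M (s + 1) := by
  show F s (s + 1) < F (s + 1) (s + 1 + 1)
  rw [F_succ]
  apply F_strictMono
  have h2 : 0 ≤ (s + 1 + 1) / (M s - 1) := Nat.zero_le _
  omega

lemma M_strictMono : StrictMono M := strictMono_nat_of_lt_succ M_lt_succ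

lemma M_pos (s : ℕ) : 0 < M s := by have := M_ge s; omega

/-- orbit of a count under the stages `s, s+1, ...` -/
def orb (s n : ℕ) : ℕ → ℕ
  | 0 => n
  | k + 1 => orb s n k - orb s n k / M (s + k)

lemma orb_succ (s n k : ℕ) : orb s n (k + 1) = orb s n k - orb s n k / M (s + k) := rfl

lemma orb_add (s n k l : ℕ) : orb s n (k + l) = orb (s + k) (orb s n k) l := by
  induction l with
  | zero => rfl
  | succ l ih => rw [← add_assoc, orb_succ, orb_succ, ih, add_assoc]

lemma step_iff (q n i : ℕ) (hq : 1 ≤ q) : i + i / q < n ↔ i < n - n / (q + 1) := by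
  have h1 := Nat.div_add_mod n (q + 1)
  have h2 : n % (q + 1) < q + 1 := Nat.mod_lt _ (by omega)
  set a := n / (q + 1) with ha
  set b := n % (q + 1) with hb
  have hn : n - a = q * a + b := by
    have : n = q * a + b + a := by rw [← h1]; ring
    omega
  rw [hn]
  constructor
  · intro h
    by_contra hc
    push Not at hc
    have : a ≤ i / q := by
      rw [Nat.le_div_iff_mul_le (by omega)]
      nlinarith
    have : n = q * a + b + a := by rw [← h1]; ring
    omega
  · intro h
    have : i / q ≤ a := by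
      apply Nat.le_of_lt_succ
      rw [Nat.div_lt_iff_lt_mul (by omega)]
      have : a.succ * q = q * a + q := by rw [Nat.succ_eq_add_one]; ring
      omega
    have : n = q * a + b + a := by rw [← h1]; ring
    omega

def cnt (s x : ℕ) : ℕ := orb 0 (x / 2) s

lemma F_lt_iff (s x i : ℕ) : F s i < x ↔ i < cnt s x := by
  induction s generalizing i with
  | zero => simp only [F, cnt, orb]; omega
  | succ s ih =>
    rw [F_succ, ih]
    have hq : 1 ≤ M s - 1 := by have := M_ge s; omega
    rw [step_iff _ _ _ hq]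
    have : M s - 1 + 1 = M s := by have := M_ge s; omega
    rw [this]
    simp only [cnt, orb_succ, zero_add]

lemma step_mono (m n h : ℕ) : n - n / m ≤ (n + h) - (n + h) / m ∧
    (n + h) - (n + h) / m ≤ n - n / m + h := by
  have h1 : n / m ≤ (n + h) / m := Nat.div_le_div_right (by omega)
  have h2 : n / m ≤ n := Nat.div_le_self _ _
  have h3 : (n + h) / m ≤ n / m + h := by
    rcases Nat.eq_zero_or_pos m with rfl | hm
    · simp
    · calc (n + h) / m ≤ (n + h * m) / m := Nat.div_le_div_right (by nlinarith)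
        _ = n / m + h := Nat.add_mul_div_right _ _ hm
  omega

lemma orb_mono (s k : ℕ) {n n' : ℕ} (h : n ≤ n') : orb s n k ≤ orb s n' k := by
  induction k with
  | zero => exact h
  | succ k ih =>
    obtain ⟨d, hd⟩ := Nat.exists_eq_add_of_le ih
    rw [orb_succ, orb_succ, hd]
    exact (step_mono _ _ _).1

lemma orb_lip (s k n h : ℕ) : orb s (n + h) k ≤ orb s n k + h := by
  induction k with
  | zero => exact le_rfl
  | succ k ih =>
    obtain ⟨d, hd⟩ := Nat.exists_eq_add_of_le (orb_mono s k (Nat.le_add_right n h))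
    rw [orb_succ, orb_succ, hd]
    have := (step_mono (M (s + k)) (orb s n k) d).2
    omega

lemma orb_anti (s n : ℕ) : Antitone (orb s n) :=
  antitone_nat_of_succ_le fun k => by rw [orb_succ]; exact Nat.sub_le _ _

lemma orb_le (s n k : ℕ) : orb s n k ≤ n := orb_anti s n (Nat.zero_le k)

lemma cnt_mono (s : ℕ) {x y : ℕ} (h : x ≤ y) : cnt s x ≤ cnt s y :=
  orb_mono _ _ (Nat.div_le_div_right h)

lemma cnt_lip (s x h : ℕ) : cnt s (x + h) ≤ cnt s x + h := by
  have h1 : (x + h) / 2 ≤ x / 2 + h := by omega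
  exact (orb_mono _ _ h1).trans (orb_lip _ _ _ _)

lemma cnt_le (s x : ℕ) : cnt s x ≤ x := (orb_le _ _ _).trans (Nat.div_le_self _ _)

lemma cnt_add (s k x : ℕ) : cnt (s + k) x = orb s (cnt s x) k := by
  unfold cnt; rw [orb_add, zero_add]

lemma range_down (t k i : ℕ) : ∃ j, F t j = F (t + k) i := by
  induction k generalizing i with
  | zero => exact ⟨i, rfl⟩
  | succ k ih => rw [← add_assoc, F_succ]; exact ih _

lemma lucky_exists (x y s : ℕ) (hM : y ≤ M s) (h : cnt s x < cnt s y) :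
    ∃ a ∈ Lk, x ≤ a ∧ a < y := by
  set i := cnt s x with hi
  have h1 : F s i < y := (F_lt_iff s y i).2 h
  have h2 : ¬ F s i < x := by rw [F_lt_iff]; omega
  refine ⟨F s i, ?_, by omega, h1⟩
  intro t
  rcases le_total t s with ht | ht
  · obtain ⟨k, rfl⟩ := Nat.exists_eq_add_of_le ht
    exact range_down t k i
  · obtain ⟨k, rfl⟩ := Nat.exists_eq_add_of_le ht
    refine ⟨i, ?_⟩
    induction k with
    | zero => rfl
    | succ k ih =>
      rw [← add_assoc, F_succ]
      have h3 : M s ≤ M (s + k) := M_strictMono.monotone (by omega)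
      have h4 := F_ge s i
      have h5 := M_ge s
      rw [Nat.div_eq_of_lt (by omega), add_zero]
      exact ih (by omega)

/-- survival ratio -/
noncomputable def rr (s k : ℕ) : ℝ := ∏ t ∈ range k, (1 - 1 / (M (s + t) : ℝ))

lemma rr_succ (s k : ℕ) : rr s (k + 1) = rr s k * (1 - 1 / (M (s + k) : ℝ)) := by
  unfold rr; rw [prod_range_succ]

lemma fac_pos (s : ℕ) : 0 < 1 - 1 / (M s : ℝ) := by
  have h : (3 : ℝ) ≤ M s := by have := M_ge s; exact_mod_cast (by omega : 3 ≤ M s)
  have : 1 / (M s : ℝ) ≤ 1 / 3 := one_div_le_one_div_of_le (by norm_num) h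
  linarith

lemma fac_le (s : ℕ) : 1 - 1 / (M s : ℝ) ≤ 1 := by
  have : 0 ≤ 1 / (M s : ℝ) := by positivity
  linarith

lemma rr_pos (s k : ℕ) : 0 < rr s k := prod_pos fun _ _ => fac_pos _

lemma rr_le_one (s k : ℕ) : rr s k ≤ 1 :=
  prod_le_one (fun _ _ => (fac_pos _).le) (fun _ _ => fac_le _)

lemma cast_step (m n : ℕ) (hm : 0 < m) :
    (n : ℝ) * (1 - 1 / m) ≤ ((n - n / m : ℕ) : ℝ) ∧
      ((n - n / m : ℕ) : ℝ) ≤ (n : ℝ) * (1 - 1 / m) + 1 := by
  rw [Nat.cast_sub (Nat.div_le_self _ _)]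
  have h1 : ((n / m : ℕ) : ℝ) ≤ (n : ℝ) / m := Nat.cast_div_le
  have hm' : (0 : ℝ) < m := by exact_mod_cast hm
  have h2 : (n : ℝ) / m < ((n / m : ℕ) : ℝ) + 1 := by
    rw [div_lt_iff₀ hm']
    have := Nat.lt_div_mul_add (a := n) hm
    have h3 : (n : ℝ) < ((n / m * m + m : ℕ) : ℝ) := by exact_mod_cast this
    push_cast at h3
    linarith
  have h4 : (n : ℝ) * (1 - 1 / m) = n - n / m := by ring
  constructor <;> linarith

lemma orb_lower (s n k : ℕ) : (n : ℝ) * rr s k ≤ orb s n k := by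
  induction k with
  | zero => simp [rr, orb]
  | succ k ih =>
    rw [rr_succ, orb_succ]
    have := (cast_step (M (s + k)) (orb s n k) (M_pos _)).1
    have h2 := fac_pos (s + k)
    nlinarith

lemma orb_upper (s n k : ℕ) : (orb s n k : ℝ) ≤ (n : ℝ) * rr s k + k := by
  induction k with
  | zero => simp [rr, orb]
  | succ k ih =>
    rw [rr_succ, orb_succ]
    have := (cast_step (M (s + k)) (orb s n k) (M_pos _)).2
    have h2 := fac_pos (s + k)
    have h3 := fac_le (s + k)
    have h4 : (0 : ℝ) ≤ k := by positivity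
    push_cast
    nlinarith

lemma F_rr (s i : ℕ) : (F s i : ℝ) * rr 0 s ≤ 2 * i + 1 := by
  induction s generalizing i with
  | zero => simp [rr, F]
  | succ s ih =>
    rw [F_succ, rr_succ, zero_add]
    have h := ih (i + i / (M s - 1))
    have h3 : (3 : ℝ) ≤ M s := by have := M_ge s; exact_mod_cast (by omega : 3 ≤ M s)
    have h1 : ((i / (M s - 1) : ℕ) : ℝ) ≤ (i : ℝ) / ((M s : ℝ) - 1) := by
      have := Nat.cast_div_le (α := ℝ) (m := i) (n := M s - 1)
      rwa [Nat.cast_sub (by have := M_ge s; omega), Nat.cast_one] at this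
    have h2 := fac_pos s
    push_cast at h
    have h5 : (2 * ((i : ℝ) + (i : ℝ) / ((M s : ℝ) - 1)) + 1) * (1 - 1 / (M s : ℝ))
        = 2 * i + (1 - 1 / (M s : ℝ)) := by
      have : (M s : ℝ) - 1 ≠ 0 := by linarith
      have : (M s : ℝ) ≠ 0 := by linarith
      field_simp
      ring
    have h6 := fac_le s
    calc _ = ((F s (i + i / (M s - 1)) : ℝ) * rr 0 s) * (1 - 1 / (M s : ℝ)) := by ring
      _ ≤ (2 * ((i : ℝ) + (i : ℝ) / ((M s : ℝ) - 1)) + 1) * (1 - 1 / (M s : ℝ)) := by
        apply mul_le_mul_of_nonneg_right _ h2.le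
        linarith
      _ ≤ _ := by rw [h5]; linarith

lemma rr_small (δ : ℝ) (hδ : 0 < δ) : ∃ j, rr 0 j ≤ δ := by
  by_contra hc
  push Not at hc
  have key : ∀ s : ℕ, rr 0 s ≤ 1 - δ ^ 2 / 3 * ∑ t ∈ range s, (1 / ((t : ℝ) + 1)) := by
    intro s
    induction s with
    | zero => simp [rr]
    | succ s ih =>
      rw [rr_succ, sum_range_succ, zero_add]
      have h1 := F_rr s (s + 1)
      change (M s : ℝ) * rr 0 s ≤ _ at h1
      push_cast at h1
      have h2 := hc s
      have hM : (0 : ℝ) < M s := by exact_mod_cast M_pos s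
      have hs : (0 : ℝ) ≤ s := by positivity
      have h3 : δ ^ 2 / 3 * (1 / ((s : ℝ) + 1)) ≤ rr 0 s * (1 / (M s : ℝ)) := by
        rw [mul_one_div, mul_one_div, div_le_div_iff₀ (by positivity) hM]
        have h4 : δ * M s ≤ 3 * ((s : ℝ) + 1) := by nlinarith
        nlinarith
      nlinarith
  have h := Real.tendsto_sum_range_one_div_nat_succ_atTop
  obtain ⟨s, hs⟩ := (h.eventually_ge_atTop (3 / δ ^ 2)).exists
  have h1 := key s
  have h2 := rr_pos 0 s
  have h3 : δ ^ 2 / 3 * (3 / δ ^ 2) = 1 := by field_simp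
  have h4 : 0 < δ ^ 2 / 3 := by positivity
  nlinarith

lemma ex_idx (a : ℕ) : ∃ s, a ≤ M s := ⟨a, by have := M_ge a; omega⟩

/-- number of stages with modulus below `a` -/
def idx (a : ℕ) : ℕ := Nat.find (ex_idx a)

lemma lt_idx (s a : ℕ) : s < idx a ↔ M s < a := by
  unfold idx
  rw [Nat.lt_find_iff]
  constructor
  · intro h; have := h s le_rfl; omega
  · intro h m hm
    have := M_strictMono.monotone hm
    omega

lemma idx_le (s a : ℕ) : idx a ≤ s ↔ a ≤ M s := by
  rw [← not_lt, lt_idx, not_lt]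

lemma idx_mono {a b : ℕ} (h : a ≤ b) : idx a ≤ idx b := by
  rw [idx_le]; exact h.trans ((idx_le _ _).1 le_rfl)

lemma idx_add_le (a y : ℕ) : idx (a + y) ≤ idx a + y := by
  rw [idx_le]
  have h1 : a ≤ M (idx a) := (idx_le _ _).1 le_rfl
  have h2 : ∀ k, M (idx a) + k ≤ M (idx a + k) := by
    intro k
    induction k with
    | zero => simp
    | succ k ih =>
      have := M_lt_succ (idx a + k)
      have e : idx a + (k + 1) = idx a + k + 1 := rfl
      rw [e]; omega
  have := h2 y
  omega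

def Sparse (δ C : ℝ) : Prop := ∀ a y : ℕ, (idx (a + y) : ℝ) ≤ idx a + δ * y + C

lemma sparse (δ : ℝ) (hδ : 0 < δ) : ∃ C : ℝ, 0 < C ∧ Sparse δ C := by
  obtain ⟨j, hj⟩ := rr_small δ hδ
  refine ⟨2 * j + δ + 1, by positivity, fun a y => ?_⟩
  have hex : ∀ s, ∃ i, j ≤ s → F j i = M s := by
    intro s
    by_cases h : j ≤ s
    · obtain ⟨k, rfl⟩ := Nat.exists_eq_add_of_le h
      obtain ⟨i, hi⟩ := range_down j k (j + k + 1)
      exact ⟨i, fun _ => hi⟩
    · exact ⟨0, fun h' => absurd h' h⟩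
  choose ι hι using hex
  have hcard : (Ico (max j (idx a)) (idx (a + y))).card ≤ (Ico (cnt j a) (cnt j (a + y))).card := by
    apply card_le_card_of_injOn ι
    · intro s hs
      simp only [coe_Ico, Set.mem_Ico, max_le_iff] at hs ⊢
      obtain ⟨⟨h1, h2⟩, h3⟩ := hs
      rw [idx_le] at h2
      rw [lt_idx] at h3
      rw [← hι s h1] at h2 h3
      refine ⟨?_, (F_lt_iff _ _ _).1 h3⟩
      by_contra hc
      push Not at hc
      have := (F_lt_iff _ _ _).2 hc
      omega
    · intro s hs t ht hst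
      simp only [coe_Ico, Set.mem_Ico, max_le_iff] at hs ht
      apply M_strictMono.injective
      rw [← hι s hs.1.1, ← hι t ht.1.1, hst]
  rw [Nat.card_Ico, Nat.card_Ico] at hcard
  have h1 := orb_lower 0 (a / 2) j
  have h2 := orb_upper 0 ((a + y) / 2) j
  change _ ≤ (cnt j a : ℝ) at h1
  change (cnt j (a + y) : ℝ) ≤ _ at h2
  have h3 : cnt j a ≤ cnt j (a + y) := cnt_mono _ (by omega)
  have h4 : idx (a + y) + cnt j a ≤ idx a + j + cnt j (a + y) := by
    rcases le_total j (idx a) with h | h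
    · rw [max_eq_right h] at hcard; omega
    · rw [max_eq_left h] at hcard; omega
  have h5 : (idx (a + y) : ℝ) + cnt j a ≤ idx a + j + cnt j (a + y) := by exact_mod_cast h4
  have h6 : (((a + y) / 2 : ℕ) : ℝ) ≤ ((a / 2 : ℕ) : ℝ) + (y + 1) := by
    exact_mod_cast (by omega : (a + y) / 2 ≤ a / 2 + (y + 1))
  have h7 := rr_pos 0 j
  have h8 : (0 : ℝ) ≤ y := by positivity
  nlinarith

end Pool.Agent.Lib.MP_476537_nt
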