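import Mathlib

set_option autoImplicit false

namespace Pool.Agent.Lib.MP_476537_nt.G

open Finset Pointwise

/-- number of points of `X` that leave `X` under the shift `g` -/
def lam (X : Finset ℤ) (g : ℤ) : ℕ := (X.filter (fun x => x + g ∉ X)).card

lemma lam_zero (X : Finset ℤ) : lam X 0 = 0 := by
  unfold lam
  rw [card_eq_zero, filter_eq_empty_iff]
  intro x hx
  simpa using hx

lemma lam_add (X : Finset ℤ) (g h : ℤ) : lam X (g + h) ≤ lam X g + lam X h := by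
  unfold lam
  have hsub : X.filter (fun x => x + (g + h) ∉ X) ⊆
      X.filter (fun x => x + g ∉ X) ∪ (X.filter (fun x => x + h ∉ X)).image (fun y => y - g) := by
    intro x hx
    rw [mem_filter] at hx
    rw [mem_union]
    by_cases h1 : x + g ∈ X
    · right
      refine mem_image.2 ⟨x + g, mem_filter.2 ⟨h1, ?_⟩, by ring⟩
      rw [add_assoc]; exact hx.2
    · left; exact mem_filter.2 ⟨hx.1, h1⟩
  refine (card_le_card hsub).trans ((card_union_le _ _).trans ?_)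
  exact Nat.add_le_add_left card_image_le _

lemma lam_stay (X : Finset ℤ) (g : ℤ) :
    (X.filter (fun x => x + g ∈ X)).card + lam X g = X.card := by
  unfold lam
  exact card_filter_add_card_filter_not _

lemma lam_neg (X : Finset ℤ) (g : ℤ) : lam X (-g) = lam X g := by
  have h1 := lam_stay X g
  have h2 := lam_stay X (-g)
  have h3 : (X.filter (fun x => x + g ∈ X)).card = (X.filter (fun x => x + -g ∈ X)).card := by
    refine card_bij (fun x _ => x + g) ?_ ?_ ?_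
    · intro x hx
      rw [mem_filter] at hx ⊢
      refine ⟨hx.2, ?_⟩
      have : x + g + -g = x := by ring
      rw [this]; exact hx.1
    · intro a _ b _ hab
      exact add_right_cancel hab
    · intro y hy
      rw [mem_filter] at hy
      refine ⟨y + -g, mem_filter.2 ⟨hy.2, ?_⟩, by ring⟩
      have : y + -g + g = y := by ring
      rw [this]; exact hy.1
  omega

lemma lam_le (X W : Finset ℤ) {w0 w : ℤ} (h0 : w0 ∈ W) (hw : w ∈ W) :
    lam X (w - w0) + X.card ≤ (X + W).card := by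
  unfold lam
  have hd : Disjoint ((X.filter (fun x => x + (w - w0) ∉ X)).image (fun x => x + w))
      (X.image (fun x => x + w0)) := by
    rw [disjoint_left]
    intro z hz hz'
    obtain ⟨x, hx, rfl⟩ := mem_image.1 hz
    obtain ⟨y, hy, hxy⟩ := mem_image.1 hz'
    rw [mem_filter] at hx
    apply hx.2
    have : x + (w - w0) = y := by linarith
    rw [this]; exact hy
  have hsub : (X.filter (fun x => x + (w - w0) ∉ X)).image (fun x => x + w) ∪
      X.image (fun x => x + w0) ⊆ X + W := by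
    intro z hz
    rcases mem_union.1 hz with hz | hz
    · obtain ⟨x, hx, rfl⟩ := mem_image.1 hz
      exact add_mem_add (mem_filter.1 hx).1 hw
    · obtain ⟨x, hx, rfl⟩ := mem_image.1 hz
      exact add_mem_add hx h0
  have := card_le_card hsub
  rw [card_union_of_disjoint hd, card_image_of_injective _ (add_left_injective w),
    card_image_of_injective _ (add_left_injective w0)] at this
  exact this

lemma lam_count (X Y : Finset ℤ) (hX : X.Nonempty) (hY : ∀ g ∈ Y, 2 * lam X g ≤ X.card) :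
    Y.card ≤ 2 * X.card := by
  have h1 : (Y.sigma (fun g => X.filter (fun x => x + g ∈ X))).card ≤ (X ×ˢ X).card := by
    refine card_le_card_of_injOn (fun p => (p.2, p.2 + p.1)) ?_ ?_
    · intro p hp
      rw [mem_coe, mem_sigma, mem_filter] at hp
      exact mem_coe.2 (mem_product.2 ⟨hp.2.1, hp.2.2⟩)
    · rintro ⟨g, x⟩ _ ⟨g', x'⟩ _ h
      simp only [Prod.mk.injEq] at h
      obtain ⟨h1, h2⟩ := h
      subst h1
      have : g = g' := add_left_cancel h2
      subst this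
      rfl
  rw [card_sigma, card_product] at h1
  have h2 : Y.card * X.card ≤ 2 * ∑ g ∈ Y, (X.filter (fun x => x + g ∈ X)).card := by
    rw [mul_sum, ← smul_eq_mul, ← sum_const]
    refine sum_le_sum fun g hg => ?_
    have := lam_stay X g
    have := hY g hg
    omega
  have h3 : Y.card * X.card ≤ (2 * X.card) * X.card := by nlinarith
  exact Nat.le_of_mul_le_mul_right h3 hX.card_pos

lemma lam_nsmul (X : Finset ℤ) (g : ℤ) (e : ℕ) (h : lam X g ≤ e) (i : ℕ) :
    lam X ((i : ℤ) * g) ≤ i * e := by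
  induction i with
  | zero => simp [lam_zero]
  | succ i ih =>
    have : ((i + 1 : ℕ) : ℤ) * g = (i : ℤ) * g + g := by push_cast; ring
    rw [this]
    refine (lam_add _ _ _).trans ?_
    nlinarith

/-- growth of balls in a finite cyclic group -/
lemma ball_growth (l : ℕ) [NeZero l] (R : ℕ → Finset (ZMod l))
    (hadd : ∀ i j a b, a ∈ R i → b ∈ R j → a + b ∈ R (i + j))
    (hneg : ∀ a ∈ R 1, -a ∈ R 1) (h0 : (0 : ZMod l) ∈ R 0) (h01 : (0 : ZMod l) ∈ R 1)
    (h1 : (1 : ZMod l) ∈ R 1) (j : ℕ) :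
    min l ((j + 1) * (R 1).card) ≤ (R (3 * j + 1)).card := by
  have hstep : ∀ i, R i ⊆ R (i + 1) := fun i a ha => by simpa using hadd i 1 a 0 ha h01
  have hz : ∀ i, (0 : ZMod l) ∈ R i := by
    intro i
    induction i with
    | zero => exact h0
    | succ i ih => exact hstep i ih
  induction j with
  | zero => simp
  | succ j ih =>
    have e3 : 3 * (j + 1) + 1 = 3 * j + 1 + 1 + 1 + 1 := by ring
    rw [e3]
    by_cases hc : R (3 * j + 1 + 1 + 1) ⊆ R (3 * j + 1 + 1)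
    · have hall : ∀ n : ℕ, ((n : ℕ) : ZMod l) ∈ R (3 * j + 1 + 1) := by
        intro n
        induction n with
        | zero => simpa using hz _
        | succ n ihn =>
          rw [Nat.cast_succ]
          exact hc (hadd _ 1 _ _ ihn h1)
      have huniv : (univ : Finset (ZMod l)) ⊆ R (3 * j + 1 + 1 + 1 + 1) := by
        intro a _
        obtain ⟨n, rfl⟩ := ZMod.natCast_zmod_surjective a
        exact hstep _ (hstep _ (hall n))
      have := card_le_card huniv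
      rw [card_univ, ZMod.card] at this
      exact (min_le_left _ _).trans this
    · obtain ⟨g, hg, hg'⟩ := not_subset.1 hc
      have hd : Disjoint (R (3 * j + 1)) ((R 1).image (fun s => g + s)) := by
        rw [disjoint_left]
        intro z hz1 hz2
        obtain ⟨s, hs, rfl⟩ := mem_image.1 hz2
        apply hg'
        have := hadd _ 1 _ _ hz1 (hneg s hs)
        simpa using this
      have hsub : R (3 * j + 1) ∪ (R 1).image (fun s => g + s) ⊆ R (3 * j + 1 + 1 + 1 + 1) := by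
        intro z hz1
        rcases mem_union.1 hz1 with h | h
        · exact hstep _ (hstep _ (hstep _ h))
        · obtain ⟨s, hs, rfl⟩ := mem_image.1 h
          exact hadd _ 1 _ _ hg hs
      have := card_le_card hsub
      rw [card_union_of_disjoint hd, card_image_of_injective _ (add_right_injective g)] at this
      have e4 : (j + 1 + 1) * (R 1).card = (j + 1) * (R 1).card + (R 1).card := by ring
      rw [e4]
      omega

/-- a thick wide set enlarges every finite set by about the geometric mean of the sizes -/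
lemma quad (X V : Finset ℤ) (hX : X.Nonempty) (v0 : ℤ) (l : ℕ) (hl : 1 ≤ l) (h0 : v0 ∈ V)
    (h1 : v0 + l ∈ V) (hV : ∀ v ∈ V, v0 ≤ v ∧ v ≤ v0 + l) (e j : ℕ)
    (he : (X + (V + ({0, 1} : Finset ℤ))).card ≤ X.card + e)
    (hj : 4 * ((3 * j + 1) * e) ≤ X.card) :
    min l ((j + 1) * (V.card - 1)) * (3 * j + 2) ≤ 2 * X.card := by
  classical
  have : NeZero l := ⟨by omega⟩
  have hW : ∀ w ∈ V + ({0, 1} : Finset ℤ), lam X (w - v0) ≤ e := by
    intro w hw
    have hv0 : v0 ∈ V + ({0, 1} : Finset ℤ) := by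
      have := add_mem_add h0 (show (0 : ℤ) ∈ ({0, 1} : Finset ℤ) by simp)
      simpa using this
    have := lam_le X _ hv0 hw
    omega
  have hV0 : ∀ v ∈ V, lam X (v - v0) ≤ e := by
    intro v hv
    apply hW
    have := add_mem_add hv (show (0 : ℤ) ∈ ({0, 1} : Finset ℤ) by simp)
    simpa using this
  have hone : lam X 1 ≤ e := by
    have := hW _ (add_mem_add h0 (show (1 : ℤ) ∈ ({0, 1} : Finset ℤ) by simp))
    simpa using this
  have hll : lam X l ≤ e := by simpa using hV0 _ h1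
  set R : ℕ → Finset (ZMod l) := fun i =>
    univ.filter (fun r => ∃ g : ℤ, (g : ZMod l) = r ∧ lam X g ≤ i * e) with hR
  have hmem : ∀ i r, r ∈ R i ↔ ∃ g : ℤ, (g : ZMod l) = r ∧ lam X g ≤ i * e := by
    intro i r; simp [hR]
  have hgrow := ball_growth l R
    (by
      intro i i' a b ha hb
      obtain ⟨g, rfl, hg⟩ := (hmem _ _).1 ha
      obtain ⟨g', rfl, hg'⟩ := (hmem _ _).1 hb
      refine (hmem _ _).2 ⟨g + g', by push_cast; rfl, (lam_add _ _ _).trans ?_⟩
      nlinarith)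
    (by
      intro a ha
      obtain ⟨g, rfl, hg⟩ := (hmem _ _).1 ha
      exact (hmem _ _).2 ⟨-g, by push_cast; rfl, by rw [lam_neg]; exact hg⟩)
    ((hmem _ _).2 ⟨0, by simp, by simp [lam_zero]⟩)
    ((hmem _ _).2 ⟨0, by simp, by simp [lam_zero]⟩)
    ((hmem _ _).2 ⟨1, by simp, by simpa using hone⟩) j
  have hR1 : V.card - 1 ≤ (R 1).card := by
    rw [← card_erase_of_mem h1]
    refine card_le_card_of_injOn (fun v => ((v - v0 : ℤ) : ZMod l)) ?_ ?_
    · intro v hv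
      exact mem_coe.2 ((hmem _ _).2 ⟨v - v0, rfl, by simpa using hV0 v (mem_of_mem_erase hv)⟩)
    · intro a ha b hb hab
      have ha' := mem_erase.1 (mem_coe.1 ha)
      have hb' := mem_erase.1 (mem_coe.1 hb)
      have h2 := hV a ha'.2
      have h3 := hV b hb'.2
      have hdvd : (l : ℤ) ∣ (b - v0) - (a - v0) := (ZMod.intCast_eq_intCast_iff_dvd_sub _ _ _).1 hab
      have habs : |(b - v0) - (a - v0)| < (l : ℤ) := by
        rw [abs_lt]; have := ha'.1; have := hb'.1; constructor <;> omega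
      have := Int.eq_zero_of_abs_lt_dvd hdvd habs
      linarith
  have hch : ∀ r : ZMod l, ∃ g : ℤ, r ∈ R (3 * j + 1) →
      ((g : ZMod l) = r ∧ lam X g ≤ (3 * j + 1) * e) := by
    intro r
    by_cases hr : r ∈ R (3 * j + 1)
    · obtain ⟨g, hg⟩ := (hmem _ _).1 hr
      exact ⟨g, fun _ => hg⟩
    · exact ⟨0, fun h => absurd h hr⟩
  choose gg hgg using hch
  have hinj : Set.InjOn (fun p : ZMod l × ℕ => gg p.1 + (p.2 : ℤ) * l)
      ((R (3 * j + 1) ×ˢ range (3 * j + 2) : Finset (ZMod l × ℕ)) : Set (ZMod l × ℕ)) := by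
    rintro ⟨r, i⟩ hp ⟨r', i'⟩ hp' h
    have hr := (mem_product.1 (mem_coe.1 hp)).1
    have hr' := (mem_product.1 (mem_coe.1 hp')).1
    simp only at h hr hr'
    have h2 : r = r' := by
      have := congrArg (fun z : ℤ => (z : ZMod l)) h
      simp only [Int.cast_add, Int.cast_mul, Int.cast_natCast, ZMod.natCast_self, mul_zero,
        add_zero] at this
      rw [(hgg r hr).1, (hgg r' hr').1] at this
      exact this
    subst h2
    have h3 : (i : ℤ) * l = (i' : ℤ) * l := add_left_cancel h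
    have h4 : (i : ℤ) = i' := mul_right_cancel₀ (by exact_mod_cast (by omega : l ≠ 0)) h3
    have h5 : i = i' := by exact_mod_cast h4
    rw [h5]
  have hcount := lam_count X ((R (3 * j + 1) ×ˢ range (3 * j + 2)).image
    (fun p : ZMod l × ℕ => gg p.1 + (p.2 : ℤ) * l)) hX (by
      intro g hg
      obtain ⟨⟨r, i⟩, hp, rfl⟩ := mem_image.1 hg
      have hr := (mem_product.1 hp).1
      have hi := mem_range.1 (mem_product.1 hp).2
      simp only at hr hi ⊢
      have h2 := lam_add X (gg r) ((i : ℤ) * l)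
      have h3 := lam_nsmul X l e hll i
      have h4 := (hgg r hr).2
      have h5 : i * e ≤ (3 * j + 1) * e := Nat.mul_le_mul_right _ (by omega)
      omega)
  rw [card_image_of_injOn hinj, card_product, card_range] at hcount
  refine le_trans (Nat.mul_le_mul_right _ ?_) hcount
  refine le_trans ?_ hgrow
  exact min_le_min le_rfl (Nat.mul_le_mul_left _ hR1)

/-- `V` has at least `m` points and diameter at least `64 k m` (and at least one) -/
def Wide (k : ℕ) (m : ℝ) (V : Finset ℤ) : Prop :=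
  m ≤ V.card ∧ ∃ (v0 : ℤ) (l : ℕ), 1 ≤ l ∧ v0 ∈ V ∧ v0 + l ∈ V ∧
    (∀ v ∈ V, v0 ≤ v ∧ v ≤ v0 + l) ∧ 64 * k * m ≤ l

lemma lin_step (X V : Finset ℤ) (hX : X.Nonempty) (hV : V.Nonempty) :
    X.card + V.card ≤ (X + (V + ({0, 1} : Finset ℤ))).card := by
  have h1 := cauchy_davenport_add_of_linearOrder_isCancelAdd hV
    (show ({0, 1} : Finset ℤ).Nonempty by simp)
  have h2 := cauchy_davenport_add_of_linearOrder_isCancelAdd hX
    (hV.add (show ({0, 1} : Finset ℤ).Nonempty by simp))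
  have h3 : ({0, 1} : Finset ℤ).card = 2 := by simp
  have := hV.card_pos
  omega

lemma incr (k j h : ℕ) (hk : 1 ≤ k) (hj1 : 128 * k ≤ j ^ 2) (hj2 : 1024 * j * k ≤ h ^ 2)
    (m : ℝ) (hm : 0 < m) (X V : Finset ℤ) (hX : X.Nonempty) (hV : Wide k m V)
    (hp : h * m ≤ X.card) (hY : ((X + (V + ({0, 1} : Finset ℤ))).card : ℝ) < 64 * k * m) :
    (X.card : ℝ) + 64 * k * m / h ≤ (X + (V + ({0, 1} : Finset ℤ))).card := by
  obtain ⟨hm1, v0, l, hl, h0, h1, hVV, hll⟩ := hV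
  by_contra hc
  push Not at hc
  have hj : 1 ≤ j := by
    by_contra h'
    have : j = 0 := by omega
    subst this
    omega
  have hh : 1 ≤ h := by
    by_contra h'
    have : h = 0 := by omega
    subst this
    have : 0 < 1024 * j * k := by positivity
    omega
  have hhR : (0 : ℝ) < h := by exact_mod_cast hh
  have hlin := lin_step X V hX ⟨v0, h0⟩
  obtain ⟨e, he⟩ : ∃ e, (X + (V + ({0, 1} : Finset ℤ))).card = X.card + e :=
    ⟨(X + (V + ({0, 1} : Finset ℤ))).card - X.card, by omega⟩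
  rw [he] at hc hY
  push_cast at hc hY
  have he1 : (e : ℝ) * h < 64 * k * m := by
    have : (e : ℝ) < 64 * k * m / h := by linarith
    rwa [lt_div_iff₀ hhR] at this
  have hjR : (1 : ℝ) ≤ j := by exact_mod_cast hj
  have hj2R : (1024 : ℝ) * j * k ≤ (h : ℝ) ^ 2 := by exact_mod_cast hj2
  have hj1R : (128 : ℝ) * k ≤ (j : ℝ) ^ 2 := by exact_mod_cast hj1
  have heR : (0 : ℝ) ≤ e := Nat.cast_nonneg _
  have hkey : 4 * ((3 * j + 1) * e) ≤ X.card := by
    have h2 : (16 : ℝ) * j * e * h ≤ (h * m) * h := by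
      have h3 : (16 : ℝ) * j * (e * h) ≤ 16 * j * (64 * k * m) :=
        mul_le_mul_of_nonneg_left he1.le (by positivity)
      have h4 : (1024 : ℝ) * j * k * m ≤ (h : ℝ) ^ 2 * m := mul_le_mul_of_nonneg_right hj2R hm.le
      nlinarith
    have h3 : (16 : ℝ) * j * e ≤ h * m := le_of_mul_le_mul_right h2 hhR
    have h4 : (4 : ℝ) * ((3 * j + 1) * e) ≤ X.card := by nlinarith
    exact_mod_cast h4
  have hq := quad X V hX v0 l hl h0 h1 hVV e j he.le hkey
  have hV2 : 2 ≤ V.card := by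
    have : ({v0, v0 + l} : Finset ℤ) ⊆ V := by
      intro z hz
      rcases mem_insert.1 hz with rfl | hz
      · exact h0
      · rw [mem_singleton.1 hz]; exact h1
    have h5 := card_le_card this
    rw [card_pair (by omega)] at h5
    exact h5
  obtain ⟨c, hc1⟩ : ∃ c, V.card = c + 1 := ⟨V.card - 1, by omega⟩
  have hc2 : m ≤ 2 * (c : ℝ) := by
    have h5 : (1 : ℝ) ≤ c := by exact_mod_cast (by omega : 1 ≤ c)
    rw [hc1] at hm1
    push_cast at hm1
    linarith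
  rw [hc1, Nat.add_sub_cancel] at hq
  have hkR : (1 : ℝ) ≤ k := by exact_mod_cast hk
  rcases le_total l ((j + 1) * c) with hmin | hmin
  · rw [min_eq_left hmin] at hq
    have h5 : (l : ℝ) * (3 * j + 2) ≤ 2 * X.card := by exact_mod_cast hq
    have h6 : (0 : ℝ) ≤ l := Nat.cast_nonneg _
    nlinarith
  · rw [min_eq_right hmin] at hq
    have h5 : ((j : ℝ) + 1) * c * (3 * j + 2) ≤ 2 * X.card := by exact_mod_cast hq
    have h6 : (0 : ℝ) ≤ c := Nat.cast_nonneg _
    have h7 : (128 : ℝ) * k * m ≤ (j : ℝ) ^ 2 * (2 * c) :=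
      mul_le_mul hj1R hc2 hm.le (by positivity)
    have h8 : (j : ℝ) ^ 2 * (2 * c) ≤ ((j : ℝ) + 1) * c * (3 * j + 2) := by
      have : (0 : ℝ) ≤ c * ((j : ℝ) ^ 2 + 5 * j + 2) := by positivity
      nlinarith
    linarith

lemma wide_nonempty {k : ℕ} {m : ℝ} {V : Finset ℤ} (h : Wide k m V) : V.Nonempty := by
  obtain ⟨_, v0, _, _, h0, _⟩ := h
  exact ⟨v0, h0⟩

/-- superlinear growth of a sum of thick wide sets -/
lemma grow (k j h : ℕ) (hk : 1 ≤ k) (hj1 : 128 * k ≤ j ^ 2) (hj2 : 1024 * j * k ≤ h ^ 2)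
    (m : ℝ) (hm : 0 < m) (V : ℕ → Finset ℤ) (I : Finset ℕ) (hV : ∀ i ∈ I, Wide k m (V i))
    (hI : I.card = 2 * h) :
    64 * k * m ≤ ((∑ i ∈ I, (V i + ({0, 1} : Finset ℤ))).card : ℝ) := by
  have hh : 1 ≤ h := by
    by_contra h'
    have h0 : h = 0 := by omega
    subst h0
    have hj : j ≠ 0 := by
      rintro rfl
      omega
    have : 0 < 1024 * j * k := by positivity
    omega
  have hhR : (0 : ℝ) < h := by exact_mod_cast hh
  have key : ∀ J : Finset ℕ, (∀ i ∈ J, Wide k m (V i)) →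
      (∑ i ∈ J, (V i + ({0, 1} : Finset ℤ))).Nonempty ∧
      J.card * m ≤ ((∑ i ∈ J, (V i + ({0, 1} : Finset ℤ))).card : ℝ) ∧
      (64 * k * m ≤ ((∑ i ∈ J, (V i + ({0, 1} : Finset ℤ))).card : ℝ) ∨
        ((J.card : ℝ) - h) * (64 * k * m / h) ≤
          ((∑ i ∈ J, (V i + ({0, 1} : Finset ℤ))).card : ℝ)) := by
    intro J
    induction J using Finset.induction_on with
    | empty =>
      intro _
      refine ⟨by simp, by simp, Or.inr ?_⟩
      have : (0 : ℝ) ≤ 64 * k * m / h := by positivity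
      have h2 : (0 : ℝ) ≤ ((∑ i ∈ (∅ : Finset ℕ), (V i + ({0, 1} : Finset ℤ))).card : ℝ) :=
        Nat.cast_nonneg _
      rw [card_empty]
      push_cast
      nlinarith
    | insert a J ha ih =>
      intro hW
      obtain ⟨hne, hl, hq⟩ := ih (fun i hi => hW i (mem_insert_of_mem hi))
      have hWa := hW a (mem_insert_self _ _)
      rw [sum_insert ha, card_insert_of_notMem ha, add_comm (V a + _)]
      set X := ∑ i ∈ J, (V i + ({0, 1} : Finset ℤ)) with hX
      have hlin : (X.card : ℝ) + (V a).card ≤ (X + (V a + ({0, 1} : Finset ℤ))).card := by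
        exact_mod_cast lin_step X (V a) hne (wide_nonempty hWa)
      have hma := hWa.1
      refine ⟨hne.add ((wide_nonempty hWa).add (by simp)), by push_cast; linarith, ?_⟩
      by_cases hY : 64 * k * m ≤ ((X + (V a + ({0, 1} : Finset ℤ))).card : ℝ)
      · exact Or.inl hY
      · right
        push Not at hY
        have hD : (0 : ℝ) ≤ 64 * k * m / h := by positivity
        by_cases hJ : J.card < h
        · have h1 : ((J.card + 1 : ℕ) : ℝ) - h ≤ 0 := by
            have : ((J.card + 1 : ℕ) : ℝ) ≤ h := by exact_mod_cast hJ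
            linarith
          exact (mul_nonpos_of_nonpos_of_nonneg h1 hD).trans (Nat.cast_nonneg _)
        · have h1 : (h : ℝ) ≤ J.card := by exact_mod_cast (not_lt.1 hJ)
          have h2 : (h : ℝ) * m ≤ X.card := (mul_le_mul_of_nonneg_right h1 hm.le).trans hl
          have h3 := incr k j h hk hj1 hj2 m hm X (V a) hne hWa h2 hY
          rcases hq with hq | hq
          · linarith
          · push_cast
            linarith
  rcases (key I hV).2.2 with h1 | h1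
  · exact h1
  · refine le_trans (le_of_eq ?_) h1
    rw [hI]
    push_cast
    field_simp
    ring

lemma mem_sum_iff (I : Finset ℕ) (S : ℕ → Finset ℤ) (w : ℤ) :
    w ∈ ∑ i ∈ I, S i ↔ ∃ g : ℕ → ℤ, (∀ i ∈ I, g i ∈ S i) ∧ ∑ i ∈ I, g i = w := by
  rw [← mem_coe, Finset.coe_sum, Set.mem_finsetSum]
  constructor
  · rintro ⟨g, h1, h2⟩
    exact ⟨g, fun i hi => mem_coe.1 (h1 hi), h2⟩
  · rintro ⟨g, h1, h2⟩
    exact ⟨g, fun {i} hi => mem_coe.2 (h1 i hi), h2⟩

/-- the numerical constants of the argument -/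
structure Par (k j h : ℕ) (τ ε : ℝ) : Prop where
  hk : 2 ≤ k
  hj1 : 128 * k ≤ j ^ 2
  hj2 : 1024 * j * k ≤ h ^ 2
  hn : 2 * h ≤ k
  hpow : (16 * k) ^ (2 * h) ≤ 4 ^ k
  hτ : 0 < τ
  hτ1 : τ ≤ 1
  hε : 16 * k * τ ≤ ε
  hε1 : ε ≤ 1 / 4
  hthr : (1 / 2 : ℝ) ^ k ≤ (τ ^ 2) ^ (2 * h)

lemma wide_of (k : ℕ) (m : ℝ) (V : Finset ℤ) (hm : m ≤ V.card) {b b' : ℤ} (hb : b ∈ V)
    (hb' : b' ∈ V) (h1 : 64 * k * m ≤ (b : ℝ) - b') (h2 : b' < b) : Wide k m V := by
  have hne : V.Nonempty := ⟨b, hb⟩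
  have h3 : V.min' hne ≤ b' := min'_le _ _ hb'
  have h4 : b ≤ V.max' hne := le_max' _ _ hb
  have h5 : (((V.max' hne - V.min' hne).toNat : ℕ) : ℤ) = V.max' hne - V.min' hne :=
    Int.toNat_of_nonneg (by omega)
  refine ⟨hm, V.min' hne, (V.max' hne - V.min' hne).toNat, by omega, min'_mem _ _, ?_, ?_, ?_⟩
  · rw [h5]
    have : V.min' hne + (V.max' hne - V.min' hne) = V.max' hne := by ring
    rw [this]; exact max'_mem _ _
  · intro v hv
    have := le_max' _ _ hv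
    exact ⟨min'_le _ _ hv, by omega⟩
  · have h6 : ((b - b' : ℤ) : ℝ) ≤ ((((V.max' hne - V.min' hne).toNat : ℕ) : ℤ) : ℝ) := by
      exact_mod_cast (by omega : b - b' ≤ (((V.max' hne - V.min' hne).toNat : ℕ) : ℤ))
    push_cast at h6
    linarith

/-- the step of the tree induction, normalised form -/
lemma step0 {k j h : ℕ} {τ ε : ℝ} (P : Par k j h τ ε) (C : ℕ → Finset ℤ) (y : ℕ → ℤ → ℝ)
    (b0 : ℕ → ℤ) (good : ℕ → Prop) [DecidablePred good] (N : ℤ → ℝ) (m : ℝ)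
    (hb0 : ∀ i < k, b0 i ∈ C i) (hy0 : ∀ i < k, y i (b0 i) = 1)
    (hy : ∀ i < k, ∀ b ∈ C i, 0 < y i b ∧ y i b ≤ 1)
    (hgood : ∀ i < k, good i →
      (ε * ∑ b ∈ C i, y i b < ∑ b ∈ (C i).filter (fun b => y i b < τ ^ 2), y i b) ∨
      ∃ b ∈ C i, ∃ b' ∈ C i, τ ^ 2 ≤ y i b ∧ τ ^ 2 ≤ y i b' ∧
        64 * k * ∑ c ∈ C i, y i c ≤ (b : ℝ) - b')
    (hN : ∀ w, 0 ≤ N w) (ha : ∀ W : Finset ℤ, ∑ w ∈ W, N w ≤ 2 * k * m)
    (hb : ∀ b : ℕ → ℤ, (∀ i < k, b i ∈ C i) → ∀ u : ℤ, 0 ≤ u → u ≤ k →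
      ∏ i ∈ range k, y i (b i) ≤ N (∑ i ∈ range k, b i + u) ^ k) :
    ∏ i ∈ range k, ((if good i then 2 else 1 / (8 * (k : ℝ))) * ∑ b ∈ C i, y i b) ≤ m ^ k := by
  have hk := P.hk
  have hk0 : k ≠ 0 := by omega
  have hkR : (2 : ℝ) ≤ k := by exact_mod_cast hk
  have hτ := P.hτ
  have tup : ∀ I : Finset ℕ, I ⊆ range k → ∀ c : ℕ → ℤ, (∀ i ∈ I, c i ∈ C i) →
      ∀ u : ℤ, 0 ≤ u → u ≤ k →
      ∏ i ∈ I, y i (c i) ≤ N (∑ i ∈ I, c i + u + ∑ i ∈ range k \ I, b0 i) ^ k := by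
    intro I hI c hc u hu0 hu1
    have h1 := hb (fun i => if i ∈ I then c i else b0 i) (by
      intro i hi
      by_cases hiI : i ∈ I
      · simp only [if_pos hiI]; exact hc i hiI
      · simp only [if_neg hiI]; exact hb0 i hi) u hu0 hu1
    rw [← prod_sdiff hI, ← sum_sdiff hI] at h1
    have e1 : ∏ i ∈ range k \ I, y i (if i ∈ I then c i else b0 i) = 1 := by
      refine prod_eq_one fun i hi => ?_
      rw [mem_sdiff] at hi
      rw [if_neg hi.2]
      exact hy0 i (mem_range.1 hi.1)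
    have e2 : ∏ i ∈ I, y i (if i ∈ I then c i else b0 i) = ∏ i ∈ I, y i (c i) :=
      prod_congr rfl fun i hi => by rw [if_pos hi]
    have e3 : ∑ i ∈ range k \ I, (if i ∈ I then c i else b0 i) = ∑ i ∈ range k \ I, b0 i :=
      sum_congr rfl fun i hi => by rw [if_neg (mem_sdiff.1 hi).2]
    have e4 : ∑ i ∈ I, (if i ∈ I then c i else b0 i) = ∑ i ∈ I, c i :=
      sum_congr rfl fun i hi => by rw [if_pos hi]
    rw [e1, e2, e3, e4, one_mul] at h1
    have e5 : ∑ i ∈ I, c i + u + ∑ i ∈ range k \ I, b0 i =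
        ∑ i ∈ range k \ I, b0 i + ∑ i ∈ I, c i + u := by ring
    rw [e5]; exact h1
  have shift : ∀ (W : Finset ℤ) (r : ℤ), ∑ w ∈ W, N (w + r) ≤ 2 * k * m := by
    intro W r
    have := ha (W.image (fun w => w + r))
    rwa [sum_image (fun a _ b _ hab => add_right_cancel hab)] at this
  have one : ∀ i < k, ∀ b ∈ C i, y i b ≤ N (b + ∑ i' ∈ range k \ {i}, b0 i') ^ k := by
    intro i hi b hb1
    have := tup {i} (by simpa using hi) (fun _ => b) (by simpa using hb1) 0 le_rfl (by positivity)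
    simpa using this
  have T1 : ∀ i < k, ∑ b ∈ C i, y i b ≤ 2 * k * m := by
    intro i hi
    refine le_trans (sum_le_sum fun b hb1 => ?_) (shift (C i) (∑ i' ∈ range k \ {i}, b0 i'))
    refine le_of_pow_le_pow_left₀ hk0 (hN _) (le_trans ?_ (one i hi b hb1))
    exact pow_le_of_le_one (hy i hi b hb1).1.le (hy i hi b hb1).2 hk0
  have T2 : ∀ i < k, ∑ b ∈ (C i).filter (fun b => y i b < τ ^ 2), y i b ≤ τ * (2 * k * m) := by
    intro i hi
    refine le_trans ?_ (mul_le_mul_of_nonneg_left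
      (shift ((C i).filter (fun b => y i b < τ ^ 2)) (∑ i' ∈ range k \ {i}, b0 i')) hτ.le)
    rw [mul_sum]
    refine sum_le_sum fun b hb1 => ?_
    obtain ⟨hb2, hb3⟩ := mem_filter.1 hb1
    have h0 := (hy i hi b hb2).1
    have h1 : y i b / τ ≤ N (b + ∑ i' ∈ range k \ {i}, b0 i') := by
      refine le_of_pow_le_pow_left₀ hk0 (hN _) (le_trans ?_ (one i hi b hb2))
      have h2 : y i b / τ ≤ 1 := by
        rw [div_le_one hτ]
        have := P.hτ1
        nlinarith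
      refine (pow_le_pow_of_le_one (by positivity) h2 hk).trans ?_
      rw [div_pow, div_le_iff₀ (by positivity)]
      nlinarith
    rwa [div_le_iff₀ hτ, mul_comm] at h1
  have hφ : ∀ i < k, 1 ≤ ∑ b ∈ C i, y i b := by
    intro i hi
    rw [← hy0 i hi]
    exact single_le_sum (f := fun b => y i b) (fun b hb1 => (hy i hi b hb1).1.le) (hb0 i hi)
  have hm : 0 < m := by
    have h1 := hφ 0 (by omega)
    have h2 := T1 0 (by omega)
    by_contra h3
    push Not at h3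
    nlinarith
  set I := (range k).filter (fun i => good i ∧ m / 8 ≤ ∑ b ∈ C i, y i b) with hI
  have hIs : I ⊆ range k := filter_subset _ _
  by_cases hc : I.card < 2 * h
  · rw [← prod_sdiff hIs]
    have h1 : ∏ i ∈ range k \ I, ((if good i then 2 else 1 / (8 * (k : ℝ))) * ∑ b ∈ C i, y i b)
        ≤ (m / 4) ^ (k - I.card) := by
      rw [← card_range k, ← card_sdiff_of_subset hIs, card_range, ← prod_const]
      refine prod_le_prod (fun i hi => ?_) (fun i hi => ?_)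
      · have := hφ i (mem_range.1 (mem_sdiff.1 hi).1)
        split_ifs <;> positivity
      · obtain ⟨h2, h3⟩ := mem_sdiff.1 hi
        have h4 := T1 i (mem_range.1 h2)
        by_cases hg : good i
        · rw [if_pos hg]
          have : ¬ m / 8 ≤ ∑ b ∈ C i, y i b := fun h5 => h3 (mem_filter.2 ⟨h2, hg, h5⟩)
          push Not at this
          linarith
        · rw [if_neg hg, one_div, inv_mul_le_iff₀ (by positivity)]
          linarith
    have h2 : ∏ i ∈ I, ((if good i then 2 else 1 / (8 * (k : ℝ))) * ∑ b ∈ C i, y i b)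
        ≤ (16 * k * (m / 4)) ^ I.card := by
      rw [← prod_const]
      refine prod_le_prod (fun i hi => ?_) (fun i hi => ?_)
      · have := hφ i (mem_range.1 (hIs hi))
        split_ifs <;> positivity
      · rw [if_pos (mem_filter.1 hi).2.1]
        have h4 := T1 i (mem_range.1 (hIs hi))
        linarith
    have h3 : (0 : ℝ) ≤ ∏ i ∈ I,
        ((if good i then 2 else 1 / (8 * (k : ℝ))) * ∑ b ∈ C i, y i b) := by
      refine prod_nonneg fun i hi => ?_
      have := hφ i (mem_range.1 (hIs hi))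
      split_ifs <;> positivity
    refine (mul_le_mul h1 h2 h3 (by positivity)).trans ?_
    have hle : I.card ≤ k := by simpa using card_le_card hIs
    have h4 : ((16 : ℝ) * k) ^ I.card ≤ 4 ^ k := by
      have h5 : ((16 : ℝ) * k) ^ (2 * h) ≤ 4 ^ k := by exact_mod_cast P.hpow
      exact (pow_le_pow_right₀ (by linarith) hc.le).trans h5
    rw [mul_pow, mul_left_comm, ← pow_add, Nat.sub_add_cancel hle]
    calc ((16 : ℝ) * k) ^ I.card * (m / 4) ^ k ≤ 4 ^ k * (m / 4) ^ k :=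
          mul_le_mul_of_nonneg_right h4 (by positivity)
      _ = m ^ k := by rw [← mul_pow]; congr 1; ring
  · exfalso
    obtain ⟨J, hJ, hJc⟩ := exists_subset_card_eq (not_lt.1 hc)
    have hJk : J ⊆ range k := hJ.trans hIs
    have hε0 : 0 < ε := lt_of_lt_of_le (by positivity) P.hε
    have hwide : ∀ i ∈ J, Wide k (m / 12) ((C i).filter (fun b => τ ^ 2 ≤ y i b)) := by
      intro i hi
      obtain ⟨h1, h2, h3⟩ := mem_filter.1 (hJ hi)
      have hik := mem_range.1 h1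
      have h4 := T2 i hik
      have hS : ∑ b ∈ (C i).filter (fun b => y i b < τ ^ 2), y i b ≤ ε * ∑ b ∈ C i, y i b := by
        have h5 : ε * (m / 8) ≤ ε * ∑ b ∈ C i, y i b := mul_le_mul_of_nonneg_left h3 hε0.le
        have h6 : 16 * k * τ * m ≤ ε * m := mul_le_mul_of_nonneg_right P.hε hm.le
        nlinarith
      rcases hgood i hik h2 with h5 | ⟨b, hb1, b', hb1', h5, h6, h7⟩
      · exact absurd hS (not_le.2 h5)
      · have h8 := sum_filter_add_sum_filter_not (C i) (fun b => τ ^ 2 ≤ y i b) (y i)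
        simp only [not_le] at h8
        have h9 : ∑ b ∈ (C i).filter (fun b => τ ^ 2 ≤ y i b), y i b ≤
            (((C i).filter (fun b => τ ^ 2 ≤ y i b)).card : ℝ) := by
          have := sum_le_card_nsmul ((C i).filter (fun b => τ ^ 2 ≤ y i b)) (y i) 1
            (fun b hb2 => (hy i hik b (mem_filter.1 hb2).1).2)
          simpa using this
        have h10 : ε * ∑ b ∈ C i, y i b ≤ 1 / 4 * ∑ b ∈ C i, y i b :=
          mul_le_mul_of_nonneg_right P.hε1 (by linarith)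
        have h11 : 64 * (k : ℝ) * (m / 12) ≤ 64 * k * ∑ c ∈ C i, y i c :=
          mul_le_mul_of_nonneg_left (by linarith) (by positivity)
        have h12 : (0 : ℝ) < 64 * (k : ℝ) * (m / 12) := by positivity
        refine wide_of k _ _ (by linarith) (mem_filter.2 ⟨hb1, h5⟩) (mem_filter.2 ⟨hb1', h6⟩)
          (by linarith) ?_
        have : (b' : ℝ) < b := by linarith
        exact_mod_cast this
    have hg := grow k j h (by omega) P.hj1 P.hj2 (m / 12) (by positivity) _ J hwide hJc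
    set W := ∑ i ∈ J, ((C i).filter (fun b => τ ^ 2 ≤ y i b) + ({0, 1} : Finset ℤ)) with hW
    have hhalf : ∀ w ∈ W, (1 / 2 : ℝ) ≤ N (w + ∑ i ∈ range k \ J, b0 i) := by
      intro w hw
      obtain ⟨g, hg1, hg2⟩ := (mem_sum_iff _ _ _).1 hw
      have hch : ∀ i, ∃ c u : ℤ, i ∈ J →
          (c ∈ C i ∧ τ ^ 2 ≤ y i c ∧ 0 ≤ u ∧ u ≤ 1 ∧ c + u = g i) := by
        intro i
        by_cases hi : i ∈ J
        · obtain ⟨c, hc1, u, hu, hcu⟩ := mem_add.1 (hg1 i hi)
          refine ⟨c, u, fun _ => ⟨(mem_filter.1 hc1).1, (mem_filter.1 hc1).2, ?_, ?_, hcu⟩⟩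
          · simp only [mem_insert, mem_singleton] at hu; omega
          · simp only [mem_insert, mem_singleton] at hu; omega
        · exact ⟨0, 0, fun h1 => absurd h1 hi⟩
      choose c u hcu using hch
      have hu1 : ∑ i ∈ J, u i ≤ k := by
        have h1 := sum_le_card_nsmul J u 1 (fun i hi => (hcu i hi).2.2.2.1)
        have h2 := P.hn
        rw [hJc] at h1
        simp only [nsmul_eq_mul, mul_one] at h1
        exact le_trans h1 (by exact_mod_cast h2)
      have h1 := tup J hJk c (fun i hi => (hcu i hi).1) (∑ i ∈ J, u i)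
        (sum_nonneg fun i hi => (hcu i hi).2.2.1) hu1
      have h2 : ∑ i ∈ J, c i + ∑ i ∈ J, u i = w := by
        rw [← sum_add_distrib, ← hg2]
        exact sum_congr rfl fun i hi => (hcu i hi).2.2.2.2
      rw [h2] at h1
      refine le_of_pow_le_pow_left₀ hk0 (hN _) (P.hthr.trans (le_trans ?_ h1))
      rw [← hJc, ← prod_const]
      exact prod_le_prod (fun _ _ => by positivity) (fun i hi => (hcu i hi).2.1)
    have h1 := shift W (∑ i ∈ range k \ J, b0 i)
    have h2 := card_nsmul_le_sum W (fun w => N (w + ∑ i ∈ range k \ J, b0 i)) (1 / 2) hhalf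
    rw [nsmul_eq_mul] at h2
    have h3 : (0 : ℝ) < k * m := by positivity
    nlinarith

/-- almost all the weight sits on heavy points, and the heavy points lie in a short interval -/
def Bad (k : ℕ) (τ ε : ℝ) (C : Finset ℤ) (f : ℤ → ℝ) : Prop :=
  ∃ b0 ∈ C, (∀ b ∈ C, f b ≤ f b0) ∧
    ∑ b ∈ C.filter (fun b => f b < τ ^ 2 * f b0), f b ≤ ε * ∑ b ∈ C, f b ∧
    ∀ b ∈ C, ∀ b' ∈ C, τ ^ 2 * f b0 ≤ f b → τ ^ 2 * f b0 ≤ f b' →
      ((b : ℝ) - b') * f b0 < 64 * k * ∑ c ∈ C, f c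

open Classical in
/-- gain factor of a node -/
noncomputable def gam (k : ℕ) (τ ε : ℝ) (C : Finset ℤ) (f : ℤ → ℝ) : ℝ :=
  if ¬ Bad k τ ε C f then 2 else 1 / (8 * (k : ℝ))

/-- the step of the tree induction -/
lemma step {k j h : ℕ} {τ ε : ℝ} (P : Par k j h τ ε) (C : ℕ → Finset ℤ) (f : ℤ → ℝ)
    (N : ℤ → ℝ) (F : ℝ) (hC : ∀ i < k, (C i).Nonempty) (hf : ∀ i < k, ∀ b ∈ C i, 0 < f b)
    (hN : ∀ w, 0 ≤ N w) (ha : ∀ W : Finset ℤ, ∑ w ∈ W, N w ≤ 2 * k * F)
    (hb : ∀ b : ℕ → ℤ, (∀ i < k, b i ∈ C i) → ∀ u : ℤ, 0 ≤ u → u ≤ k →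
      ∏ i ∈ range k, f (b i) ≤ N (∑ i ∈ range k, b i + u) ^ k) :
    ∏ i ∈ range k, (gam k τ ε (C i) f * ∑ b ∈ C i, f b) ≤ F ^ k := by
  classical
  have hk0 : k ≠ 0 := by have := P.hk; omega
  have hch : ∀ i, ∃ b0 : ℤ, i < k → (b0 ∈ C i ∧ ∀ b ∈ C i, f b ≤ f b0) := by
    intro i
    by_cases hi : i < k
    · obtain ⟨b0, h1, h2⟩ := exists_max_image (C i) f (hC i hi)
      exact ⟨b0, fun _ => ⟨h1, h2⟩⟩
    · exact ⟨0, fun h1 => absurd h1 hi⟩
  choose b0 hb0 using hch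
  have hM : ∀ i < k, 0 < f (b0 i) := fun i hi => hf i hi _ (hb0 i hi).1
  have hP : 0 < ∏ i ∈ range k, f (b0 i) := prod_pos fun i hi => hM i (mem_range.1 hi)
  obtain ⟨M, hM0, hMk⟩ : ∃ M : ℝ, 0 < M ∧ M ^ k = ∏ i ∈ range k, f (b0 i) :=
    ⟨_, Real.rpow_pos_of_pos hP _, Real.rpow_inv_natCast_pow hP.le hk0⟩
  have key := step0 P C (fun i b => f b / f (b0 i)) b0 (fun i => ¬ Bad k τ ε (C i) f)
    (fun w => N w / M) (F / M) (fun i hi => (hb0 i hi).1)
    (fun i hi => div_self (hM i hi).ne')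
    (fun i hi b hb1 => ⟨div_pos (hf i hi b hb1) (hM i hi),
      (div_le_one (hM i hi)).2 ((hb0 i hi).2 b hb1)⟩)
    (by
      intro i hi hg
      have hMi := hM i hi
      by_contra hcon
      push Not at hcon
      obtain ⟨h1, h2⟩ := hcon
      apply hg
      refine ⟨b0 i, (hb0 i hi).1, (hb0 i hi).2, ?_, ?_⟩
      · simp only [div_lt_iff₀ hMi] at h1
        rw [← sum_div, ← sum_div, ← mul_div_assoc, div_le_div_iff_of_pos_right hMi] at h1
        exact h1
      · intro b hb1 b' hb1' h3 h4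
        have h5 := h2 b hb1 b' hb1' ((le_div_iff₀ hMi).2 h3) ((le_div_iff₀ hMi).2 h4)
        rw [← sum_div, ← mul_div_assoc, lt_div_iff₀ hMi] at h5
        exact h5)
    (fun w => div_nonneg (hN w) hM0.le)
    (by
      intro W
      rw [← sum_div, ← mul_div_assoc]
      exact div_le_div_of_nonneg_right (ha W) hM0.le)
    (by
      intro b hb1 u hu0 hu1
      rw [prod_div_distrib, div_pow, hMk]
      exact div_le_div_of_nonneg_right (hb b hb1 u hu0 hu1) hP.le)
  rw [div_pow, hMk, le_div_iff₀ hP, ← prod_mul_distrib] at key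
  refine le_trans (le_of_eq (prod_congr rfl fun i hi => ?_)) key
  have hMi := hM i (mem_range.1 hi)
  rw [← sum_div, mul_assoc, div_mul_cancel₀ _ hMi.ne']
  unfold gam
  congr

lemma logsum (C : Finset ℤ) (hC : C.Nonempty) (μ f θ : ℤ → ℝ) (S : ℝ) (hS : 0 < S)
    (hμ : ∀ b ∈ C, 0 < μ b) (hf : ∀ b ∈ C, 0 < f b) (hθ : ∀ b ∈ C, 0 < θ b)
    (h : ∑ b ∈ C, θ b * f b ≤ S) :
    ∑ b ∈ C, μ b * Real.log (f b / μ b) + ∑ b ∈ C, μ b * Real.log (θ b) ≤
      (∑ b ∈ C, μ b) * Real.log (S / ∑ b ∈ C, μ b) := by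
  set M := ∑ b ∈ C, μ b with hM
  have hM0 : 0 < M := sum_pos hμ hC
  have key : ∀ b ∈ C, μ b * Real.log (f b / μ b) + μ b * Real.log (θ b) ≤
      μ b * Real.log (S / M) + (θ b * f b * (M / S) - μ b) := by
    intro b hb
    have h1 := hμ b hb
    have h2 := hf b hb
    have h3 := hθ b hb
    have h4 := Real.log_le_sub_one_of_pos
      (show 0 < (f b / μ b) * θ b / (S / M) by positivity)
    rw [Real.log_div (by positivity) (by positivity),
      Real.log_mul (by positivity) (by positivity)] at h4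
    have h5 := mul_le_mul_of_nonneg_left h4 h1.le
    have h6 : μ b * (f b / μ b * θ b / (S / M) - 1) = θ b * f b * (M / S) - μ b := by
      field_simp
    rw [h6] at h5
    linarith
  have h1 := sum_le_sum key
  rw [sum_add_distrib, sum_add_distrib, sum_sub_distrib, ← sum_mul, ← sum_mul, ← hM] at h1
  have h2 : (∑ b ∈ C, θ b * f b) * (M / S) ≤ S * (M / S) :=
    mul_le_mul_of_nonneg_right h (by positivity)
  have h3 : S * (M / S) = M := by field_simp
  linarith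

lemma jensen (C : Finset ℤ) (hC : C.Nonempty) (μ f : ℤ → ℝ) (S : ℝ)
    (hμ : ∀ b ∈ C, 0 < μ b) (hf : ∀ b ∈ C, 0 < f b) (h : ∑ b ∈ C, f b ≤ S) :
    ∑ b ∈ C, μ b * Real.log (f b / μ b) ≤ (∑ b ∈ C, μ b) * Real.log (S / ∑ b ∈ C, μ b) := by
  have := logsum C hC μ f (fun _ => 1) S (lt_of_lt_of_le (sum_pos hf hC) h) hμ hf
    (fun _ _ => one_pos) (by simpa using h)
  simpa using this

lemma gap (C Z : Finset ℤ) (hC : C.Nonempty) (hZ : Z ⊆ C) (μ f : ℤ → ℝ) (S w : ℝ)
    (hμ : ∀ b ∈ C, 0 < μ b) (hf : ∀ b ∈ C, 0 < f b) (h : ∑ b ∈ C, f b ≤ S)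
    (hw0 : 0 < w) (hw1 : w ≤ 1) (hZ1 : ∑ b ∈ C, μ b ≤ 2 * ∑ b ∈ Z, μ b)
    (hZ2 : ∑ b ∈ Z, f b ≤ w * S) :
    ∑ b ∈ C, μ b * Real.log (f b / μ b) ≤ (∑ b ∈ C, μ b) * Real.log (S / ∑ b ∈ C, μ b) +
      (∑ b ∈ C, μ b) * (Real.log 2 + Real.log w / 2) := by
  have hS : 0 < S := lt_of_lt_of_le (sum_pos hf hC) h
  have h1 := logsum C hC μ f (fun b => if b ∈ Z then 1 / (2 * w) else 1 / 2) S hS hμ hf
    (fun b _ => by split_ifs <;> positivity) (by
      rw [← sum_sdiff hZ]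
      have e1 : ∑ b ∈ C \ Z, (if b ∈ Z then 1 / (2 * w) else 1 / 2) * f b =
          1 / 2 * ∑ b ∈ C \ Z, f b := by
        rw [mul_sum]
        exact sum_congr rfl fun b hb => by rw [if_neg (mem_sdiff.1 hb).2]
      have e2 : ∑ b ∈ Z, (if b ∈ Z then 1 / (2 * w) else 1 / 2) * f b =
          1 / (2 * w) * ∑ b ∈ Z, f b := by
        rw [mul_sum]
        exact sum_congr rfl fun b hb => by rw [if_pos hb]
      rw [e1, e2]
      have h2 : ∑ b ∈ C \ Z, f b ≤ ∑ b ∈ C, f b :=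
        sum_le_sum_of_subset_of_nonneg sdiff_subset fun b hb _ => (hf b hb).le
      have h3 : 1 / (2 * w) * ∑ b ∈ Z, f b ≤ 1 / (2 * w) * (w * S) :=
        mul_le_mul_of_nonneg_left hZ2 (by positivity)
      have h4 : 1 / (2 * w) * (w * S) = S / 2 := by field_simp
      linarith)
  have e3 : ∑ b ∈ C, μ b * Real.log (if b ∈ Z then 1 / (2 * w) else 1 / 2) =
      -(∑ b ∈ C, μ b) * Real.log 2 - (∑ b ∈ Z, μ b) * Real.log w := by
    rw [← sum_sdiff hZ, ← sum_sdiff hZ]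
    have e1 : ∑ b ∈ C \ Z, μ b * Real.log (if b ∈ Z then 1 / (2 * w) else 1 / 2) =
        (∑ b ∈ C \ Z, μ b) * (-Real.log 2) := by
      rw [sum_mul]
      exact sum_congr rfl fun b hb => by rw [if_neg (mem_sdiff.1 hb).2, one_div, Real.log_inv]
    have e2 : ∑ b ∈ Z, μ b * Real.log (if b ∈ Z then 1 / (2 * w) else 1 / 2) =
        (∑ b ∈ Z, μ b) * (-(Real.log 2 + Real.log w)) := by
      rw [sum_mul]
      exact sum_congr rfl fun b hb => by
        rw [if_pos hb, one_div, Real.log_inv, Real.log_mul (by norm_num) hw0.ne']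
    rw [e1, e2]
    ring
  rw [e3] at h1
  have h5 : Real.log w ≤ 0 := Real.log_nonpos hw0.le hw1
  nlinarith

lemma gam_ge (k : ℕ) (hk : 1 ≤ k) (τ ε : ℝ) (C : Finset ℤ) (f : ℤ → ℝ) :
    1 / (8 * (k : ℝ)) ≤ gam k τ ε C f := by
  have hkR : (1 : ℝ) ≤ k := by exact_mod_cast hk
  unfold gam
  split_ifs
  · exact le_rfl
  · rw [div_le_iff₀ (by positivity)]; linarith

lemma gam_pos (k : ℕ) (hk : 1 ≤ k) (τ ε : ℝ) (C : Finset ℤ) (f : ℤ → ℝ) :
    0 < gam k τ ε C f := by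
  have hkR : (1 : ℝ) ≤ k := by exact_mod_cast hk
  exact lt_of_lt_of_le (by positivity) (gam_ge k hk τ ε C f)

lemma log_split (g S M : ℝ) (hg : 0 < g) (hS : 0 < S) (hM : 0 < M) :
    Real.log (g * S / M) = Real.log g + Real.log (S / M) := by
  rw [mul_div_assoc, Real.log_mul hg.ne' (by positivity)]

lemma node_any (k : ℕ) (hk : 1 ≤ k) (τ ε : ℝ) (C : Finset ℤ) (hC : C.Nonempty) (μ f : ℤ → ℝ)
    (hμ : ∀ b ∈ C, 0 < μ b) (hf : ∀ b ∈ C, 0 < f b) :
    ∑ b ∈ C, μ b * Real.log (f b / μ b) + (∑ b ∈ C, μ b) * Real.log (1 / (8 * (k : ℝ))) ≤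
      (∑ b ∈ C, μ b) * Real.log (gam k τ ε C f * (∑ b ∈ C, f b) / ∑ b ∈ C, μ b) := by
  have hkR : (1 : ℝ) ≤ k := by exact_mod_cast hk
  have hM := sum_pos hμ hC
  rw [log_split _ _ _ (gam_pos k hk τ ε C f) (sum_pos hf hC) hM]
  have h1 := jensen C hC μ f _ hμ hf le_rfl
  have h2 : Real.log (1 / (8 * (k : ℝ))) ≤ Real.log (gam k τ ε C f) :=
    Real.log_le_log (by positivity) (gam_ge k hk τ ε C f)
  nlinarith

/-- the mass of the node is not concentrated on a short interval of children, but it is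
concentrated on a small set of children -/
def Typ (k : ℕ) (ε : ℝ) (q : ℕ) (C : Finset ℤ) (μ : ℤ → ℝ) : Prop :=
  (∀ lo : ℤ, 2 * ∑ b ∈ C.filter (fun b => lo ≤ b ∧ b < lo + q), μ b ≤ ∑ b ∈ C, μ b) ∧
    ∃ Z ⊆ C, ∑ b ∈ C, μ b ≤ 2 * ∑ b ∈ Z, μ b ∧ (Z.card : ℝ) * (64 * k) ≤ ε * q

lemma node_typ (k : ℕ) (hk : 1 ≤ k) (τ ε : ℝ) (hτ0 : 0 < τ) (hτ : τ ≤ 1) (hε0 : 0 < ε)
    (hε : ε ≤ (1 / (32 * (k : ℝ))) ^ 2) (q : ℕ) (C : Finset ℤ) (hC : C.Nonempty)
    (μ f : ℤ → ℝ) (hμ : ∀ b ∈ C, 0 < μ b) (hf : ∀ b ∈ C, 0 < f b) (hT : Typ k ε q C μ) :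
    ∑ b ∈ C, μ b * Real.log (f b / μ b) + (∑ b ∈ C, μ b) * Real.log 2 ≤
      (∑ b ∈ C, μ b) * Real.log (gam k τ ε C f * (∑ b ∈ C, f b) / ∑ b ∈ C, μ b) := by
  have hkR : (1 : ℝ) ≤ k := by exact_mod_cast hk
  have hM := sum_pos hμ hC
  have hS := sum_pos hf hC
  rw [log_split _ _ _ (gam_pos k hk τ ε C f) hS hM]
  by_cases hB : Bad k τ ε C f
  · have hg : gam k τ ε C f = 1 / (8 * (k : ℝ)) := by
      unfold gam; rw [if_neg (not_not.2 hB)]
    rw [hg]
    obtain ⟨b0, hb0, hmax, hlow, hnar⟩ := hB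
    have hf0 := hf b0 hb0
    have hZ : ∃ Z ⊆ C, ∑ b ∈ C, μ b ≤ 2 * ∑ b ∈ Z, μ b ∧ ∑ b ∈ Z, f b ≤ ε * ∑ b ∈ C, f b := by
      by_cases hq : 64 * k * ∑ c ∈ C, f c ≤ q * f b0
      · have hne : (C.filter (fun b => τ ^ 2 * f b0 ≤ f b)).Nonempty := by
          refine ⟨b0, mem_filter.2 ⟨hb0, ?_⟩⟩
          have : τ ^ 2 ≤ 1 := pow_le_one₀ hτ0.le hτ
          nlinarith
        set lo := (C.filter (fun b => τ ^ 2 * f b0 ≤ f b)).min' hne with hlo
        have hlom := mem_filter.1 (min'_mem _ hne)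
        refine ⟨C.filter (fun b => ¬ (lo ≤ b ∧ b < lo + q)), filter_subset _ _, ?_, ?_⟩
        · have h1 := sum_filter_add_sum_filter_not C (fun b => lo ≤ b ∧ b < lo + q) μ
          have h2 := hT.1 lo
          linarith
        · refine le_trans (sum_le_sum_of_subset_of_nonneg ?_
            (fun b hb _ => (hf b (mem_filter.1 hb).1).le)) hlow
          intro b hb
          obtain ⟨h1, h2⟩ := mem_filter.1 hb
          refine mem_filter.2 ⟨h1, ?_⟩
          by_contra h3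
          push Not at h3
          apply h2
          refine ⟨min'_le _ _ (mem_filter.2 ⟨h1, h3⟩), ?_⟩
          have h4 := hnar b h1 lo hlom.1 h3 hlom.2
          have h5 : (b : ℝ) - lo < q := lt_of_mul_lt_mul_right (lt_of_lt_of_le h4 hq) hf0.le
          have h6 : (b : ℝ) < lo + q := by linarith
          exact_mod_cast h6
      · push Not at hq
        obtain ⟨Z, hZ, h1, h2⟩ := hT.2
        refine ⟨Z, hZ, h1, ?_⟩
        have h3 : ∑ b ∈ Z, f b ≤ Z.card * f b0 := by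
          have := sum_le_card_nsmul Z f (f b0) (fun b hb => hmax b (hZ hb))
          simpa using this
        have h4 : (Z.card : ℝ) * (64 * k) * f b0 ≤ ε * q * f b0 :=
          mul_le_mul_of_nonneg_right h2 hf0.le
        have h5 : ε * (q * f b0) ≤ ε * (64 * k * ∑ c ∈ C, f c) :=
          mul_le_mul_of_nonneg_left hq.le hε0.le
        have h6 : (64 * (k : ℝ)) * (Z.card * f b0) ≤ (64 * k) * (ε * ∑ c ∈ C, f c) := by
          nlinarith
        exact h3.trans (le_of_mul_le_mul_left h6 (by positivity))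
    obtain ⟨Z, hZ, h1, h2⟩ := hZ
    have hε1 : ε ≤ 1 := by
      refine hε.trans (pow_le_one₀ (by positivity) ?_)
      rw [div_le_one (by positivity)]; linarith
    have h3 := gap C Z hC hZ μ f _ ε hμ hf le_rfl hε0 hε1 h1 h2
    have h4 : Real.log ε ≤ 2 * (Real.log (1 / (8 * (k : ℝ))) - 2 * Real.log 2) := by
      refine (Real.log_le_log hε0 hε).trans (le_of_eq ?_)
      have e : (1 : ℝ) / (32 * k) = 1 / (8 * k) / 2 ^ 2 := by field_simp; ring
      rw [Real.log_pow, e, Real.log_div (by positivity) (by positivity), Real.log_pow]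
      push_cast; ring
    nlinarith
  · have hg : gam k τ ε C f = 2 := by
      unfold gam; rw [if_pos hB]
    rw [hg]
    have h1 := jensen C hC μ f _ hμ hf le_rfl
    linarith

/-- the points of `A` in the cell number `a` of length `t` -/
def atom (A : Finset ℤ) (t a : ℤ) : Finset ℤ := A.filter (fun x => x / t = a)

/-- the occupied cells of length `t` -/
def occ (A : Finset ℤ) (t : ℤ) : Finset ℤ := A.image (fun x => x / t)

/-- mass of a cell -/
noncomputable def mu (A : Finset ℤ) (t a : ℤ) : ℝ := (atom A t a).card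

/-- the occupied cells of length `t` inside the cell number `a` of length `t * Q` -/
def kids (A : Finset ℤ) (t Q a : ℤ) : Finset ℤ := (occ A t).filter (fun b => b / Q = a)

lemma mu_nonneg (A : Finset ℤ) (t a : ℤ) : 0 ≤ mu A t a := Nat.cast_nonneg _

lemma mu_pos {A : Finset ℤ} {t a : ℤ} (h : a ∈ occ A t) : 0 < mu A t a := by
  obtain ⟨x, hx, rfl⟩ := mem_image.1 h
  have : (atom A t (x / t)).Nonempty := ⟨x, mem_filter.2 ⟨hx, rfl⟩⟩
  unfold mu
  exact_mod_cast this.card_pos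

lemma sum_mu (A : Finset ℤ) (t : ℤ) : ∑ a ∈ occ A t, mu A t a = A.card := by
  unfold mu atom occ
  rw [card_eq_sum_card_image (fun x => x / t) A]
  push_cast
  rfl

lemma div_div (x t Q : ℤ) (ht : 0 < t) : x / t / Q = x / (t * Q) :=
  Int.ediv_ediv_of_nonneg ht.le

lemma kid_mem {A : Finset ℤ} {t Q b : ℤ} (ht : 0 < t) (h : b ∈ occ A t) :
    b / Q ∈ occ A (t * Q) := by
  obtain ⟨x, hx, rfl⟩ := mem_image.1 h
  exact mem_image.2 ⟨x, hx, (div_div x t Q ht).symm⟩

lemma kids_nonempty {A : Finset ℤ} {t Q a : ℤ} (ht : 0 < t) (h : a ∈ occ A (t * Q)) :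
    (kids A t Q a).Nonempty := by
  obtain ⟨x, hx, rfl⟩ := mem_image.1 h
  exact ⟨x / t, mem_filter.2 ⟨mem_image.2 ⟨x, hx, rfl⟩, div_div x t Q ht⟩⟩

lemma sum_kids (A : Finset ℤ) {t : ℤ} (Q : ℤ) (ht : 0 < t) (F : ℤ → ℝ) :
    ∑ a ∈ occ A (t * Q), ∑ b ∈ kids A t Q a, F b = ∑ b ∈ occ A t, F b :=
  sum_fiberwise_of_maps_to (fun _ hb => kid_mem ht hb) F

/-- mass of a set of cells -/
lemma sum_mu_filter (A : Finset ℤ) (t : ℤ) (p : ℤ → Prop) [DecidablePred p] :
    ∑ b ∈ (occ A t).filter p, mu A t b = (A.filter (fun x => p (x / t))).card := by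
  have h1 := card_eq_sum_card_fiberwise (s := A.filter (fun x => p (x / t)))
    (t := (occ A t).filter p) (f := fun x => x / t) (by
      intro x hx
      obtain ⟨h1, h2⟩ := mem_filter.1 (mem_coe.1 hx)
      exact mem_coe.2 (mem_filter.2 ⟨mem_image.2 ⟨x, h1, rfl⟩, h2⟩))
  rw [h1]
  push_cast
  refine sum_congr rfl fun b hb => ?_
  unfold mu atom
  congr 2
  ext x
  simp only [mem_filter]
  constructor
  · rintro ⟨h2, h3⟩
    exact ⟨⟨h2, by rw [h3]; exact (mem_filter.1 hb).2⟩, h3⟩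
  · rintro ⟨⟨h2, _⟩, h3⟩
    exact ⟨h2, h3⟩

lemma mu_kids (A : Finset ℤ) {t : ℤ} (Q a : ℤ) (ht : 0 < t) :
    ∑ b ∈ kids A t Q a, mu A t b = mu A (t * Q) a := by
  unfold kids
  rw [sum_mu_filter]
  unfold mu atom
  simp only [div_div _ t Q ht]

/-- state of the induction at the scale `t` with the logarithmic gain `g` -/
def St (k : ℕ) (A : Finset ℤ) (t : ℤ) (g : ℝ) : Prop :=
  ∃ Φ : ℤ → ℝ, (∀ a ∈ occ A t, 0 < Φ a) ∧
    (∀ a : ℕ → ℤ, (∀ i < k, a i ∈ occ A t) →
      ∏ i ∈ range k, Φ (a i) ≤ ((∑ i ∈ range k, atom A t (a i)).card : ℝ) ^ k) ∧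
    g * A.card ≤ ∑ a ∈ occ A t, mu A t a * Real.log (Φ a / mu A t a)

lemma St.mono {k : ℕ} {A : Finset ℤ} {t : ℤ} {g g' : ℝ} (h : St k A t g) (hg : g' ≤ g) :
    St k A t g' := by
  obtain ⟨Φ, h1, h2, h3⟩ := h
  exact ⟨Φ, h1, h2, (mul_le_mul_of_nonneg_right hg (Nat.cast_nonneg _)).trans h3⟩

lemma st_base (k : ℕ) (A : Finset ℤ) : St k A 1 0 := by
  refine ⟨fun _ => 1, fun _ _ => one_pos, fun a ha => ?_, ?_⟩
  · rw [prod_const_one]
    refine one_le_pow₀ ?_
    have : (∑ i ∈ range k, atom A 1 (a i)).Nonempty := by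
      refine ⟨∑ i ∈ range k, a i, (mem_sum_iff _ _ _).2 ⟨a, fun i hi => ?_, rfl⟩⟩
      obtain ⟨x, hx, hx'⟩ := mem_image.1 (ha i (mem_range.1 hi))
      rw [Int.ediv_one] at hx'
      exact mem_filter.2 ⟨hx' ▸ hx, Int.ediv_one _⟩
    exact_mod_cast this.card_pos
  · rw [zero_mul]
    refine sum_nonneg fun a ha => ?_
    have h1 : (atom A 1 a).card ≤ 1 := by
      refine card_le_one.2 fun x hx y hy => ?_
      have h2 := (mem_filter.1 hx).2
      have h3 := (mem_filter.1 hy).2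
      rw [Int.ediv_one] at h2 h3
      rw [h2, h3]
    have h2 : mu A 1 a ≤ 1 := by unfold mu; exact_mod_cast h1
    have h3 := mu_pos ha
    exact mul_nonneg h3.le (Real.log_nonneg ((one_le_div h3).2 h2))

lemma window_count (S W : Finset ℤ) (t : ℤ) (k : ℕ) :
    ∑ w ∈ W, ((S.filter (fun x => w - k ≤ x / t ∧ x / t < w + k)).card : ℝ) ≤ 2 * k * S.card := by
  have h1 : ∑ w ∈ W, (S.filter (fun x => w - k ≤ x / t ∧ x / t < w + k)).card ≤
      S.card * (2 * k) := by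
    simp only [card_filter]
    rw [sum_comm, ← smul_eq_mul]
    refine sum_le_card_nsmul _ _ _ fun x _ => ?_
    rw [← card_filter]
    have : W.filter (fun w => w - k ≤ x / t ∧ x / t < w + k) ⊆ Ioc (x / t - k) (x / t + k) := by
      intro w hw
      have := (mem_filter.1 hw).2
      rw [mem_Ioc]; omega
    refine (card_le_card this).trans ?_
    rw [Int.card_Ioc]
    omega
  have h2 : ((∑ w ∈ W, (S.filter (fun x => w - k ≤ x / t ∧ x / t < w + k)).card : ℕ) : ℝ) ≤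
      ((S.card * (2 * k) : ℕ) : ℝ) := by exact_mod_cast h1
  push_cast at h2
  linarith

lemma sum_window {A : Finset ℤ} {t Q : ℤ} (ht : 0 < t) {k : ℕ} (hk : 1 ≤ k) (a b : ℕ → ℤ)
    (hb : ∀ i < k, b i / Q = a i) (u : ℤ) (hu0 : 0 ≤ u) (hu1 : u ≤ k) :
    ∑ i ∈ range k, atom A t (b i) ⊆ (∑ i ∈ range k, atom A (t * Q) (a i)).filter
      (fun x => (∑ i ∈ range k, b i + u) - k ≤ x / t ∧ x / t < (∑ i ∈ range k, b i + u) + k) := by
  intro x hx
  obtain ⟨g, hg, rfl⟩ := (mem_sum_iff _ _ _).1 hx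
  have h1 : ∀ i ∈ range k, b i * t ≤ g i ∧ g i < (b i + 1) * t := by
    intro i hi
    have h2 := (mem_filter.1 (hg i hi)).2
    rw [← h2]
    exact ⟨Int.ediv_mul_le _ ht.ne', Int.lt_ediv_add_one_mul_self _ ht⟩
  refine mem_filter.2 ⟨(mem_sum_iff _ _ _).2 ⟨g, fun i hi => ?_, rfl⟩, ?_, ?_⟩
  · obtain ⟨h2, h3⟩ := mem_filter.1 (hg i hi)
    refine mem_filter.2 ⟨h2, ?_⟩
    rw [← div_div _ t Q ht, h3, hb i (mem_range.1 hi)]
  · have h2 : (∑ i ∈ range k, b i) * t ≤ ∑ i ∈ range k, g i := by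
      rw [sum_mul]; exact sum_le_sum fun i hi => (h1 i hi).1
    have h3 := (Int.le_ediv_iff_mul_le ht).2 h2
    omega
  · have h2 : ∑ i ∈ range k, g i < (∑ i ∈ range k, b i + k) * t := by
      have h3 := sum_lt_sum_of_nonempty (s := range k) ⟨0, mem_range.2 hk⟩ fun i hi => (h1 i hi).2
      rw [← sum_mul, sum_add_distrib] at h3
      simpa using h3
    have h3 := (Int.ediv_lt_iff_lt_mul ht).2 h2
    omega

lemma st_step {k j h : ℕ} {τ ε : ℝ} (P : Par k j h τ ε) (hε : ε ≤ (1 / (32 * (k : ℝ))) ^ 2)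
    {A : Finset ℤ} {t : ℤ} (ht : 0 < t) (Q : ℤ) {g : ℝ} (hS : St k A t g) (q : ℕ) (η : ℝ)
    (T : Finset ℤ) (hT : T ⊆ occ A (t * Q)) (hTy : ∀ a ∈ T, Typ k ε q (kids A t Q a) (mu A t))
    (hη : ∑ a ∈ occ A (t * Q) \ T, mu A (t * Q) a ≤ η * A.card) :
    St k A (t * Q) (g + ((1 - η) * Real.log 2 + η * Real.log (1 / (8 * (k : ℝ))))) := by
  obtain ⟨Φ, h1, h2, h3⟩ := hS
  have hk : 1 ≤ k := by have := P.hk; omega
  have hkR : (1 : ℝ) ≤ k := by exact_mod_cast hk
  have hτ := P.hτ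
  have hε0 : 0 < ε := lt_of_lt_of_le (by positivity) P.hε
  have hΦ : ∀ a, ∀ b ∈ kids A t Q a, 0 < Φ b := fun a b hb => h1 b (mem_filter.1 hb).1
  have hμ : ∀ a, ∀ b ∈ kids A t Q a, 0 < mu A t b := fun a b hb => mu_pos (mem_filter.1 hb).1
  refine ⟨fun a => gam k τ ε (kids A t Q a) Φ * ∑ b ∈ kids A t Q a, Φ b, fun a ha => ?_,
    fun a ha => ?_, ?_⟩
  · exact mul_pos (gam_pos k hk _ _ _ _) (sum_pos (hΦ a) (kids_nonempty ht ha))
  · refine step P (fun i => kids A t Q (a i)) Φ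
      (fun w => (((∑ i ∈ range k, atom A (t * Q) (a i)).filter
        (fun x => w - k ≤ x / t ∧ x / t < w + k)).card : ℝ)) _
      (fun i hi => kids_nonempty ht (ha i hi)) (fun i _ => hΦ (a i))
      (fun w => Nat.cast_nonneg _) (fun W => window_count _ W t k) ?_
    intro b hb u hu0 hu1
    refine (h2 b fun i hi => (mem_filter.1 (hb i hi)).1).trans ?_
    refine pow_le_pow_left₀ (Nat.cast_nonneg _) ?_ _
    exact_mod_cast card_le_card
      (sum_window ht hk a b (fun i hi => (mem_filter.1 (hb i hi)).2) u hu0 hu1)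
  · rw [← sum_kids A Q ht] at h3
    have hA := sum_mu A (t * Q)
    rw [← sum_sdiff hT] at h3 hA ⊢
    have h4 : ∑ a ∈ T, ∑ b ∈ kids A t Q a, mu A t b * Real.log (Φ b / mu A t b) +
        (∑ a ∈ T, mu A (t * Q) a) * Real.log 2 ≤ ∑ a ∈ T, mu A (t * Q) a *
        Real.log ((gam k τ ε (kids A t Q a) Φ * ∑ b ∈ kids A t Q a, Φ b) / mu A (t * Q) a) := by
      rw [sum_mul, ← sum_add_distrib]
      refine sum_le_sum fun a ha => ?_
      have := node_typ k hk τ ε hτ P.hτ1 hε0 hε q _ (kids_nonempty ht (hT ha)) _ _ (hμ a) (hΦ a)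
        (hTy a ha)
      rwa [mu_kids A Q a ht] at this
    have h5 : ∑ a ∈ occ A (t * Q) \ T, ∑ b ∈ kids A t Q a, mu A t b * Real.log (Φ b / mu A t b) +
        (∑ a ∈ occ A (t * Q) \ T, mu A (t * Q) a) * Real.log (1 / (8 * (k : ℝ))) ≤
        ∑ a ∈ occ A (t * Q) \ T, mu A (t * Q) a *
        Real.log ((gam k τ ε (kids A t Q a) Φ * ∑ b ∈ kids A t Q a, Φ b) / mu A (t * Q) a) := by
      rw [sum_mul, ← sum_add_distrib]
      refine sum_le_sum fun a ha => ?_
      have := node_any k hk τ ε _ (kids_nonempty ht (mem_sdiff.1 ha).1) _ _ (hμ a) (hΦ a)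
      rwa [mu_kids A Q a ht] at this
    have h6 : Real.log (1 / (8 * (k : ℝ))) ≤ Real.log 2 := by
      refine Real.log_le_log (by positivity) ?_
      rw [div_le_iff₀ (by positivity)]; linarith
    have h7 := mul_le_mul_of_nonneg_right hη (sub_nonneg.2 h6)
    have h8 : ∑ a ∈ T, mu A (t * Q) a = A.card - ∑ a ∈ occ A (t * Q) \ T, mu A (t * Q) a := by
      linarith
    rw [h8] at h4
    nlinarith

lemma st_weak {k j h : ℕ} {τ ε : ℝ} (P : Par k j h τ ε) (hε : ε ≤ (1 / (32 * (k : ℝ))) ^ 2)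
    {A : Finset ℤ} {t : ℤ} (ht : 0 < t) (Q : ℤ) {g : ℝ} (hS : St k A t g) :
    St k A (t * Q) (g + Real.log (1 / (8 * (k : ℝ)))) := by
  have := st_step P hε ht Q hS 0 1 ∅ (empty_subset _) (by simp) (by simp [sum_mu])
  simpa using this

lemma st_final {k : ℕ} (hk : k ≠ 0) {A : Finset ℤ} (hA : A.Nonempty) {t : ℤ}
    (ht : ∀ x ∈ A, 0 ≤ x ∧ x < t) {g : ℝ} (hS : St k A t g) :
    Real.exp g * A.card ≤ (k • A).card := by
  obtain ⟨Φ, h1, h2, h3⟩ := hS
  have h0 : ∀ x ∈ A, x / t = 0 := fun x hx => Int.ediv_eq_zero_of_lt (ht x hx).1 (ht x hx).2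
  have ho : occ A t = {0} := by
    ext a
    rw [mem_singleton]
    constructor
    · intro ha
      obtain ⟨x, hx, rfl⟩ := mem_image.1 ha
      exact h0 x hx
    · rintro rfl
      obtain ⟨x, hx⟩ := hA
      exact mem_image.2 ⟨x, hx, h0 x hx⟩
  have ha : atom A t 0 = A := filter_true_of_mem h0
  have hc : (0 : ℝ) < A.card := by exact_mod_cast hA.card_pos
  have h4 := h2 (fun _ => 0) (fun _ _ => by rw [ho]; simp)
  rw [ha, prod_const, sum_const, card_range] at h4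
  have h5 := le_of_pow_le_pow_left₀ hk (Nat.cast_nonneg _) h4
  rw [ho, sum_singleton] at h3
  unfold mu at h3
  rw [ha, mul_comm] at h3
  have h6 := le_of_mul_le_mul_left h3 hc
  have h7 := h1 0 (by rw [ho]; simp)
  have h8 := (Real.le_log_iff_exp_le (by positivity)).1 h6
  rw [le_div_iff₀ hc] at h8
  linarith

/-- the two counting hypotheses and the doubling bound -/
structure Hyp (A : Finset ℤ) (e κ : ℕ) : Prop where
  ne : A.Nonempty
  rg : ∀ x ∈ A, 0 ≤ x ∧ x < 2 ^ e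
  up : ∀ i : ℕ, 1 ≤ i → ∀ a : ℤ, mu A (2 ^ i) a * i ≤ 12 * 2 ^ i
  low : ∀ i : ℕ, 1 ≤ i → i ≤ e → (2 : ℝ) ^ i ≤ 14 * i * mu A (2 ^ i) 0
  dbl : ((A + A).card : ℝ) ≤ 2 ^ κ * A.card

lemma occ_mul (A : Finset ℤ) {t : ℤ} (ht : 0 < t) :
    ((occ A t).card : ℝ) * mu A t 0 ≤ 2 * (A + A).card := by
  have h1 := window_count (A + A) ((occ A t).image (fun a => a + 1)) t 1
  rw [sum_image (fun a _ b _ hab => add_right_cancel hab)] at h1
  have h2 : ∀ a ∈ occ A t, mu A t 0 ≤ (((A + A).filter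
      (fun x => a + 1 - ((1 : ℕ) : ℤ) ≤ x / t ∧ x / t < a + 1 + ((1 : ℕ) : ℤ))).card : ℝ) := by
    intro a ha
    obtain ⟨x, hx, rfl⟩ := mem_image.1 ha
    unfold mu
    refine Nat.cast_le.2 (card_le_card_of_injOn (fun y => x + y) ?_
      (fun y _ y' _ h => add_left_cancel h))
    intro y hy
    obtain ⟨h3, h4⟩ := mem_filter.1 (mem_coe.1 hy)
    have h5 := Int.ediv_mul_le y ht.ne'
    have h6 := Int.lt_ediv_add_one_mul_self y ht
    rw [h4] at h5 h6
    have h7 := Int.ediv_mul_le x ht.ne'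
    have h8 := Int.lt_ediv_add_one_mul_self x ht
    refine mem_coe.2 (mem_filter.2 ⟨add_mem_add hx h3, ?_, ?_⟩)
    · have := (Int.le_ediv_iff_mul_le ht).2 (show x / t * t ≤ x + y by linarith)
      push_cast
      linarith
    · have := (Int.ediv_lt_iff_lt_mul ht).2 (show x + y < (x / t + 2) * t by linarith)
      push_cast
      linarith
  have h3 := card_nsmul_le_sum _ _ _ h2
  rw [nsmul_eq_mul] at h3
  push_cast at h1 h3
  linarith

lemma Hyp.occ_le {A : Finset ℤ} {e κ : ℕ} (H : Hyp A e κ) {i : ℕ} (h1 : 1 ≤ i) (h2 : i ≤ e) :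
    ((occ A (2 ^ i)).card : ℝ) * 2 ^ i ≤ 28 * 2 ^ κ * i * A.card := by
  have h3 := occ_mul A (show (0 : ℤ) < 2 ^ i by positivity)
  have h4 := mul_le_mul_of_nonneg_left (H.low i h1 h2)
    (Nat.cast_nonneg (α := ℝ) (occ A (2 ^ i)).card)
  have h5 := H.dbl
  have h6 : (0 : ℝ) ≤ 14 * i := by positivity
  have h7 := mul_le_mul_of_nonneg_left (h3.trans (mul_le_mul_of_nonneg_left h5 (by norm_num))) h6
  nlinarith

/-- entropy of the mass at the scale `2 ^ i` -/
noncomputable def Xi (A : Finset ℤ) (i : ℕ) : ℝ :=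
  ∑ a ∈ occ A (2 ^ i), mu A (2 ^ i) a * Real.log (2 ^ i / mu A (2 ^ i) a)

lemma Hyp.xi_low {A : Finset ℤ} {e κ : ℕ} (H : Hyp A e κ) {i : ℕ} (h1 : 1 ≤ i) :
    A.card * Real.log (i / 12) ≤ Xi A i := by
  unfold Xi
  rw [← sum_mu A (2 ^ i), sum_mul]
  refine sum_le_sum fun a ha => mul_le_mul_of_nonneg_left ?_ (mu_nonneg _ _ _)
  have h2 : (0 : ℝ) < i := by exact_mod_cast h1
  refine Real.log_le_log (by positivity) ?_
  rw [div_le_div_iff₀ (by norm_num) (mu_pos ha)]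
  have := H.up i h1 a
  linarith

lemma Hyp.xi_up {A : Finset ℤ} {e κ : ℕ} (H : Hyp A e κ) {i : ℕ} (h1 : 1 ≤ i) (h2 : i ≤ e) :
    Xi A i ≤ A.card * Real.log (28 * 2 ^ κ * i) := by
  have hc : (0 : ℝ) < A.card := by exact_mod_cast H.ne.card_pos
  have := jensen (occ A (2 ^ i)) (H.ne.image _) (mu A (2 ^ i)) (fun _ => (2 : ℝ) ^ i)
    (28 * 2 ^ κ * i * A.card) (fun _ ha => mu_pos ha) (fun _ _ => by positivity)
    (by simpa using H.occ_le h1 h2)
  rw [sum_mu, mul_div_assoc, div_self hc.ne', mul_one] at this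
  exact this

/-- more than half of the mass of the cell sits in two adjacent subcells -/
def Conc (A : Finset ℤ) (t a : ℤ) : Prop :=
  ∃ z : ℤ, mu A (t * 32) a <
    2 * ∑ b ∈ (kids A t 32 a).filter (fun b => z ≤ b ∧ b ≤ z + 1), mu A t b

lemma kids_card (A : Finset ℤ) (t a : ℤ) : (kids A t 32 a).card ≤ 32 := by
  have : kids A t 32 a ⊆ Ico (32 * a) (32 * a + 32) := by
    intro b hb
    have := (mem_filter.1 hb).2
    rw [mem_Ico]; omega
  refine (card_le_card this).trans ?_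
  rw [Int.card_Ico]; omega

open Classical in
lemma xi_step (A : Finset ℤ) (i : ℕ) :
    Xi A i + Real.log 2 * ∑ a ∈ (occ A (2 ^ i * 32)).filter (fun a => Conc A (2 ^ i) a),
      mu A (2 ^ i * 32) a ≤ Xi A (i + 5) := by
  have ht : (0 : ℤ) < 2 ^ i := by positivity
  have e1 : (2 : ℤ) ^ (i + 5) = 2 ^ i * 32 := by rw [pow_add]; norm_num
  have e2 : (2 : ℝ) ^ (i + 5) = 32 * 2 ^ i := by rw [pow_add]; ring
  unfold Xi
  rw [e1, e2, ← sum_kids A 32 ht, sum_filter, mul_sum, ← sum_add_distrib]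
  refine sum_le_sum fun a ha => ?_
  have hμ : ∀ b ∈ kids A (2 ^ i) 32 a, 0 < mu A (2 ^ i) b := fun b hb => mu_pos (mem_filter.1 hb).1
  have hS : ∑ _b ∈ kids A (2 ^ i) 32 a, (2 : ℝ) ^ i ≤ 32 * 2 ^ i := by
    rw [sum_const, nsmul_eq_mul]
    exact mul_le_mul_of_nonneg_right (by exact_mod_cast kids_card A _ a) (by positivity)
  split_ifs with hc
  · obtain ⟨z, hz⟩ := hc
    have h1 := gap _ ((kids A (2 ^ i) 32 a).filter (fun b => z ≤ b ∧ b ≤ z + 1))
      (kids_nonempty ht ha) (filter_subset _ _) (mu A (2 ^ i)) (fun _ => (2 : ℝ) ^ i) (32 * 2 ^ i)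
      (1 / 16) hμ (fun _ _ => by positivity) hS (by norm_num) (by norm_num)
      (by rw [mu_kids A 32 a ht]; exact hz.le) (by
        have h2 : (kids A (2 ^ i) 32 a).filter (fun b => z ≤ b ∧ b ≤ z + 1) ⊆ Icc z (z + 1) :=
          fun b hb => mem_Icc.2 (mem_filter.1 hb).2
        have h3 := card_le_card h2
        rw [Int.card_Icc] at h3
        have h4 : (((kids A (2 ^ i) 32 a).filter (fun b => z ≤ b ∧ b ≤ z + 1)).card : ℝ) ≤ 2 := by
          exact_mod_cast (by omega :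
            ((kids A (2 ^ i) 32 a).filter (fun b => z ≤ b ∧ b ≤ z + 1)).card ≤ 2)
        rw [sum_const, nsmul_eq_mul]
        have h5 : (0 : ℝ) < 2 ^ i := by positivity
        nlinarith)
    rw [mu_kids A 32 a ht] at h1
    have h2 : Real.log (1 / 16) = -4 * Real.log 2 := by
      rw [one_div, Real.log_inv, show (16 : ℝ) = 2 ^ 4 by norm_num, Real.log_pow]
      push_cast; ring
    rw [h2] at h1
    linarith
  · have h1 := jensen _ (kids_nonempty ht ha) (mu A (2 ^ i)) (fun _ => (2 : ℝ) ^ i) (32 * 2 ^ i)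
      hμ (fun _ _ => by positivity) hS
    rw [mu_kids A 32 a ht] at h1
    linarith

open Classical in
lemma Hyp.good_scale {A : Finset ℤ} {e κ : ℕ} (H : Hyp A e κ) {E : ℕ}
    (h1 : 2560 * (κ + 10) + 5 ≤ E) (h2 : 2 * E ≤ e) :
    ∃ i, E ≤ i ∧ i + 5 ≤ 2 * E ∧
      ∑ a ∈ (occ A (2 ^ i * 32)).filter (fun a => Conc A (2 ^ i) a), mu A (2 ^ i * 32) a ≤
        A.card / 512 := by
  by_contra hc
  push Not at hc
  have hc0 : (0 : ℝ) < A.card := by exact_mod_cast H.ne.card_pos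
  have hl : 0 < Real.log 2 := Real.log_pos (by norm_num)
  have key : ∀ r : ℕ, 5 * r ≤ E → Xi A E + r * (Real.log 2 * (A.card / 512)) ≤ Xi A (E + 5 * r) := by
    intro r
    induction r with
    | zero => simp
    | succ r ih =>
      intro hr
      have h3 := ih (by omega)
      have h4 := xi_step A (E + 5 * r)
      have h5 := hc (E + 5 * r) (by omega) (by omega)
      have h6 := mul_le_mul_of_nonneg_left h5.le hl.le
      have e : E + 5 * (r + 1) = E + 5 * r + 5 := by ring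
      rw [e]
      push_cast
      linarith
  obtain ⟨r, hr⟩ : ∃ r : ℕ, r = 512 * (κ + 10) + 1 := ⟨_, rfl⟩
  have hrR : (r : ℝ) = 512 * (κ + 10) + 1 := by rw [hr]; push_cast; ring
  have hr1 : 5 * r ≤ E := by omega
  have h3 := key r hr1
  have h4 := H.xi_low (i := E) (by omega)
  have h5 := H.xi_up (i := E + 5 * r) (by omega) (by omega)
  have hE : (0 : ℝ) < E := by exact_mod_cast (by omega : 0 < E)
  have h6 : Real.log (28 * 2 ^ κ * ((E + 5 * r : ℕ) : ℝ)) ≤
      Real.log (E / 12) + (κ + 10) * Real.log 2 := by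
    have h7 : ((E + 5 * r : ℕ) : ℝ) ≤ 2 * E := by
      exact_mod_cast (by omega : E + 5 * r ≤ 2 * E)
    have h7' : (0 : ℝ) < ((E + 5 * r : ℕ) : ℝ) := by
      exact_mod_cast (by omega : 0 < E + 5 * r)
    have h8 : ((κ : ℝ) + 10) * Real.log 2 = Real.log (2 ^ (κ + 10)) := by
      rw [Real.log_pow]; push_cast; ring
    rw [h8, ← Real.log_mul (by positivity) (by positivity)]
    refine Real.log_le_log (by positivity) ?_
    rw [pow_add]
    have h9 : (0 : ℝ) < 2 ^ κ := by positivity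
    have h10 := mul_le_mul_of_nonneg_left h7 (show (0 : ℝ) ≤ 28 * 2 ^ κ by positivity)
    have h11 : (0 : ℝ) < 2 ^ κ * E := by positivity
    nlinarith
  have h7 := mul_le_mul_of_nonneg_left h6 hc0.le
  have h8 : (0 : ℝ) < Real.log 2 * A.card := by positivity
  rw [hrR] at h3
  nlinarith

lemma spread_of {A : Finset ℤ} {t : ℤ} (ht : 0 < t) {q : ℕ} (hq : 0 < q) {a : ℤ}
    (h : ¬ Conc A (t * q) a) (lo : ℤ) :
    2 * ∑ b ∈ (kids A t (q * 32) a).filter (fun b => lo ≤ b ∧ b < lo + q), mu A t b ≤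
      mu A (t * (q * 32)) a := by
  have hq' : (0 : ℤ) < q := by exact_mod_cast hq
  unfold Conc at h
  push Not at h
  have h1 := h (lo / q)
  rw [mul_assoc] at h1
  refine le_trans (mul_le_mul_of_nonneg_left ?_ (by norm_num)) h1
  unfold kids
  rw [filter_filter, filter_filter, sum_mu_filter, sum_mu_filter]
  refine Nat.cast_le.2 (card_le_card fun x hx => ?_)
  obtain ⟨h2, h3, h4, h5⟩ := mem_filter.1 hx
  refine mem_filter.2 ⟨h2, ?_, ?_, ?_⟩
  · rw [← div_div x t q ht, div_div _ _ _ hq', h3]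
  · rw [← div_div x t q ht]; exact Int.ediv_le_ediv hq' h4
  · rw [← div_div x t q ht]
    have h6 := Int.ediv_le_ediv hq' h5.le
    have h7 : (lo + q) / (q : ℤ) = lo / q + 1 := by
      have := Int.add_mul_ediv_right lo 1 hq'.ne'
      rwa [one_mul] at this
    rwa [h7] at h6

open Classical in
lemma Hyp.typical {A : Finset ℤ} {e κ : ℕ} (H : Hyp A e κ) (k : ℕ) (ε : ℝ) {p d : ℕ}
    (hp : 1 ≤ p) (hpe : p ≤ e) (hk : 1 ≤ k)
    (hrat : 2 ^ 30 * k * 2 ^ κ * p ≤ ε * ((p + d + 5 : ℕ) : ℝ))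
    (hconc : ∑ a ∈ (occ A (2 ^ (p + d) * 32)).filter (fun a => Conc A (2 ^ (p + d)) a),
      mu A (2 ^ (p + d) * 32) a ≤ A.card / 512) :
    ∃ T ⊆ occ A (2 ^ p * (((2 ^ d : ℕ) : ℤ) * 32)),
      (∀ a ∈ T, Typ k ε (2 ^ d) (kids A (2 ^ p) (((2 ^ d : ℕ) : ℤ) * 32) a) (mu A (2 ^ p))) ∧
      ∑ a ∈ occ A (2 ^ p * (((2 ^ d : ℕ) : ℤ) * 32)) \ T,
        mu A (2 ^ p * (((2 ^ d : ℕ) : ℤ) * 32)) a ≤ 1 / 256 * A.card := by
  have ht : (0 : ℤ) < 2 ^ p := by positivity
  have e1 : (2 : ℤ) ^ (p + d) = 2 ^ p * ((2 ^ d : ℕ) : ℤ) := by rw [pow_add]; push_cast; ring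
  have e2 : (2 : ℤ) ^ p * (((2 ^ d : ℕ) : ℤ) * 32) = 2 ^ (p + d + 5) := by
    rw [pow_add, pow_add]; push_cast; ring
  rw [e1, mul_assoc] at hconc
  set Q : ℤ := ((2 ^ d : ℕ) : ℤ) * 32 with hQ
  have hpR : (0 : ℝ) < p := by exact_mod_cast hp
  have hkR : (0 : ℝ) < k := by exact_mod_cast hk
  set l0 : ℝ := 2 ^ p / (1024 * (28 * 2 ^ κ * p)) with hl0
  have hl0p : 0 < l0 := by positivity
  refine ⟨(occ A (2 ^ p * Q)).filter (fun a => ¬ Conc A (2 ^ p * ((2 ^ d : ℕ) : ℤ)) a ∧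
    mu A (2 ^ p * Q) a ≤ 2 * ∑ b ∈ (kids A (2 ^ p) Q a).filter (fun b => l0 ≤ mu A (2 ^ p) b),
      mu A (2 ^ p) b), filter_subset _ _, fun a ha => ?_, ?_⟩
  · obtain ⟨_, h2, h3⟩ := mem_filter.1 ha
    refine ⟨fun lo => ?_, (kids A (2 ^ p) Q a).filter (fun b => l0 ≤ mu A (2 ^ p) b),
      filter_subset _ _, ?_, ?_⟩
    · rw [mu_kids A Q a ht]
      exact spread_of ht (by positivity) h2 lo
    · rw [mu_kids A Q a ht]; exact h3
    · have h4 := card_nsmul_le_sum ((kids A (2 ^ p) Q a).filter (fun b => l0 ≤ mu A (2 ^ p) b))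
        (mu A (2 ^ p)) l0 (fun b hb => (mem_filter.1 hb).2)
      rw [nsmul_eq_mul] at h4
      have h5 : ∑ b ∈ (kids A (2 ^ p) Q a).filter (fun b => l0 ≤ mu A (2 ^ p) b),
          mu A (2 ^ p) b ≤ mu A (2 ^ p * Q) a := by
        rw [← mu_kids A Q a ht]
        exact sum_le_sum_of_subset_of_nonneg (filter_subset _ _) fun b _ _ => mu_nonneg _ _ _
      have h6 := H.up (p + d + 5) (by omega) a
      rw [← e2] at h6
      set z : ℝ := (((kids A (2 ^ p) Q a).filter (fun b => l0 ≤ mu A (2 ^ p) b)).card : ℝ) with hz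
      have hz0 : 0 ≤ z := Nat.cast_nonneg _
      set n : ℝ := ((p + d + 5 : ℕ) : ℝ) with hn
      have hn0 : 0 < n := by rw [hn]; positivity
      have h7 : z * l0 * n ≤ 12 * (2 ^ p * 2 ^ d * 32) := by
        have h8 := mul_le_mul_of_nonneg_right (h4.trans h5) hn0.le
        have h9 : (2 : ℝ) ^ (p + d + 5) = 2 ^ p * 2 ^ d * 32 := by rw [pow_add, pow_add]; ring
        rw [h9] at h6
        linarith
      have h8 : z * n ≤ 12 * 32 * 1024 * 28 * (2 ^ κ * p * 2 ^ d) := by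
        have h9 : z * n = z * l0 * n * (1024 * (28 * 2 ^ κ * p) / 2 ^ p) := by
          rw [hl0]; field_simp
        rw [h9]
        refine (mul_le_mul_of_nonneg_right h7 (by positivity)).trans (le_of_eq ?_)
        field_simp
      have h9 : z * (64 * k) * n ≤ ε * ((2 ^ d : ℕ) : ℝ) * n := by
        have h10 := mul_le_mul_of_nonneg_right h8 (show (0 : ℝ) ≤ 64 * k by positivity)
        have h11 := mul_le_mul_of_nonneg_right hrat (show (0 : ℝ) ≤ 2 ^ d by positivity)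
        have h12 : (0 : ℝ) ≤ 2 ^ κ * p * 2 ^ d * k := by positivity
        push_cast
        nlinarith
      exact le_of_mul_le_mul_right h9 hn0
  · have hlight : ∑ a ∈ occ A (2 ^ p * Q), ∑ b ∈ kids A (2 ^ p) Q a,
        (if ¬ l0 ≤ mu A (2 ^ p) b then mu A (2 ^ p) b else 0) ≤ A.card / 1024 := by
      rw [sum_kids A Q ht]
      have h1 := sum_le_card_nsmul (occ A (2 ^ p))
        (fun b => if ¬ l0 ≤ mu A (2 ^ p) b then mu A (2 ^ p) b else 0) l0 (fun b _ => by
          split_ifs with h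
          · exact hl0p.le
          · exact (not_le.1 h).le)
      rw [nsmul_eq_mul] at h1
      refine h1.trans ?_
      have h2 := H.occ_le hp hpe
      rw [hl0, ← mul_div_assoc, div_le_div_iff₀ (by positivity) (by norm_num)]
      nlinarith
    have h1 : ∑ a ∈ occ A (2 ^ p * Q) \ (occ A (2 ^ p * Q)).filter
        (fun a => ¬ Conc A (2 ^ p * ((2 ^ d : ℕ) : ℤ)) a ∧ mu A (2 ^ p * Q) a ≤
          2 * ∑ b ∈ (kids A (2 ^ p) Q a).filter (fun b => l0 ≤ mu A (2 ^ p) b), mu A (2 ^ p) b),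
        mu A (2 ^ p * Q) a ≤ ∑ a ∈ occ A (2 ^ p * Q),
          ((if Conc A (2 ^ p * ((2 ^ d : ℕ) : ℤ)) a then mu A (2 ^ p * Q) a else 0) +
            2 * ∑ b ∈ kids A (2 ^ p) Q a,
              (if ¬ l0 ≤ mu A (2 ^ p) b then mu A (2 ^ p) b else 0)) := by
      have hnn : ∀ a, (0 : ℝ) ≤ ∑ b ∈ kids A (2 ^ p) Q a,
          (if ¬ l0 ≤ mu A (2 ^ p) b then mu A (2 ^ p) b else 0) := fun a =>
        sum_nonneg fun b _ => by
          split_ifs
          · exact le_rfl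
          · exact mu_nonneg _ _ _
      refine le_trans (sum_le_sum fun a ha => ?_) (sum_le_sum_of_subset_of_nonneg sdiff_subset
        fun a _ _ => ?_)
      · obtain ⟨h2, h3⟩ := mem_sdiff.1 ha
        have h4 := hnn a
        by_cases hc : Conc A (2 ^ p * ((2 ^ d : ℕ) : ℤ)) a
        · rw [if_pos hc]; linarith
        · rw [if_neg hc, ← sum_filter]
          have h5 := sum_filter_add_sum_filter_not (kids A (2 ^ p) Q a)
            (fun b => l0 ≤ mu A (2 ^ p) b) (mu A (2 ^ p))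
          rw [mu_kids A Q a ht] at h5
          have h6 : ¬ mu A (2 ^ p * Q) a ≤ 2 * ∑ b ∈ (kids A (2 ^ p) Q a).filter
              (fun b => l0 ≤ mu A (2 ^ p) b), mu A (2 ^ p) b :=
            fun h7 => h3 (mem_filter.2 ⟨h2, hc, h7⟩)
          push Not at h6
          linarith
      · have h4 := hnn a
        have h5 := mu_nonneg A (2 ^ p * Q) a
        split_ifs <;> linarith
    rw [sum_add_distrib, ← mul_sum, ← sum_filter] at h1
    linarith

lemma par_exists : ∃ (k j h : ℕ) (τ ε : ℝ), Par k j h τ ε ∧ ε ≤ (1 / (32 * (k : ℝ))) ^ 2 ∧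
    Real.log (1 / (8 * (k : ℝ))) = -83 * Real.log 2 ∧ 2 ^ 31 * (k : ℝ) ≤ ε * 2 ^ 281 := by
  obtain ⟨h, hh⟩ : ∃ h : ℕ, h = 2 ^ 70 := ⟨_, rfl⟩
  have hk : ((1024 * h : ℕ) : ℝ) = 2 ^ 80 := by rw [hh]; norm_num
  refine ⟨1024 * h, 2 ^ 44, h, (1 / 2) ^ 256, (1 / 2) ^ 170,
    ⟨by omega, by rw [hh]; norm_num, by rw [hh]; norm_num, by omega, ?_, by positivity,
      pow_le_one₀ (by norm_num) (by norm_num), by rw [hk]; norm_num, by norm_num, ?_⟩,
    by rw [hk]; norm_num, ?_, ?_⟩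
  · have h1 : 16 * (1024 * h) ≤ 4 ^ 256 := by rw [hh]; norm_num
    have h2 : 4 ^ (1024 * h) = (4 ^ 256) ^ (4 * h) := by
      rw [← pow_mul]; congr 1; ring
    rw [h2]
    exact (Nat.pow_le_pow_left h1 _).trans (Nat.pow_le_pow_right (by positivity) (by omega))
  · rw [← pow_mul, ← pow_mul]
    refine le_of_eq ?_
    congr 1
    ring
  · rw [hk, show (8 : ℝ) * 2 ^ 80 = 2 ^ 83 by norm_num, one_div, Real.log_inv, Real.log_pow]
    push_cast; ring
  · rw [hk, show (281 : ℕ) = 170 + 111 by norm_num, pow_add]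
    norm_num

lemma levels {k j h : ℕ} {τ ε : ℝ} (P : Par k j h τ ε) (hε : ε ≤ (1 / (32 * (k : ℝ))) ^ 2)
    (hβ : Real.log (1 / (8 * (k : ℝ))) = -83 * Real.log 2) {A : Finset ℤ} {e κ : ℕ}
    (H : Hyp A e κ) (R : ℕ) (hR1 : 2560 * (κ + 10) + 5 ≤ R)
    (hR2 : 2 ^ 31 * (k : ℝ) * 2 ^ κ ≤ ε * R) (r : ℕ) (hr : 2 * R ^ (r + 1) ≤ e) :
    ∃ p, R ^ (r + 1) ≤ p ∧ p ≤ 2 * R ^ (r + 1) ∧
      St k A (2 ^ p) (-83 * Real.log 2 + r * (Real.log 2 / 2)) := by
  have hR : 2 ≤ R := by omega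
  have hk : 1 ≤ k := by have := P.hk; omega
  have hτ := P.hτ
  have hε0 : 0 < ε := lt_of_lt_of_le (by positivity) P.hε
  induction r with
  | zero =>
    refine ⟨R, by simp, by simp; omega, ?_⟩
    have := st_weak P hε one_pos (2 ^ R) (st_base k A)
    rw [one_mul, zero_add, hβ] at this
    simpa using this
  | succ r ih =>
    have hE1 : 1 ≤ R ^ (r + 1) := Nat.one_le_pow _ _ (by omega)
    have hE : R ^ (r + 1 + 1) = R * R ^ (r + 1) := by ring
    have hE2 : 2 * R ^ (r + 1) ≤ R ^ (r + 1 + 1) := by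
      rw [hE]; exact Nat.mul_le_mul_right _ hR
    have hE3 : R ≤ R ^ (r + 1 + 1) := by
      rw [hE]; exact Nat.le_mul_of_pos_right _ hE1
    obtain ⟨p, hp1, hp2, hS⟩ := ih (by omega)
    obtain ⟨i, hi1, hi2, hi3⟩ := H.good_scale (hR1.trans hE3) hr
    obtain ⟨d, rfl⟩ := Nat.exists_eq_add_of_le (show p ≤ i by omega)
    obtain ⟨T, hT1, hT2, hT3⟩ := H.typical k ε (p := p) (d := d) (by omega) (by omega) hk (by
      have h1 : (p : ℝ) ≤ 2 * ((R ^ (r + 1) : ℕ) : ℝ) := by exact_mod_cast hp2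
      have h2 : (R : ℝ) * ((R ^ (r + 1) : ℕ) : ℝ) ≤ ((p + d + 5 : ℕ) : ℝ) := by
        exact_mod_cast (by omega : R * R ^ (r + 1) ≤ p + d + 5)
      have h3 := mul_le_mul_of_nonneg_left h2 hε0.le
      have h4 := mul_le_mul_of_nonneg_right hR2 (Nat.cast_nonneg (α := ℝ) (R ^ (r + 1)))
      have h5 := mul_le_mul_of_nonneg_left h1 (show (0 : ℝ) ≤ 2 ^ 30 * k * 2 ^ κ by positivity)
      linarith) hi3
    have hS' := st_step P hε (show (0 : ℤ) < 2 ^ p by positivity) _ hS (2 ^ d) (1 / 256) T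
      hT1 hT2 hT3
    have e2 : (2 : ℤ) ^ p * (((2 ^ d : ℕ) : ℤ) * 32) = 2 ^ (p + d + 5) := by
      rw [pow_add, pow_add]; push_cast; ring
    rw [e2, hβ] at hS'
    refine ⟨p + d + 5, by omega, hi2, hS'.mono ?_⟩
    have hl : 0 < Real.log 2 := Real.log_pos (by norm_num)
    push_cast
    linarith

/-- the two counting hypotheses force the doubling constant to be large -/
theorem doubling : ∃ B : ℕ, 1 ≤ B ∧ ∀ (A : Finset ℤ) (e κ : ℕ), 2 ^ (B * (κ + 1) ^ 2) ≤ e →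
    ¬ Hyp A e κ := by
  obtain ⟨k, j, h, τ, ε, P, hε, hβ, hc⟩ := par_exists
  obtain ⟨c, hcc⟩ : ∃ c : ℕ, c = 281 := ⟨_, rfl⟩
  rw [← hcc] at hc
  refine ⟨c * (2 * k + 334) + 1, by omega, fun A e κ he H => ?_⟩
  have hk : k ≠ 0 := by have := P.hk; omega
  have hR1 : 2560 * (κ + 10) + 5 ≤ 2 ^ (κ + c) := by
    have h1 : κ < 2 ^ κ := Nat.lt_two_pow_self
    have h2 : 2 ^ 15 ≤ 2 ^ c := Nat.pow_le_pow_right (by norm_num) (by omega)
    have h3 : (κ + 1) * 2 ^ 15 ≤ 2 ^ κ * 2 ^ c := Nat.mul_le_mul h1 h2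
    rw [pow_add]
    omega
  have hR2 : 2 ^ 31 * (k : ℝ) * 2 ^ κ ≤ ε * ((2 ^ (κ + c) : ℕ) : ℝ) := by
    have := mul_le_mul_of_nonneg_right hc (show (0 : ℝ) ≤ 2 ^ κ by positivity)
    push_cast
    rw [pow_add]
    linarith
  have hJ : 2 * (2 ^ (κ + c)) ^ (2 * k * κ + 333 + 1) ≤ e := by
    refine le_trans ?_ he
    rw [← pow_mul, ← pow_succ']
    refine Nat.pow_le_pow_right (by norm_num) ?_
    have h1 : κ + c ≤ c * (κ + 1) := by nlinarith [show 1 ≤ c by omega]
    have h2 : 2 * k * κ + 333 + 1 ≤ (2 * k + 334) * (κ + 1) := by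
      have : (2 * k + 334) * (κ + 1) = 2 * k * κ + 333 + 1 + (2 * k + 334 * κ) := by ring
      rw [this]
      exact Nat.le_add_right _ _
    have h3 := Nat.mul_le_mul h1 h2
    have h4 : 1 ≤ (κ + 1) ^ 2 := Nat.one_le_pow _ _ (by omega)
    calc (κ + c) * (2 * k * κ + 333 + 1) + 1
        ≤ c * (κ + 1) * ((2 * k + 334) * (κ + 1)) + (κ + 1) ^ 2 := Nat.add_le_add h3 h4
      _ = (c * (2 * k + 334) + 1) * (κ + 1) ^ 2 := by ring
  obtain ⟨p, _, hp2, hS⟩ := levels P hε hβ H _ hR1 hR2 _ hJ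
  obtain ⟨d, hd⟩ := Nat.exists_eq_add_of_le (hp2.trans hJ)
  have hS' := st_weak P hε (show (0 : ℤ) < 2 ^ p by positivity) (2 ^ d) hS
  rw [← pow_add, ← hd, hβ] at hS'
  have h1 := st_final hk H.ne H.rg hS'
  have hc0 : (0 : ℝ) < A.card := by exact_mod_cast H.ne.card_pos
  have h2 := Finset.pluennecke_ruzsa_inequality_nsmul_add H.ne A k
  have h3 : ((k • A).card : ℝ) ≤ (((A + A).card : ℝ) / A.card) ^ k * A.card := by
    have := (NNRat.cast_le (K := ℝ)).2 h2
    push_cast at this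
    exact this
  have h4 : ((A + A).card : ℝ) / A.card ≤ 2 ^ κ := (div_le_iff₀ hc0).2 H.dbl
  have h5 := mul_le_mul_of_nonneg_right (pow_le_pow_left₀ (by positivity) h4 k) hc0.le
  have h6 := le_of_mul_le_mul_right ((h1.trans h3).trans h5) hc0
  have h7 := (Real.le_log_iff_exp_le (by positivity)).2 h6
  rw [Real.log_pow, Real.log_pow] at h7
  have hl : 0 < Real.log 2 := Real.log_pos (by norm_num)
  push_cast at h7
  nlinarith

end Pool.Agent.Lib.MP_476537_nt.G
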