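import Mathlib
import Pool.Agent.Lib.MP_476537_nt.Basic
import Pool.Agent.Lib.MP_476537_nt.GAdd

set_option autoImplicit false

namespace Pool.Agent.Lib.MP_476537_nt.G

open Finset Pointwise Pool.Agent.Lib.MP_476537_nt

lemma rr_step (s : ℕ) : rr 0 (s + 1) = rr 0 s * (1 - 1 / (M s : ℝ)) := by
  rw [rr_succ, zero_add]

lemma M_three (s : ℕ) : (3 : ℝ) ≤ M s := by
  have := M_ge s
  exact_mod_cast (by omega : 3 ≤ M s)

lemma sig_step (s : ℕ) : 1 / rr 0 (s + 1) = 1 / rr 0 s + 1 / (rr 0 s * (M s - 1)) := by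
  have h1 := rr_pos 0 s
  have h2 := M_three s
  have h3 : (M s : ℝ) - 1 ≠ 0 := by linarith
  have h4 : (M s : ℝ) ≠ 0 := by linarith
  rw [rr_step]
  field_simp
  ring

lemma sig_low_step (s : ℕ) : 1 / rr 0 s + 1 / (2 * (s : ℝ) + 3) ≤ 1 / rr 0 (s + 1) := by
  rw [sig_step]
  have h1 := rr_pos 0 s
  have h2 := M_three s
  have h3 := F_rr s (s + 1)
  change (M s : ℝ) * _ ≤ _ at h3
  push_cast at h3
  have h4 : 1 / (2 * (s : ℝ) + 3) ≤ 1 / (rr 0 s * (M s - 1)) :=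
    one_div_le_one_div_of_le (mul_pos h1 (by linarith)) (by nlinarith)
  linarith

lemma sig_low_add (s N n : ℕ) (h : n ≤ N) :
    1 / rr 0 s + n / (2 * ((s : ℝ) + N) + 1) ≤ 1 / rr 0 (s + n) := by
  induction n with
  | zero => simp
  | succ n ih =>
    have h1 := ih (by omega)
    have h2 := sig_low_step (s + n)
    have h3 : ((n : ℝ) + 1) ≤ N := by exact_mod_cast h
    have h4 : 1 / (2 * ((s : ℝ) + N) + 1) ≤ 1 / (2 * ((s + n : ℕ) : ℝ) + 3) :=
      one_div_le_one_div_of_le (by positivity) (by push_cast; linarith)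
    rw [← add_assoc]
    push_cast at h4 h2 ⊢
    rw [add_div]
    linarith

lemma sig_low (a : ℕ) : 1 + (a : ℝ) / 5 ≤ 1 / rr 0 (2 ^ a) := by
  induction a with
  | zero =>
    simp only [Nat.cast_zero, zero_div, add_zero]
    exact (one_le_div (rr_pos _ _)).2 (rr_le_one _ _)
  | succ a ih =>
    have h1 := sig_low_add (2 ^ a) (2 ^ a) (2 ^ a) le_rfl
    have h2 : (1 : ℝ) ≤ ((2 ^ a : ℕ) : ℝ) := by exact_mod_cast Nat.one_le_two_pow
    have h3 : (1 : ℝ) / 5 ≤ ((2 ^ a : ℕ) : ℝ) / (2 * (((2 ^ a : ℕ) : ℝ) + ((2 ^ a : ℕ) : ℝ)) + 1) := by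
      rw [div_le_div_iff₀ (by norm_num) (by positivity)]
      linarith
    have e : 2 ^ (a + 1) = 2 ^ a + 2 ^ a := by ring
    rw [e]
    push_cast at h1 h3 ⊢
    linarith

lemma cnt_M (s : ℕ) : s + 1 ≤ cnt s (M s) := by
  have : F s s < M s := F_strictMono s (Nat.lt_succ_self s)
  exact (F_lt_iff s _ s).1 this

lemma rr_ratio (j n : ℕ) : rr 0 j * (j + 1) ≤ rr 0 (j + n) * (j + n + 1) := by
  induction n with
  | zero => simp
  | succ n ih =>
    refine ih.trans ?_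
    rw [← add_assoc, rr_step]
    have h1 := rr_pos 0 (j + n)
    have h2 : ((j : ℝ) + n + 2) ≤ M (j + n) := by
      have := M_ge (j + n)
      exact_mod_cast (by omega : j + n + 2 ≤ M (j + n))
    have h3 : 1 / (M (j + n) : ℝ) ≤ 1 / ((j : ℝ) + n + 2) :=
      one_div_le_one_div_of_le (by positivity) h2
    have h4 : 1 / (M (j + n) : ℝ) * ((j : ℝ) + n + 2) ≤ 1 := by
      refine (mul_le_mul_of_nonneg_right h3 (by positivity)).trans (le_of_eq ?_)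
      field_simp
    push_cast
    rw [mul_assoc]
    refine mul_le_mul_of_nonneg_left ?_ h1.le
    nlinarith

lemma M_low (s : ℕ) : (s : ℝ) + 1 ≤ 2 * (M s * rr 0 s) := by
  have h1 := cnt_M s
  have h2 : cnt s (M s) ≤ orb 0 (M s / 2) (s / 2) := orb_anti 0 _ (Nat.div_le_self _ _)
  have h3 := orb_upper 0 (M s / 2) (s / 2)
  have h4 : ((s : ℝ) + 1) ≤ orb 0 (M s / 2) (s / 2) := by exact_mod_cast h1.trans h2
  have h5 : ((M s / 2 : ℕ) : ℝ) ≤ (M s : ℝ) / 2 := Nat.cast_div_le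
  have h6 : ((s / 2 : ℕ) : ℝ) ≤ (s : ℝ) / 2 := Nat.cast_div_le
  have h7 := rr_ratio (s / 2) (s - s / 2)
  have e : s / 2 + (s - s / 2) = s := by omega
  have e' : ((s / 2 : ℕ) : ℝ) + ((s - s / 2 : ℕ) : ℝ) = s := by exact_mod_cast e
  rw [e, e'] at h7
  have h8 : (s : ℝ) + 1 ≤ 2 * (((s / 2 : ℕ) : ℝ) + 1) := by
    exact_mod_cast (by omega : s + 1 ≤ 2 * (s / 2 + 1))
  have h9 := rr_pos 0 s
  have h10 := rr_pos 0 (s / 2)
  have h11 : rr 0 (s / 2) ≤ 2 * rr 0 s := by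
    have h12 : rr 0 (s / 2) * (((s / 2 : ℕ) : ℝ) + 1) ≤
        2 * rr 0 s * (((s / 2 : ℕ) : ℝ) + 1) := by nlinarith
    exact le_of_mul_le_mul_right h12 (by positivity)
  have h12 := M_three s
  have h13 : ((M s / 2 : ℕ) : ℝ) * rr 0 (s / 2) ≤ (M s : ℝ) / 2 * (2 * rr 0 s) :=
    mul_le_mul h5 h11 h10.le (by positivity)
  linarith

lemma sig_up_step (s : ℕ) : 1 / rr 0 (s + 1) ≤ 1 / rr 0 s + 3 / ((s : ℝ) + 1) := by
  rw [sig_step]
  have h1 := rr_pos 0 s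
  have h2 := M_three s
  have h3 := M_low s
  have h4 : 1 / (rr 0 s * (M s - 1)) ≤ 3 / ((s : ℝ) + 1) := by
    rw [div_le_div_iff₀ (mul_pos h1 (by linarith)) (by positivity)]
    nlinarith
  linarith

lemma sig_up_add (s n : ℕ) : 1 / rr 0 (s + n) ≤ 1 / rr 0 s + n * (3 / ((s : ℝ) + 1)) := by
  induction n with
  | zero => simp
  | succ n ih =>
    have h2 := sig_up_step (s + n)
    have h4 : 3 / (((s + n : ℕ) : ℝ) + 1) ≤ 3 / ((s : ℝ) + 1) :=
      div_le_div_of_nonneg_left (by norm_num) (by positivity) (by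
        push_cast
        have : (0 : ℝ) ≤ n := Nat.cast_nonneg _
        linarith)
    rw [← add_assoc]
    push_cast at h4 h2 ⊢
    linarith

lemma sig_up (a : ℕ) : 1 / rr 0 (2 ^ a) ≤ 4 + 3 * (a : ℝ) := by
  induction a with
  | zero =>
    have := sig_up_step 0
    have h0 : rr 0 0 = 1 := by simp [rr]
    rw [h0] at this
    simp only [pow_zero]
    norm_num at this ⊢
    linarith
  | succ a ih =>
    have h1 := sig_up_add (2 ^ a) (2 ^ a)
    have h3 : ((2 ^ a : ℕ) : ℝ) * (3 / (((2 ^ a : ℕ) : ℝ) + 1)) ≤ 3 := by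
      rw [← mul_div_assoc, div_le_iff₀ (by positivity)]
      linarith
    have e : 2 ^ (a + 1) = 2 ^ a + 2 ^ a := by ring
    rw [e]
    push_cast at h1 h3 ⊢
    linarith

open Classical in
lemma card_window (a y s : ℕ) :
    (((Ico a (a + 2 * y)).filter (fun x => x ∈ Lk)).card : ℝ) ≤ y * rr 0 s + s := by
  have h1 : (Ico a (a + 2 * y)).filter (fun x => x ∈ Lk) ⊆
      (Ico (cnt s a) (cnt s (a + 2 * y))).image (F s) := by
    intro x hx
    obtain ⟨h2, h3⟩ := mem_filter.1 hx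
    obtain ⟨j, rfl⟩ := h3 s
    rw [mem_Ico] at h2
    refine mem_image.2 ⟨j, mem_Ico.2 ⟨?_, (F_lt_iff _ _ _).1 h2.2⟩, rfl⟩
    by_contra hc
    push Not at hc
    have := (F_lt_iff _ _ _).2 hc
    omega
  have h2 := (card_le_card h1).trans card_image_le
  rw [Nat.card_Ico] at h2
  have h3 : cnt s a ≤ cnt s (a + 2 * y) := cnt_mono _ (by omega)
  have h4 := orb_lower 0 (a / 2) s
  have h5 := orb_upper 0 ((a + 2 * y) / 2) s
  change _ ≤ (cnt s a : ℝ) at h4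
  change (cnt s (a + 2 * y) : ℝ) ≤ _ at h5
  have e : (a + 2 * y) / 2 = a / 2 + y := by omega
  rw [e] at h5
  push_cast at h5
  have h6 : (((Ico a (a + 2 * y)).filter (fun x => x ∈ Lk)).card : ℝ) + cnt s a ≤
      cnt s (a + 2 * y) := by
    exact_mod_cast (by omega : ((Ico a (a + 2 * y)).filter (fun x => x ∈ Lk)).card + cnt s a ≤
      cnt s (a + 2 * y))
  linarith

open Classical in
/-- Brun-Titchmarsh bound for lucky numbers -/
lemma count_up (a i : ℕ) (hi : 1 ≤ i) :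
    (((Ico a (a + 2 ^ i)).filter (fun x => x ∈ Lk)).card : ℝ) * i ≤ 12 * 2 ^ i := by
  obtain ⟨n, rfl⟩ : ∃ n, i = n + 1 := ⟨i - 1, by omega⟩
  have e : 2 ^ (n + 1) = 2 * 2 ^ n := by ring
  have h1 := card_window a (2 ^ n) (2 ^ ((n + 1) / 2))
  rw [← e] at h1
  have h2 := sig_low ((n + 1) / 2)
  have h3 := rr_pos 0 (2 ^ ((n + 1) / 2))
  rw [le_div_iff₀ h3] at h2
  have h4 : ((n + 1 : ℕ) : ℝ) ≤ 2 * (((n + 1) / 2 : ℕ) : ℝ) + 1 := by
    exact_mod_cast (by omega : n + 1 ≤ 2 * ((n + 1) / 2) + 1)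
  have h5 : rr 0 (2 ^ ((n + 1) / 2)) * ((n + 1 : ℕ) : ℝ) ≤ 10 := by nlinarith
  have h6 : 2 ^ ((n + 1) / 2) * (n + 1) ≤ 2 * 2 ^ (n + 1) := by
    have h7 : (n + 1) - (n + 1) / 2 < 2 ^ ((n + 1) - (n + 1) / 2) := Nat.lt_two_pow_self
    have h8 : 2 ^ (n + 1) = 2 ^ ((n + 1) / 2) * 2 ^ ((n + 1) - (n + 1) / 2) := by
      rw [← pow_add]; congr 1; omega
    rw [h8, mul_left_comm]
    exact Nat.mul_le_mul_left _ (by omega)
  have h7 : ((2 ^ ((n + 1) / 2) : ℕ) : ℝ) * ((n + 1 : ℕ) : ℝ) ≤ 2 * 2 ^ (n + 1) := by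
    exact_mod_cast h6
  have h8 := mul_le_mul_of_nonneg_right h1 (Nat.cast_nonneg (α := ℝ) (n + 1))
  have h9 : ((2 ^ n : ℕ) : ℝ) * (rr 0 (2 ^ ((n + 1) / 2)) * ((n + 1 : ℕ) : ℝ)) ≤
      ((2 ^ n : ℕ) : ℝ) * 10 := mul_le_mul_of_nonneg_left h5 (Nat.cast_nonneg _)
  have h10 : ((2 ^ n : ℕ) : ℝ) * 2 = 2 ^ (n + 1) := by push_cast; ring
  have h11 : (0 : ℝ) < 2 ^ (n + 1) := by positivity
  nlinarith

open Classical in
/-- Chebyshev lower bound for lucky numbers -/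
lemma count_low (i : ℕ) (hi : 1 ≤ i) :
    (2 : ℝ) ^ i ≤ 14 * i * (((range (2 ^ i)).filter (fun x => x ∈ Lk)).card : ℝ) := by
  have h1 : (range (cnt (2 ^ i) (2 ^ i))).image (F (2 ^ i)) ⊆
      (range (2 ^ i)).filter (fun x => x ∈ Lk) := by
    intro x hx
    obtain ⟨j, hj, rfl⟩ := mem_image.1 hx
    have h2 := (F_lt_iff _ _ _).2 (mem_range.1 hj)
    refine mem_filter.2 ⟨mem_range.2 h2, ?_⟩
    have h3 := M_ge (2 ^ i)
    have h4 : ¬ j < cnt (2 ^ i) (F (2 ^ i) j) := by rw [← F_lt_iff]; omega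
    have h5 : j < cnt (2 ^ i) (F (2 ^ i) j + 1) := by rw [← F_lt_iff]; omega
    obtain ⟨a, ha, h6, h7⟩ := lucky_exists (F (2 ^ i) j) (F (2 ^ i) j + 1) (2 ^ i) (by omega)
      (by omega)
    have : a = F (2 ^ i) j := by omega
    exact this ▸ ha
  have h2 := card_le_card h1
  rw [card_image_of_injective _ (F_strictMono _).injective, card_range] at h2
  have h3 := orb_lower 0 (2 ^ i / 2) (2 ^ i)
  change _ ≤ (cnt (2 ^ i) (2 ^ i) : ℝ) at h3
  have h4 : (cnt (2 ^ i) (2 ^ i) : ℝ) ≤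
      (((range (2 ^ i)).filter (fun x => x ∈ Lk)).card : ℝ) := by exact_mod_cast h2
  have h5 := sig_up i
  have h6 := rr_pos 0 (2 ^ i)
  rw [div_le_iff₀ h6] at h5
  have h7 : (1 : ℝ) ≤ i := by exact_mod_cast hi
  have h8 : ((2 ^ i / 2 : ℕ) : ℝ) * 2 = 2 ^ i := by
    obtain ⟨n, rfl⟩ : ∃ n, i = n + 1 := ⟨i - 1, by omega⟩
    have : 2 ^ (n + 1) / 2 = 2 ^ n := by rw [pow_succ]; omega
    rw [this]; push_cast; ring
  have h9 : 1 ≤ 7 * i * rr 0 (2 ^ i) := by nlinarith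
  have h10 := mul_le_mul_of_nonneg_left h9 (show (0 : ℝ) ≤ 2 ^ i by positivity)
  have h11 := mul_le_mul_of_nonneg_left (h3.trans h4) (show (0 : ℝ) ≤ 14 * i by positivity)
  nlinarith

open Classical in
/-- the lucky numbers below `2 ^ e`, as integers -/
noncomputable def LA (e : ℕ) : Finset ℤ :=
  ((range (2 ^ e)).filter (fun x => x ∈ Lk)).image (fun n : ℕ => (n : ℤ))

lemma mem_LA {e : ℕ} {x : ℤ} : x ∈ LA e ↔ ∃ n : ℕ, n < 2 ^ e ∧ n ∈ Lk ∧ (n : ℤ) = x := by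
  unfold LA
  simp only [mem_image, mem_filter, mem_range, and_assoc]

lemma LA_low {e i : ℕ} (h1 : 1 ≤ i) (h2 : i ≤ e) :
    (2 : ℝ) ^ i ≤ 14 * i * mu (LA e) (2 ^ i) 0 := by
  classical
  refine (count_low i h1).trans (mul_le_mul_of_nonneg_left ?_ (by positivity))
  unfold mu
  refine Nat.cast_le.2 (card_le_card_of_injOn (fun n : ℕ => (n : ℤ)) ?_
    (fun a _ b _ h => Nat.cast_injective h))
  intro n hn
  obtain ⟨h3, h4⟩ := mem_filter.1 (mem_coe.1 hn)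
  rw [mem_range] at h3
  refine mem_coe.2 (mem_filter.2 ⟨mem_LA.2 ⟨n, lt_of_lt_of_le h3
    (Nat.pow_le_pow_right (by norm_num) h2), h4, rfl⟩, ?_⟩)
  have h5 : (n : ℤ) < 2 ^ i := by exact_mod_cast h3
  exact Int.ediv_eq_zero_of_lt (Int.natCast_nonneg n) h5

lemma LA_up (e i : ℕ) (h1 : 1 ≤ i) (a : ℤ) : mu (LA e) (2 ^ i) a * i ≤ 12 * 2 ^ i := by
  classical
  refine le_trans (mul_le_mul_of_nonneg_right ?_ (Nat.cast_nonneg _))
    (count_up (a.toNat * 2 ^ i) i h1)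
  unfold mu
  refine Nat.cast_le.2 (le_trans (card_le_card ?_)
    (card_image_le (f := fun n : ℕ => (n : ℤ))))
  intro x hx
  obtain ⟨h2, h3⟩ := mem_filter.1 hx
  obtain ⟨n, _, h5, rfl⟩ := mem_LA.1 h2
  have ht : (0 : ℤ) < 2 ^ i := by positivity
  have h6 := Int.ediv_mul_le (n : ℤ) ht.ne'
  have h7 := Int.lt_ediv_add_one_mul_self (n : ℤ) ht
  have h8 : 0 ≤ a := by rw [← h3]; exact Int.ediv_nonneg (by positivity) ht.le
  rw [h3] at h6 h7
  obtain ⟨m, rfl⟩ := Int.eq_ofNat_of_zero_le h8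
  refine mem_image.2 ⟨n, mem_filter.2 ⟨mem_Ico.2 ⟨?_, ?_⟩, h5⟩, rfl⟩
  · rw [Int.toNat_natCast]; exact_mod_cast h6
  · rw [Int.toNat_natCast]
    rw [add_mul, one_mul] at h7
    exact_mod_cast h7

lemma LA_card {e : ℕ} (h1 : 1 ≤ e) : (2 : ℝ) ^ e ≤ 14 * e * (LA e).card := by
  refine (LA_low h1 le_rfl).trans (mul_le_mul_of_nonneg_left ?_ (by positivity))
  unfold mu
  exact Nat.cast_le.2 (card_le_card (filter_subset _ _))

lemma LA_sum {e x : ℕ} (h : 2 ^ (e + 1) ≤ x) :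
    (LA e + LA e).card ≤ {n : ℕ | n ≤ x ∧ ∃ a ∈ Lk, ∃ b ∈ Lk, a + b = n}.ncard := by
  have hfin : {n : ℕ | n ≤ x ∧ ∃ a ∈ Lk, ∃ b ∈ Lk, a + b = n}.Finite :=
    (Set.finite_le_nat x).subset fun n hn => hn.1
  rw [Set.ncard_eq_toFinset_card _ hfin]
  refine le_trans (card_le_card ?_) (card_image_le (f := fun n : ℕ => (n : ℤ)))
  intro z hz
  obtain ⟨u, hu, v, hv, rfl⟩ := mem_add.1 hz
  obtain ⟨a, ha1, ha2, rfl⟩ := mem_LA.1 hu
  obtain ⟨b, hb1, hb2, rfl⟩ := mem_LA.1 hv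
  refine mem_image.2 ⟨a + b, (Set.Finite.mem_toFinset _).2 ⟨?_, a, ha2, b, hb2, rfl⟩, by simp⟩
  rw [pow_succ] at h
  omega

theorem sum_count : ∃ c : ℝ, 0 < c ∧ ∃ x₀ : ℕ, ∀ x : ℕ, x₀ ≤ x →
    (x : ℝ) / Real.log x * Real.exp (c * √(Real.log (Real.log x))) ≤
      ({n : ℕ | n ≤ x ∧ ∃ a ∈ Lk, ∃ b ∈ Lk, a + b = n}.ncard : ℝ) := by
  obtain ⟨B, hB, hD⟩ := doubling
  have hBR : (1 : ℝ) ≤ B := by exact_mod_cast hB
  refine ⟨1 / (4 * B), by positivity, ⌈Real.exp (Real.exp (324 * B + 4))⌉₊, fun x hx => ?_⟩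
  have hx1 : Real.exp (Real.exp (324 * B + 4)) ≤ x := (Nat.le_ceil _).trans (by exact_mod_cast hx)
  have hx0 : (0 : ℝ) < x := lt_of_lt_of_le (Real.exp_pos _) hx1
  have hL : Real.exp (324 * B + 4) ≤ Real.log x := (Real.le_log_iff_exp_le hx0).2 hx1
  have hL0 : 0 < Real.log x := lt_of_lt_of_le (Real.exp_pos _) hL
  have hLL : 324 * B + 4 ≤ Real.log (Real.log x) := (Real.le_log_iff_exp_le hL0).2 hL
  have hL4 : 4 ≤ Real.log x := by
    have := Real.add_one_le_exp (324 * (B : ℝ) + 4)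
    linarith
  have hl2 := Real.log_two_gt_d9
  have hl2' := Real.log_two_lt_d9
  set y := √(Real.log (Real.log x)) with hy
  have hy0 : 0 ≤ y := Real.sqrt_nonneg _
  have hy2 : y ^ 2 = Real.log (Real.log x) := Real.sq_sqrt (by linarith)
  have hxn : x ≠ 0 := by rintro rfl; simp at hx0
  have hu : x < 2 ^ (Nat.log 2 x + 1) := Nat.lt_pow_succ_log_self (by norm_num) x
  have hd : 2 ^ Nat.log 2 x ≤ x := Nat.pow_log_le_self 2 hxn
  have hu' : Real.log x ≤ (Nat.log 2 x : ℝ) + 1 := by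
    have h1 : (x : ℝ) ≤ 2 ^ (Nat.log 2 x + 1) := by exact_mod_cast hu.le
    have h2 := Real.log_le_log hx0 h1
    rw [Real.log_pow] at h2
    push_cast at h2
    have h3 : (0 : ℝ) ≤ (Nat.log 2 x : ℝ) + 1 := by positivity
    nlinarith
  have hd' : (Nat.log 2 x : ℝ) ≤ 2 * Real.log x := by
    have h1 : (2 : ℝ) ^ Nat.log 2 x ≤ x := by exact_mod_cast hd
    have h2 := Real.log_le_log (by positivity) h1
    rw [Real.log_pow] at h2
    have h3 : (0 : ℝ) ≤ (Nat.log 2 x : ℝ) := by positivity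
    nlinarith
  obtain ⟨e, he⟩ : ∃ e, Nat.log 2 x = e + 1 := by
    refine ⟨Nat.log 2 x - 1, ?_⟩
    have : (1 : ℝ) ≤ (Nat.log 2 x : ℝ) := by linarith
    have : 1 ≤ Nat.log 2 x := by exact_mod_cast this
    omega
  rw [he] at hu hd hu' hd'
  push_cast at hu' hd'
  have he1 : 1 ≤ e := by
    have : (1 : ℝ) ≤ (e : ℝ) := by linarith
    exact_mod_cast this
  obtain ⟨κ, hκ1, hκ2⟩ : ∃ κ : ℕ, y / (2 * B) + 7 ≤ κ ∧ (κ : ℝ) + 1 ≤ y / (2 * B) + 9 := by
    refine ⟨⌈y / (2 * B)⌉₊ + 7, ?_, ?_⟩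
    · push_cast
      linarith [Nat.le_ceil (y / (2 * B))]
    · push_cast
      linarith [Nat.ceil_lt_add_one (show 0 ≤ y / (2 * B) by positivity)]
  have hbig : 2 ^ (B * (κ + 1) ^ 2) ≤ e := by
    have h1 : ((κ : ℝ) + 1) ^ 2 ≤ 2 * (y / (2 * B)) ^ 2 + 162 := by
      refine (pow_le_pow_left₀ (by positivity) hκ2 2).trans ?_
      nlinarith [sq_nonneg (y / (2 * B) - 9)]
    have h2 : (B : ℝ) * (2 * (y / (2 * B)) ^ 2) ≤ y ^ 2 / 2 := by
      have h3 : (B : ℝ) * (2 * (y / (2 * B)) ^ 2) = y ^ 2 / (2 * B) := by field_simp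
      rw [h3]
      exact div_le_div_of_nonneg_left (by positivity) (by norm_num) (by linarith)
    have h3 : (B : ℝ) * ((κ : ℝ) + 1) ^ 2 + 1 ≤ Real.log (Real.log x) := by
      have := mul_le_mul_of_nonneg_left h1 (show (0 : ℝ) ≤ B by positivity)
      linarith
    have h4 : (2 : ℝ) ^ (B * (κ + 1) ^ 2 + 1) ≤ Real.log x := by
      rw [← Real.log_le_log_iff (by positivity) hL0, Real.log_pow]
      push_cast
      have h5 : (0 : ℝ) ≤ (B : ℝ) * ((κ : ℝ) + 1) ^ 2 + 1 := by positivity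
      nlinarith
    rw [pow_succ] at h4
    have h5 : (2 : ℝ) ^ (B * (κ + 1) ^ 2) ≤ e := by linarith
    exact_mod_cast h5
  have hcard := LA_card he1
  have hc0 : (0 : ℝ) < (LA e).card := by
    by_contra h
    push Not at h
    have h1 : (0 : ℝ) < 2 ^ e := by positivity
    have h2 : (0 : ℝ) ≤ 14 * e := by positivity
    nlinarith
  have hdbl : 2 ^ κ * ((LA e).card : ℝ) < (LA e + LA e).card := by
    by_contra h
    push Not at h
    refine hD (LA e) e κ hbig ⟨card_pos.1 (by exact_mod_cast hc0), fun z hz => ?_,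
      fun i hi a => LA_up e i hi a, fun i hi hi' => LA_low hi hi', h⟩
    obtain ⟨n, h1, _, rfl⟩ := mem_LA.1 hz
    exact ⟨by positivity, by exact_mod_cast h1⟩
  have hsum : ((LA e + LA e).card : ℝ) ≤
      ({n : ℕ | n ≤ x ∧ ∃ a ∈ Lk, ∃ b ∈ Lk, a + b = n}.ncard : ℝ) := by
    exact_mod_cast LA_sum hd
  refine le_trans ?_ (hdbl.le.trans hsum)
  have h1 : (x : ℝ) / Real.log x ≤ 128 * (LA e).card := by
    rw [div_le_iff₀ hL0]
    have h2 : (x : ℝ) ≤ 2 ^ (e + 1 + 1) := by exact_mod_cast hu.le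
    rw [pow_succ, pow_succ] at h2
    have h3 : (e : ℝ) * (LA e).card ≤ 2 * Real.log x * (LA e).card :=
      mul_le_mul_of_nonneg_right (by linarith) hc0.le
    have h4 : 0 < Real.log x * (LA e).card := by positivity
    nlinarith
  have h2 : 128 * Real.exp (1 / (4 * B) * y) ≤ 2 ^ κ := by
    rw [← Real.log_le_log_iff (by positivity) (by positivity),
      Real.log_mul (by norm_num) (Real.exp_pos _).ne', Real.log_exp, Real.log_pow,
      show (128 : ℝ) = 2 ^ 7 by norm_num, Real.log_pow]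
    have h3 : 1 / (4 * B) * y = y / (2 * B) / 2 := by field_simp; ring
    have h4 : 0 ≤ y / (2 * B) := by positivity
    have h5 := mul_le_mul_of_nonneg_right hκ1 (show 0 ≤ Real.log 2 by linarith)
    rw [h3]
    push_cast
    nlinarith
  calc (x : ℝ) / Real.log x * Real.exp (1 / (4 * B) * y)
      ≤ 128 * (LA e).card * Real.exp (1 / (4 * B) * y) :=
        mul_le_mul_of_nonneg_right h1 (Real.exp_pos _).le
    _ = 128 * Real.exp (1 / (4 * B) * y) * (LA e).card := by ring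
    _ ≤ 2 ^ κ * (LA e).card := mul_le_mul_of_nonneg_right h2 hc0.le

end Pool.Agent.Lib.MP_476537_nt.G
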