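import Mathlib

set_option autoImplicit false

namespace Pool.Agent.Lib.MP_476537_nt

open Finset

/-- number of multiples of `μ` in `(p, p + W]` -/
noncomputable def zz (μ : ℝ) (W p : ℕ) : ℤ := ⌊((p : ℝ) + W) / μ⌋ - ⌊(p : ℝ) / μ⌋

lemma zz_nonneg (μ : ℝ) (hμ : 0 < μ) (W p : ℕ) : 0 ≤ zz μ W p := by
  unfold zz
  have : ⌊(p : ℝ) / μ⌋ ≤ ⌊((p : ℝ) + W) / μ⌋ := by
    apply Int.floor_le_floor
    apply div_le_div_of_nonneg_right _ hμ.le
    have : (0 : ℝ) ≤ W := by positivity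
    linarith
  omega

lemma zz_le_one (μ : ℝ) (hμ : 0 < μ) (W p : ℕ) (hW : (W : ℝ) ≤ μ) : zz μ W p ≤ 1 := by
  unfold zz
  have : ⌊((p : ℝ) + W) / μ⌋ ≤ ⌊(p : ℝ) / μ + 1⌋ := by
    apply Int.floor_le_floor
    rw [div_add_one hμ.ne']
    apply div_le_div_of_nonneg_right _ hμ.le
    linarith
  rw [Int.floor_add_one] at this
  omega

lemma zz_wit (μ : ℝ) (hμ : 0 < μ) (W p : ℕ) (h : zz μ W p ≠ 0) :
    ∃ c : ℤ, (p : ℝ) < c * μ ∧ c * μ ≤ p + W := by
  have h0 := zz_nonneg μ hμ W p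
  unfold zz at h h0
  refine ⟨⌊((p : ℝ) + W) / μ⌋, ?_, ?_⟩
  · have h1 : ⌊(p : ℝ) / μ⌋ < ⌊((p : ℝ) + W) / μ⌋ := by omega
    rw [Int.floor_lt, div_lt_iff₀ hμ] at h1
    exact h1
  · have := Int.floor_le (((p : ℝ) + W) / μ)
    rwa [le_div_iff₀ hμ] at this

lemma zz_sum (μ : ℝ) (W N : ℕ) :
    |∑ p ∈ range N, (zz μ W p : ℝ) - N * (W / μ)| ≤ W := by
  set f : ℕ → ℝ := fun p => (⌊(p : ℝ) / μ⌋ : ℝ) with hf
  have h1 : ∑ p ∈ range N, (zz μ W p : ℝ) = ∑ p ∈ range N, (f (W + p) - f p) := by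
    apply sum_congr rfl
    intro p _
    simp only [zz, hf]
    push_cast
    rw [add_comm (W : ℝ)]
  have h2 := sum_range_add f N W
  have h3 := sum_range_add f W N
  rw [add_comm W N] at h3
  have h4 : ∑ p ∈ range N, (zz μ W p : ℝ) = ∑ p ∈ range W, (f (N + p) - f p) := by
    rw [h1, sum_sub_distrib, sum_sub_distrib]; linarith
  have h5 : (N : ℝ) * (W / μ) = ∑ p ∈ range W, (N : ℝ) / μ := by
    rw [sum_const, card_range, nsmul_eq_mul]; ring
  rw [h4, h5, ← sum_sub_distrib]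
  refine (abs_sum_le_sum_abs _ _).trans ?_
  have h6 : ∀ p ∈ range W, |f (N + p) - f p - (N : ℝ) / μ| ≤ 1 := by
    intro p _
    simp only [hf]
    push_cast
    have a1 := Int.floor_le (((N : ℝ) + p) / μ)
    have a2 := Int.lt_floor_add_one (((N : ℝ) + p) / μ)
    have a3 := Int.floor_le ((p : ℝ) / μ)
    have a4 := Int.lt_floor_add_one ((p : ℝ) / μ)
    have a5 : ((N : ℝ) + p) / μ = N / μ + p / μ := add_div _ _ _
    rw [abs_le]
    constructor <;> linarith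
  refine (sum_le_sum h6).trans ?_
  simp

lemma card_int_Ioo (α β : ℝ) (h : α ≤ β) : ((Ioo ⌊α⌋ ⌈β⌉).card : ℝ) ≤ β - α + 1 := by
  rw [Int.card_Ioo]
  have h1 := Int.lt_floor_add_one α
  have h2 := Int.ceil_lt_add_one β
  rcases le_total (⌈β⌉ - ⌊α⌋ - 1) 0 with h3 | h3
  · rw [Int.toNat_eq_zero.2 h3]; simp; linarith
  · have : (((⌈β⌉ - ⌊α⌋ - 1).toNat : ℕ) : ℝ) = ((⌈β⌉ - ⌊α⌋ - 1 : ℤ) : ℝ) := by
      rw [← Int.cast_natCast, Int.toNat_of_nonneg h3]
    rw [this]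
    push_cast
    linarith

lemma pair_count (μ μ' : ℝ) (W N : ℕ) (hpos : 0 < μ') (hW : (W : ℝ) ≤ μ') (hlt : μ' < μ) :
    ((((range N).filter fun p => zz μ W p ≠ 0 ∧ zz μ' W p ≠ 0).card : ℕ) : ℝ) ≤
      ((N + W) * (μ - μ') / (μ * μ') + 2) * (W * ((W + 1) / (μ - μ') + 1)) := by
  classical
  set Δ := μ - μ' with hΔ
  have hΔ0 : 0 < Δ := by linarith
  have hμ : 0 < μ := by linarith
  set E : ℕ := ⌊((N : ℝ) + W) * Δ / (μ * μ') + 1⌋₊ with hE
  set K : ℕ → ℕ → Finset ℕ := fun e a =>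
    (Ioo ⌊((a : ℝ) - 1 - W + e * μ') / Δ⌋ ⌈((a : ℝ) + e * μ') / Δ⌉).image
      (fun c : ℤ => (⌈(c : ℝ) * μ⌉ - a).toNat) with hK
  have hsub : ((range N).filter fun p => zz μ W p ≠ 0 ∧ zz μ' W p ≠ 0) ⊆
      (range (E + 1)).biUnion fun e => (Icc 1 W).biUnion fun a => K e a := by
    intro p hp
    rw [mem_filter, mem_range] at hp
    obtain ⟨hpN, h1, h2⟩ := hp
    obtain ⟨c, hc1, hc2⟩ := zz_wit μ hμ W p h1
    obtain ⟨c', hc1', hc2'⟩ := zz_wit μ' hpos W p h2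
    have hpN' : (p : ℝ) ≤ N := by exact_mod_cast hpN.le
    have hp0 : (0 : ℝ) ≤ p := by positivity
    have hc0 : (0 : ℝ) < c := by
      by_contra hh; push Not at hh; nlinarith
    have hcle : (c : ℝ) ≤ (N + W) / μ := by rw [le_div_iff₀ hμ]; linarith
    have hee : ((c' - c : ℤ) : ℝ) * μ' = c * Δ - (c * μ - c' * μ') := by
      push_cast; rw [hΔ]; ring
    have he0 : 0 ≤ c' - c := by
      have : (-1 : ℝ) < ((c' - c : ℤ) : ℝ) := by
        by_contra hh; push Not at hh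
        have := mul_pos hc0 hΔ0
        nlinarith
      have : (-1 : ℤ) < c' - c := by exact_mod_cast this
      omega
    obtain ⟨e, he⟩ := Int.eq_ofNat_of_zero_le he0
    have hee' : (e : ℝ) * μ' = c * Δ - (c * μ - c' * μ') := by
      rw [← hee, he]; simp
    have ha1 : (p : ℤ) + 1 ≤ ⌈(c : ℝ) * μ⌉ := by
      rw [Int.add_one_le_iff, Int.lt_ceil]; exact_mod_cast hc1
    have ha2 : ⌈(c : ℝ) * μ⌉ ≤ (p : ℤ) + W := by
      rw [Int.ceil_le]; exact_mod_cast hc2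
    obtain ⟨a, ha⟩ := Int.eq_ofNat_of_zero_le (by omega : 0 ≤ ⌈(c : ℝ) * μ⌉ - p)
    have ha3 : (a : ℝ) = (⌈(c : ℝ) * μ⌉ : ℝ) - p := by
      have : ((⌈(c : ℝ) * μ⌉ - p : ℤ) : ℝ) = ((a : ℤ) : ℝ) := by rw [ha]
      push_cast at this; linarith
    have b1 := Int.le_ceil ((c : ℝ) * μ)
    have b2 := Int.ceil_lt_add_one ((c : ℝ) * μ)
    simp only [mem_biUnion, mem_range, mem_Icc]
    refine ⟨e, ?_, a, ⟨by omega, by omega⟩, ?_⟩
    · rw [Nat.lt_add_one_iff, hE]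
      apply Nat.le_floor
      have h3 : (c : ℝ) * Δ ≤ (N + W) / μ * Δ := mul_le_mul_of_nonneg_right hcle hΔ0.le
      have h4 : ((N : ℝ) + W) * Δ / (μ * μ') + 1 = ((N + W) / μ * Δ + μ') / μ' := by
        field_simp
      rw [h4, le_div_iff₀ hpos]
      linarith
    · simp only [hK, mem_image, mem_Ioo]
      refine ⟨c, ⟨?_, ?_⟩, by omega⟩
      · rw [Int.floor_lt, div_lt_iff₀ hΔ0]; linarith
      · rw [Int.lt_ceil, lt_div_iff₀ hΔ0]; linarith
  have hKc : ∀ e a, ((K e a).card : ℝ) ≤ (W + 1) / Δ + 1 := by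
    intro e a
    have h1 : (K e a).card ≤ _ := card_image_le
    have h2 := card_int_Ioo (((a : ℝ) - 1 - W + e * μ') / Δ) (((a : ℝ) + e * μ') / Δ) (by
      apply div_le_div_of_nonneg_right _ hΔ0.le
      have : (0 : ℝ) ≤ W := by positivity
      linarith)
    have h3 : ((a : ℝ) + e * μ') / Δ - ((a : ℝ) - 1 - W + e * μ') / Δ = (W + 1) / Δ := by ring
    rw [h3] at h2
    exact le_trans (by exact_mod_cast h1) h2
  have h1 := card_le_card hsub
  have h2 : (((range (E + 1)).biUnion fun e => (Icc 1 W).biUnion fun a => K e a).card : ℝ) ≤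
      ∑ e ∈ range (E + 1), ∑ a ∈ Icc 1 W, ((K e a).card : ℝ) := by
    have := (card_biUnion_le (s := range (E + 1))
      (t := fun e => (Icc 1 W).biUnion fun a => K e a)).trans
      (sum_le_sum fun e _ => card_biUnion_le (s := Icc 1 W) (t := fun a => K e a))
    exact_mod_cast this
  have h3 : ∑ e ∈ range (E + 1), ∑ a ∈ Icc 1 W, ((K e a).card : ℝ) ≤
      ∑ e ∈ range (E + 1), ∑ a ∈ Icc 1 W, (((W : ℝ) + 1) / Δ + 1) :=
    sum_le_sum fun e _ => sum_le_sum fun a _ => hKc e a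
  simp only [sum_const, card_range, Nat.card_Icc, nsmul_eq_mul, Nat.add_sub_cancel] at h3
  have h4 : ((E + 1 : ℕ) : ℝ) ≤ (N + W) * Δ / (μ * μ') + 2 := by
    have : (E : ℝ) ≤ ((N : ℝ) + W) * Δ / (μ * μ') + 1 := Nat.floor_le (by positivity)
    push_cast; linarith
  calc _ ≤ _ := by exact_mod_cast h1
    _ ≤ _ := h2
    _ ≤ _ := h3
    _ ≤ _ := mul_le_mul_of_nonneg_right h4 (by positivity)

lemma sum_inv_abs (κ j : ℕ) (hj : j < κ) :
    ∑ j' ∈ range κ, 1 / |(j : ℝ) - j'| ≤ 2 * (1 + Real.log κ) := by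
  have hH : ∀ n ≤ κ, ∑ x ∈ range n, 1 / ((x : ℝ) + 1) ≤ 1 + Real.log κ := by
    intro n hn
    have h1 := harmonic_le_one_add_log κ
    have h2 : ((harmonic κ : ℚ) : ℝ) = ∑ x ∈ range κ, 1 / ((x : ℝ) + 1) := by
      simp [harmonic]
    rw [h2] at h1
    refine le_trans ?_ h1
    exact sum_le_sum_of_subset_of_nonneg (range_subset_range.2 hn) fun _ _ _ => by positivity
  obtain ⟨r, rfl⟩ := Nat.exists_eq_add_of_lt hj
  have e : j + r + 1 = j + (1 + r) := by ring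
  rw [e, sum_range_add, sum_range_add]
  rw [← e]
  have h1 : ∑ x ∈ range j, 1 / |(j : ℝ) - x| = ∑ x ∈ range j, 1 / ((x : ℝ) + 1) := by
    rw [← sum_range_reflect]
    apply sum_congr rfl
    intro x hx
    rw [mem_range] at hx
    have : ((j - 1 - x : ℕ) : ℝ) = j - 1 - x := by
      rw [Nat.cast_sub (by omega), Nat.cast_sub (by omega)]; simp
    rw [this, abs_of_nonneg (by have : (0 : ℝ) ≤ x := by positivity
                                linarith)]
    congr 1; ring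
  have h2 : ∑ x ∈ range r, 1 / |(j : ℝ) - ((j + (1 + x) : ℕ) : ℝ)| =
      ∑ x ∈ range r, 1 / ((x : ℝ) + 1) := by
    apply sum_congr rfl
    intro x _
    push_cast
    rw [abs_of_nonpos (by have : (0 : ℝ) ≤ x := by positivity
                          linarith)]
    congr 1; ring
  rw [h1, h2]
  have h3 := hH j (by omega)
  have h4 := hH r (by omega)
  simp
  simp at h3 h4
  linarith

lemma pair_cov (μ μ' : ℝ) (W N : ℕ) (A T d : ℝ) (hA : 0 < A) (hWA : (W : ℝ) ≤ A)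
    (hμ' : A ≤ μ') (hd : 0 < d) (h1 : d ≤ μ - μ') (h2 : μ - μ' ≤ T) (hT : 1 + T ≤ W) :
    ∑ p ∈ range N, ((zz μ W p : ℝ) - W / μ) * ((zz μ' W p : ℝ) - W / μ') ≤
      N * W * (1 + T) / A ^ 2 + 4 * W + 4 * W ^ 2 / d := by
  classical
  have hpos : 0 < μ' := by linarith
  have hμ : 0 < μ := by linarith
  have hΔ : 0 < μ - μ' := by linarith
  have hW0 : (0 : ℝ) ≤ W := by positivity
  have hN0 : (0 : ℝ) ≤ N := by positivity
  have hP := pair_count μ μ' W N hpos (by linarith) (by linarith)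
  have hP2 : ∑ p ∈ range N, (zz μ W p : ℝ) * (zz μ' W p : ℝ) ≤
      ((((range N).filter fun p => zz μ W p ≠ 0 ∧ zz μ' W p ≠ 0).card : ℕ) : ℝ) := by
    rw [card_filter]
    push_cast
    apply sum_le_sum
    intro p _
    have a1 := zz_nonneg μ hμ W p
    have a2 := zz_nonneg μ' hpos W p
    have a3 := zz_le_one μ hμ W p (by linarith)
    have a4 := zz_le_one μ' hpos W p (by linarith)
    split_ifs with h
    · have b1 : zz μ W p = 1 := by omega
      have b2 : zz μ' W p = 1 := by omega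
      rw [b1, b2]; simp
    · by_cases b1 : zz μ W p = 0
      · rw [b1]; simp
      · have b2 : zz μ' W p = 0 := by tauto
        rw [b2]; simp
  have hS := abs_le.1 (zz_sum μ W N)
  have hS' := abs_le.1 (zz_sum μ' W N)
  have hexp : ∑ p ∈ range N, ((zz μ W p : ℝ) - W / μ) * ((zz μ' W p : ℝ) - W / μ') =
      ∑ p ∈ range N, (zz μ W p : ℝ) * (zz μ' W p : ℝ)
        - W / μ' * (∑ p ∈ range N, (zz μ W p : ℝ) - N * (W / μ))
        - W / μ * (∑ p ∈ range N, (zz μ' W p : ℝ) - N * (W / μ'))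
        - N * (W / μ * (W / μ')) := by
    have : ∀ p, ((zz μ W p : ℝ) - W / μ) * ((zz μ' W p : ℝ) - W / μ') =
        (zz μ W p : ℝ) * (zz μ' W p : ℝ) - W / μ' * (zz μ W p : ℝ) - W / μ * (zz μ' W p : ℝ)
          + W / μ * (W / μ') := fun p => by ring
    simp only [this, sum_add_distrib, sum_sub_distrib, ← mul_sum, sum_const, card_range,
      nsmul_eq_mul]
    ring
  have w1 : (W : ℝ) / μ ≤ 1 := by rw [div_le_one hμ]; linarith
  have w2 : (W : ℝ) / μ' ≤ 1 := by rw [div_le_one hpos]; linarith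
  have w3 : 0 ≤ (W : ℝ) / μ := by positivity
  have w4 : 0 ≤ (W : ℝ) / μ' := by positivity
  have e1 : -(W / μ' * (∑ p ∈ range N, (zz μ W p : ℝ) - N * (W / μ))) ≤ W := by nlinarith
  have e2 : -(W / μ * (∑ p ∈ range N, (zz μ' W p : ℝ) - N * (W / μ'))) ≤ W := by nlinarith
  have e3 : (((N : ℝ) + W) * (μ - μ') / (μ * μ') + 2) * (W * ((W + 1) / (μ - μ') + 1)) =
      N * (W / μ * (W / μ')) + N * W * (1 + (μ - μ')) / (μ * μ')
        + W / μ * (W / μ') * (W + 1 + (μ - μ')) + 2 * W * (W + 1 + (μ - μ')) / (μ - μ') := by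
    field_simp
    ring
  have e4 : N * W * (1 + (μ - μ')) / (μ * μ') ≤ N * W * (1 + T) / A ^ 2 := by
    apply div_le_div₀ (by have : 0 ≤ 1 + T := by linarith
                          positivity)
    · apply mul_le_mul_of_nonneg_left (by linarith) (by positivity)
    · positivity
    · nlinarith
  have e5 : W / μ * (W / μ') * (W + 1 + (μ - μ')) ≤ 2 * W := by
    have : (W : ℝ) / μ * (W / μ') ≤ 1 := by nlinarith
    have h3 : 0 ≤ (W : ℝ) / μ * (W / μ') := by positivity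
    nlinarith
  have e6 : 2 * W * (W + 1 + (μ - μ')) / (μ - μ') ≤ 4 * W ^ 2 / d := by
    apply div_le_div₀ (by positivity) _ hd h1
    nlinarith
  rw [hexp]
  linarith

lemma diag_cov (μ : ℝ) (W N : ℕ) (A : ℝ) (hA : 0 < A) (hWA : (W : ℝ) ≤ A) (hμA : A ≤ μ) :
    ∑ p ∈ range N, ((zz μ W p : ℝ) - W / μ) * ((zz μ W p : ℝ) - W / μ) ≤ N * W / A + W := by
  have hμ : 0 < μ := by linarith
  have hW0 : (0 : ℝ) ≤ W := by positivity
  have hN0 : (0 : ℝ) ≤ N := by positivity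
  have w1 : (W : ℝ) / μ ≤ 1 := by rw [div_le_one hμ]; linarith
  have w3 : 0 ≤ (W : ℝ) / μ := by positivity
  have hS := abs_le.1 (zz_sum μ W N)
  have h1 : ∀ p ∈ range N, ((zz μ W p : ℝ) - W / μ) * ((zz μ W p : ℝ) - W / μ) =
      (1 - 2 * (W / μ)) * (zz μ W p : ℝ) + W / μ * (W / μ) := by
    intro p _
    have a1 := zz_nonneg μ hμ W p
    have a3 := zz_le_one μ hμ W p (by linarith)
    rcases (by omega : zz μ W p = 0 ∨ zz μ W p = 1) with h | h <;> rw [h] <;> push_cast <;> ring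
  rw [sum_congr rfl h1, sum_add_distrib, ← mul_sum, sum_const, card_range, nsmul_eq_mul]
  have h2 : (N : ℝ) * (W / μ) ≤ N * W / A := by
    rw [mul_div_assoc]
    exact mul_le_mul_of_nonneg_left (div_le_div_of_nonneg_left hW0 hA hμA) hN0
  set w := (W : ℝ) / μ
  set S := ∑ p ∈ range N, (zz μ W p : ℝ)
  have h3 : (1 - 2 * w) * (S - N * w) ≤ W := by
    rcases le_total 0 (1 - 2 * w) with h | h <;> nlinarith
  have h4 : 0 ≤ N * (w * w) := by positivity
  nlinarith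

lemma variance (κ N W : ℕ) (μ : ℕ → ℝ) (A T : ℝ) (hA : 0 < A) (hWA : (W : ℝ) ≤ A)
    (hμ : ∀ j < κ, A ≤ μ j)
    (hsep : ∀ j j', j < j' → j' < κ → (j' : ℝ) - j ≤ μ j' - μ j ∧ μ j' - μ j ≤ T)
    (hT0 : 0 ≤ T) (hT : 1 + T ≤ W) :
    ∑ p ∈ range N, (∑ j ∈ range κ, (zz (μ j) W p : ℝ) - ∑ j ∈ range κ, W / μ j) ^ 2 ≤
      κ * (N * W / A + W + κ * (N * W * (1 + T) / A ^ 2 + 4 * W)
        + 8 * W ^ 2 * (1 + Real.log κ)) := by
  have h1 : ∀ p ∈ range N,
      (∑ j ∈ range κ, (zz (μ j) W p : ℝ) - ∑ j ∈ range κ, W / μ j) ^ 2 =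
      ∑ j ∈ range κ, ∑ j' ∈ range κ,
        ((zz (μ j) W p : ℝ) - W / μ j) * ((zz (μ j') W p : ℝ) - W / μ j') := by
    intro p _
    rw [← sum_sub_distrib, sq, sum_mul_sum]
  rw [sum_congr rfl h1, sum_comm]
  have h2 : ∀ j ∈ range κ, ∑ p ∈ range N, ∑ j' ∈ range κ,
        ((zz (μ j) W p : ℝ) - W / μ j) * ((zz (μ j') W p : ℝ) - W / μ j') ≤
      N * W / A + W + κ * (N * W * (1 + T) / A ^ 2 + 4 * W)
        + 8 * W ^ 2 * (1 + Real.log κ) := by
    intro j hj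
    rw [mem_range] at hj
    rw [sum_comm]
    have hO : (0 : ℝ) ≤ N * W * (1 + T) / A ^ 2 + 4 * W := by positivity
    have h3 : ∀ j' ∈ range κ, ∑ p ∈ range N,
        ((zz (μ j) W p : ℝ) - W / μ j) * ((zz (μ j') W p : ℝ) - W / μ j') ≤
        (if j' = j then (N : ℝ) * W / A + W else 0) + (N * W * (1 + T) / A ^ 2 + 4 * W)
          + 4 * W ^ 2 * (1 / |(j : ℝ) - j'|) := by
      intro j' hj'
      rw [mem_range] at hj'
      rcases lt_trichotomy j' j with h | h | h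
      · rw [if_neg h.ne]
        have hc : (j' : ℝ) < j := by exact_mod_cast h
        have := pair_cov (μ j) (μ j') W N A T ((j : ℝ) - j') hA hWA (hμ j' hj') (by linarith)
          (hsep j' j h hj).1 (hsep j' j h hj).2 hT
        rw [abs_of_pos (by linarith), mul_one_div]
        linarith
      · subst h
        rw [if_pos rfl]
        have := diag_cov (μ j') W N A hA hWA (hμ j' hj')
        have h5 : (0 : ℝ) ≤ 4 * W ^ 2 * (1 / |(j' : ℝ) - j'|) := by positivity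
        linarith
      · rw [if_neg h.ne']
        have hc : (j : ℝ) < j' := by exact_mod_cast h
        have := pair_cov (μ j') (μ j) W N A T ((j' : ℝ) - j) hA hWA (hμ j hj) (by linarith)
          (hsep j j' h hj').1 (hsep j j' h hj').2 hT
        rw [abs_of_neg (by linarith), mul_one_div, neg_sub]
        simp only [mul_comm ((zz (μ j') W _ : ℝ) - W / μ j')] at this
        linarith
    refine (sum_le_sum h3).trans ?_
    rw [sum_add_distrib, sum_add_distrib, ← mul_sum, sum_const, card_range, nsmul_eq_mul,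
      sum_ite_eq' , if_pos (mem_range.2 hj)]
    have h4 := sum_inv_abs κ j hj
    have h5 : (0 : ℝ) ≤ 4 * W ^ 2 := by positivity
    nlinarith
  refine (sum_le_sum h2).trans ?_
  rw [sum_const, card_range, nsmul_eq_mul]

end Pool.Agent.Lib.MP_476537_nt
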