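import Mathlib
import Pool.Agent.Lib.MP_476537_nt.Basic
import Pool.Agent.Lib.MP_476537_nt.Var

set_option autoImplicit false

namespace Pool.Agent.Lib.MP_476537_nt

open Finset

/-- upper bound for the number of deletions at relative stage `t` in a window of size `≤ H` -/
def hit (s n H t : ℕ) : ℕ := (orb s n t + H) / M (s + t) - orb s n t / M (s + t)

lemma rem_le (s v u H k : ℕ) (h2 : u ≤ v + H) :
    orb s v k + u ≤ orb s u k + v + ∑ t ∈ range k, hit s v H t := by
  induction k with
  | zero => simp [orb, add_comm]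
  | succ k ih =>
    rw [sum_range_succ, orb_succ, orb_succ, hit]
    have h3 : orb s u k ≤ orb s v k + H := (orb_mono s k h2).trans (orb_lip _ _ _ _)
    have h4 : orb s u k / M (s + k) ≤ (orb s v k + H) / M (s + k) := Nat.div_le_div_right h3
    have h5 : orb s v k / M (s + k) ≤ (orb s v k + H) / M (s + k) :=
      Nat.div_le_div_right (by omega)
    have h6 : orb s u k / M (s + k) ≤ orb s u k := Nat.div_le_self _ _
    have h7 : orb s v k / M (s + k) ≤ orb s v k := Nat.div_le_self _ _
    omega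

lemma rr_ge (s k : ℕ) (A : ℝ) (hA : 0 < A) (h : A ≤ M s) : 1 - k / A ≤ rr s k := by
  induction k with
  | zero => simp [rr]
  | succ k ih =>
    rw [rr_succ]
    have h1 : (M s : ℝ) ≤ M (s + k) := by
      exact_mod_cast M_strictMono.monotone (by omega : s ≤ s + k)
    have h2 : 1 / (M (s + k) : ℝ) ≤ 1 / A := one_div_le_one_div_of_le hA (by linarith)
    have h3 := rr_le_one s k
    have h4 := rr_pos s k
    have h5 : 0 ≤ 1 / (M (s + k) : ℝ) := by positivity
    have h6 : ((k + 1 : ℕ) : ℝ) / A = k / A + 1 / A := by push_cast; ring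
    rw [h6]
    nlinarith

lemma le_M_idx (a : ℕ) : a ≤ M (idx a) := (idx_le _ _).1 le_rfl

lemma idx_M (s : ℕ) : idx (M s) = s := by
  apply le_antisymm
  · rw [idx_le]
  · by_contra h
    push Not at h
    have := M_strictMono h
    have := le_M_idx (M s)
    omega

lemma k_le {δ C : ℝ} (hS : Sparse δ C) (A : ℕ) (hC : C ≤ δ * A) :
    ((idx (2 * A) - idx A : ℕ) : ℝ) ≤ 2 * δ * A := by
  have h := hS A A
  rw [Nat.cast_sub (idx_mono (by omega)), two_mul A]
  linarith

lemma orb_half {δ C : ℝ} (hS : Sparse δ C) (hδ : δ ≤ 1 / 4) (A : ℕ) (hA : 0 < A)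
    (hC : C ≤ δ * A) (n t : ℕ) (ht : t ≤ idx (2 * A) - idx A) :
    (n : ℝ) / 2 ≤ orb (idx A) n t := by
  have hA' : (0 : ℝ) < A := by exact_mod_cast hA
  have h1 := k_le hS A hC
  have h2 := orb_lower (idx A) n t
  have h3 := rr_ge (idx A) t A hA' (by exact_mod_cast le_M_idx A)
  have h4 : (t : ℝ) ≤ ((idx (2 * A) - idx A : ℕ) : ℝ) := by exact_mod_cast ht
  have h5 : (t : ℝ) / A ≤ 1 / 2 := by
    rw [div_le_iff₀ hA']; nlinarith
  have h6 : (0 : ℝ) ≤ n := by positivity
  nlinarith

lemma stepA {δ C : ℝ} (hS : Sparse δ C) (hδ : 0 < δ) (A : ℕ) (hA : 0 < A) (hC : C ≤ δ * A)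
    (n H : ℕ) (hH : A ≤ 3 * H) :
    ((∑ t ∈ range (idx (2 * A) - idx A), hit (idx A) n H t : ℕ) : ℝ) ≤ 8 * δ * H := by
  have hA' : (0 : ℝ) < A := by exact_mod_cast hA
  have h1 : ∀ t ∈ range (idx (2 * A) - idx A), (hit (idx A) n H t : ℝ) ≤ H / A + 1 := by
    intro t _
    have hM : A ≤ M (idx A + t) := (le_M_idx A).trans (M_strictMono.monotone (by omega))
    have h2 : hit (idx A) n H t ≤ H / A + 1 := by
      unfold hit
      rw [Nat.add_div (M_pos _)]
      have : H / M (idx A + t) ≤ H / A := Nat.div_le_div_left hM hA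
      generalize H / M (idx A + t) = a at *
      generalize H / A = b at *
      generalize orb (idx A) n t / M (idx A + t) = c at *
      split_ifs <;> omega
    have h3 : ((H / A : ℕ) : ℝ) ≤ (H : ℝ) / A := Nat.cast_div_le
    have h4 : (hit (idx A) n H t : ℝ) ≤ ((H / A : ℕ) : ℝ) + 1 := by exact_mod_cast h2
    linarith
  push_cast
  refine (sum_le_sum h1).trans ?_
  rw [sum_const, card_range, nsmul_eq_mul]
  have h2 := k_le hS A hC
  have h3 : (A : ℝ) ≤ 3 * H := by exact_mod_cast hH
  calc _ ≤ 2 * δ * A * (H / A + 1) := mul_le_mul_of_nonneg_right h2 (by positivity)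
    _ = 2 * δ * (H + A) := by field_simp
    _ ≤ _ := by nlinarith

lemma noHit (A n H t : ℕ) (h : n + H < A) : hit (idx A) n H t = 0 := by
  unfold hit
  have hM : A ≤ M (idx A + t) := (le_M_idx A).trans (M_strictMono.monotone (by omega))
  have := orb_le (idx A) n t
  rw [Nat.div_eq_of_lt (by omega), Nat.zero_sub]

lemma stepB {δ C : ℝ} (hS : Sparse δ C) (hδ : 0 < δ) (hδ4 : δ ≤ 1 / 4) (hC0 : 0 < C)
    (A : ℕ) (hA : 0 < A) (hC : C ≤ δ * A) (n H : ℕ) (hH : H ≤ n) (hn : 0 < n) :
    ((∑ t ∈ range (idx (2 * A) - idx A), hit (idx A) n H t : ℕ) : ℝ) ≤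
      8 * δ * H + 2 * (C + 1) * n / A := by
  classical
  set s := idx A with hs
  set k := idx (2 * A) - idx A with hk
  have hA' : (0 : ℝ) < A := by exact_mod_cast hA
  have hn' : (0 : ℝ) < n := by exact_mod_cast hn
  set P : ℕ → ℕ → Prop := fun c t => orb s n t < c * M (s + t) ∧ c * M (s + t) ≤ orb s n t + H
    with hP
  have h1 : ∀ t ∈ range k, hit s n H t ≤ ∑ c ∈ Icc 1 (2 * n / A), if P c t then 1 else 0 := by
    intro t _
    rw [← card_filter, hit, ← Nat.card_Ioc]
    apply card_le_card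
    intro c hc
    rw [mem_Ioc] at hc
    have hM : A ≤ M (s + t) := (le_M_idx A).trans (M_strictMono.monotone (by omega))
    have hMp := M_pos (s + t)
    have h2 := orb_le s n t
    have h3 : c * M (s + t) ≤ orb s n t + H := (Nat.le_div_iff_mul_le hMp).1 hc.2
    have h4 : orb s n t < c * M (s + t) := (Nat.div_lt_iff_lt_mul hMp).1 hc.1
    rw [mem_filter, mem_Icc]
    refine ⟨⟨Nat.succ_le_of_lt (lt_of_le_of_lt (Nat.zero_le _) hc.1), ?_⟩, h4, h3⟩
    rw [Nat.le_div_iff_mul_le hA]
    have := Nat.mul_le_mul_left c hM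
    omega
  have h2 : ∀ c ∈ Icc 1 (2 * n / A), ((∑ t ∈ range k, if P c t then 1 else 0 : ℕ) : ℝ) ≤
      δ * (4 * A * H / n + 1) + C := by
    intro c hc
    rw [mem_Icc] at hc
    rw [← card_filter]
    rcases ((range k).filter (P c)).eq_empty_or_nonempty with he | hne
    · rw [he]; simp; positivity
    · set t0 := ((range k).filter (P c)).min' hne with ht0
      have hm := ((range k).filter (P c)).min'_mem hne
      rw [← ht0, mem_filter, mem_range] at hm
      obtain ⟨hm1, hm2, hm3⟩ := hm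
      have hcard : ((range k).filter (P c)).card ≤
          (Ico (idx (M (s + t0))) (idx (M (s + t0) + (H / c + 1)))).card := by
        apply card_le_card_of_injOn (fun t => s + t)
        · intro t ht
          have h0 : t0 ≤ t := min'_le _ _ ht
          simp only [coe_filter, Set.mem_ofPred_eq, mem_range] at ht
          simp only [coe_Ico, Set.mem_Ico]
          rw [idx_M, lt_idx]
          refine ⟨by omega, ?_⟩
          have h3 : orb s n t ≤ orb s n t0 := orb_anti s n h0
          have h4 := ht.2.2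
          have h5 : H < (H / c + 1) * c := by
            have := Nat.lt_div_mul_add (a := H) (by omega : 0 < c)
            nlinarith
          by_contra hh
          push Not at hh
          have := Nat.mul_le_mul_left c hh
          nlinarith
        · intro a _ b _ hab
          simpa using hab
      rw [Nat.card_Ico] at hcard
      have h3 := hS (M (s + t0)) (H / c + 1)
      have h4 : ((((range k).filter (P c)).card : ℕ) : ℝ) ≤
          (idx (M (s + t0) + (H / c + 1)) : ℝ) - idx (M (s + t0)) := by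
        rw [← Nat.cast_sub (idx_mono (Nat.le_add_right _ _))]; exact_mod_cast hcard
      have h5 := orb_half hS hδ4 A hA hC n t0 hm1.le
      have h6 : M (s + t0) < 2 * A := by rw [← lt_idx]; omega
      have h7 : (orb s n t0 : ℝ) < c * (2 * A) := by
        have : orb s n t0 < c * (2 * A) := hm2.trans_le (Nat.mul_le_mul_left c h6.le)
        exact_mod_cast this
      have hc' : (0 : ℝ) < c := by exact_mod_cast hc.1
      have h8 : ((H / c : ℕ) : ℝ) ≤ 4 * A * H / n := by
        refine Nat.cast_div_le.trans ?_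
        rw [div_le_div_iff₀ hc' hn']
        have : (0 : ℝ) ≤ H := by positivity
        nlinarith
      push_cast at h3
      nlinarith
  have h3 := sum_le_sum h1
  rw [sum_comm] at h3
  have h4 : ((∑ t ∈ range k, hit s n H t : ℕ) : ℝ) ≤
      ∑ c ∈ Icc 1 (2 * n / A), ((∑ t ∈ range k, if P c t then 1 else 0 : ℕ) : ℝ) := by
    exact_mod_cast h3
  refine h4.trans ((sum_le_sum h2).trans ?_)
  rw [sum_const, Nat.card_Icc, Nat.add_sub_cancel, nsmul_eq_mul]
  have h5 : ((2 * n / A : ℕ) : ℝ) ≤ 2 * n / A := by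
    have := Nat.cast_div_le (α := ℝ) (m := 2 * n) (n := A)
    push_cast at this; exact this
  calc _ ≤ 2 * n / A * (δ * (4 * A * H / n + 1) + C) :=
        mul_le_mul_of_nonneg_right h5 (by positivity)
    _ = 8 * δ * H + 2 * (C + δ) * n / A := by field_simp; ring
    _ ≤ _ := by gcongr; linarith

/-- rescaled moduli of a block -/
noncomputable def mu (s j : ℕ) : ℝ := M (s + j) / rr s j

lemma mu_ge (s j : ℕ) : (M (s + j) : ℝ) ≤ mu s j := by
  unfold mu
  rw [le_div_iff₀ (rr_pos s j)]
  have := rr_le_one s j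
  have : (0 : ℝ) ≤ M (s + j) := by positivity
  nlinarith

lemma mu_succ (s j : ℕ) : mu s j + 1 ≤ mu s (j + 1) := by
  unfold mu
  have h1 := rr_pos s j
  have h2 := rr_pos s (j + 1)
  have h3 : rr s (j + 1) ≤ rr s j := by
    rw [rr_succ]; have := fac_le (s + j); nlinarith
  have h4 : (M (s + j) : ℝ) + 1 ≤ M (s + (j + 1)) := by
    exact_mod_cast M_lt_succ (s + j)
  have h5 := rr_le_one s j
  calc (M (s + j) : ℝ) / rr s j + 1 ≤ (M (s + j) + 1) / rr s j := by
        rw [add_div]
        have : 1 ≤ 1 / rr s j := by rw [le_div_iff₀ h1]; linarith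
        linarith
    _ ≤ M (s + (j + 1)) / rr s j := div_le_div_of_nonneg_right h4 h1.le
    _ ≤ _ := div_le_div_of_nonneg_left (by positivity) h2 h3

lemma mu_sep (s j d : ℕ) : mu s j + d ≤ mu s (j + d) := by
  induction d with
  | zero => simp
  | succ d ih =>
    have := mu_succ s (j + d)
    rw [← add_assoc]; push_cast; linarith

lemma hit_le_zz (s x H j g p : ℕ) (hr : 1 / 2 ≤ rr s j) (hj : 4 * j ≤ H) (hg : 2 * g ≤ H)
    (hp : p ≤ x) (hp2 : x ≤ p + g) : (hit s x H j : ℝ) ≤ zz (mu s j) (3 * H) p := by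
  have hM : (0 : ℝ) < M (s + j) := by exact_mod_cast M_pos _
  have h1 := orb_lower s x j
  have h2 := orb_upper s x j
  have hr0 := rr_pos s j
  set v := orb s x j
  set m := M (s + j)
  have e1 : ∀ y : ℝ, y / mu s j = y * rr s j / m := by
    intro y; unfold mu; rw [div_div_eq_mul_div]
  have h3 : ⌊(p : ℝ) / mu s j⌋ ≤ ((v / m : ℕ) : ℤ) := by
    rw [← Nat.floor_div_eq_div (K := ℝ), Int.natCast_floor_eq_floor (by positivity)]
    apply Int.floor_le_floor
    rw [e1]
    apply div_le_div_of_nonneg_right _ hM.le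
    have : (p : ℝ) ≤ x := by exact_mod_cast hp
    nlinarith
  have h4 : (((v + H) / m : ℕ) : ℤ) ≤ ⌊((p : ℝ) + (3 * H : ℕ)) / mu s j⌋ := by
    rw [← Nat.floor_div_eq_div (K := ℝ), Int.natCast_floor_eq_floor (by positivity)]
    apply Int.floor_le_floor
    rw [e1]
    apply div_le_div_of_nonneg_right _ hM.le
    have a1 : (x : ℝ) ≤ p + g := by exact_mod_cast hp2
    have a2 : 4 * (j : ℝ) ≤ H := by exact_mod_cast hj
    have a3 : 2 * (g : ℝ) ≤ H := by exact_mod_cast hg
    have a4 : (0 : ℝ) ≤ H := by positivity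
    push_cast
    nlinarith
  have h5 : v / m ≤ (v + H) / m := Nat.div_le_div_right (by omega)
  have h6 : (hit s x H j : ℤ) ≤ zz (mu s j) (3 * H) p := by
    unfold hit zz
    rw [Nat.cast_sub h5]
    omega
  exact_mod_cast h6

lemma block_rr (A a T j : ℕ) (hA : 0 < A) (ha : A ≤ a) (hj : j ≤ T) :
    1 - (T : ℝ) / A ≤ rr (idx a) j := by
  have hA' : (0 : ℝ) < A := by exact_mod_cast hA
  have h1 := rr_ge (idx a) j A hA' (by exact_mod_cast ha.trans (le_M_idx a))
  have h2 : (j : ℝ) / A ≤ T / A := div_le_div_of_nonneg_right (by exact_mod_cast hj) hA'.le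
  linarith

lemma block_var (A a T H N : ℕ) (Λ : ℝ) (hT : 1 ≤ T) (hTH : 4 * T ≤ H) (hHA : 3 * H < A)
    (ha : A ≤ a) (ha2 : a + T ≤ 2 * A) (hΛ : 1 + Real.log T ≤ Λ) :
    ∑ p ∈ range N, (∑ j ∈ range (idx (a + T) - idx a), (zz (mu (idx a) j) (3 * H) p : ℝ)
        - ∑ j ∈ range (idx (a + T) - idx a), ((3 * H : ℕ) : ℝ) / mu (idx a) j) ^ 2 ≤
      T * (3 * N * H / A + 18 * N * H * T ^ 2 / A ^ 2 + 76 * H ^ 2 * Λ) := by
  set κ := idx (a + T) - idx a with hκ
  have hκT : κ ≤ T := by have := idx_add_le a T; omega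
  have hA : 0 < A := by omega
  have hA' : (0 : ℝ) < A := by exact_mod_cast hA
  have hT' : (1 : ℝ) ≤ T := by exact_mod_cast hT
  have hTH' : 4 * (T : ℝ) ≤ H := by exact_mod_cast hTH
  have hHA' : 3 * (H : ℝ) < A := by exact_mod_cast hHA
  have hμ : ∀ j, (a : ℝ) ≤ mu (idx a) j := by
    intro j
    refine le_trans ?_ (mu_ge _ _)
    exact_mod_cast (le_M_idx a).trans (M_strictMono.monotone (by omega))
  have haA : (A : ℝ) ≤ a := by exact_mod_cast ha
  have hV := variance κ N (3 * H) (mu (idx a)) A (5 * T) hA' (by push_cast; linarith)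
    (fun j _ => haA.trans (hμ j)) (by
      intro j j' hjj hj'
      constructor
      · obtain ⟨d, rfl⟩ := Nat.exists_eq_add_of_le hjj.le
        have := mu_sep (idx a) j d
        push_cast; linarith
      · have h1 := hμ j
        have h2 := block_rr A a T j' hA ha (by omega)
        have h3 : M (idx a + j') < a + T := by rw [← lt_idx]; omega
        have h4 : (M (idx a + j') : ℝ) ≤ a + T := by exact_mod_cast h3.le
        have h5 : (a : ℝ) + T ≤ 2 * A := by exact_mod_cast ha2
        have h6 : mu (idx a) j' ≤ a + 5 * T := by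
          unfold mu
          rw [div_le_iff₀ (rr_pos _ _)]
          have h7 : (T : ℝ) / A * (a + 5 * T) ≤ 4 * T := by
            rw [div_mul_eq_mul_div, div_le_iff₀ hA']
            nlinarith
          have h8 : (0 : ℝ) ≤ a + 5 * T := by positivity
          nlinarith
        linarith) (by positivity) (by push_cast; linarith)
  refine hV.trans ?_
  have hκ' : (κ : ℝ) ≤ T := by exact_mod_cast hκT
  have hl0 : 0 ≤ Real.log T := Real.log_nonneg hT'
  have hl : Real.log κ ≤ Real.log T := by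
    rcases Nat.eq_zero_or_pos κ with h | h
    · rw [h]; simpa using hl0
    · exact Real.log_le_log (by exact_mod_cast h) hκ'
  have hlk : 0 ≤ Real.log κ := Real.log_natCast_nonneg κ
  have hN : (0 : ℝ) ≤ N := by positivity
  have hH : (0 : ℝ) ≤ H := by positivity
  push_cast
  apply mul_le_mul hκ' _ (by positivity) (by positivity)
  have e1 : (κ : ℝ) * (N * (3 * H) * (1 + 5 * T) / A ^ 2 + 4 * (3 * H)) ≤
      T * (N * (3 * H) * (6 * T) / A ^ 2 + 4 * (3 * H)) := by
    gcongr; linarith
  have e2 : (T : ℝ) * (N * (3 * H) * (6 * T) / A ^ 2 + 4 * (3 * H)) =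
      18 * N * H * T ^ 2 / A ^ 2 + 12 * H * T := by ring
  have e3 : (N : ℝ) * (3 * H) / A = 3 * N * H / A := by ring
  have e4 : 3 * (H : ℝ) + 12 * H * T ≤ 4 * H ^ 2 * Λ := by
    have : (H : ℝ) ^ 2 ≤ H ^ 2 * Λ := by nlinarith
    nlinarith
  have e5 : 8 * (3 * (H : ℝ)) ^ 2 * (1 + Real.log κ) ≤ 72 * H ^ 2 * Λ := by
    have : 1 + Real.log κ ≤ Λ := by linarith
    nlinarith
  linarith

end Pool.Agent.Lib.MP_476537_nt
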