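import Mathlib
import Pool.Agent.Lib.MP_476537_nt.Step

set_option autoImplicit false

namespace Pool.Agent.Lib.MP_476537_nt

open Finset

lemma amgm (z m l : ℝ) (hl : 0 < l) : z ≤ m + l + (z - m) ^ 2 / (4 * l) := by
  have h : (z - m) ^ 2 / (4 * l) + l - (z - m) = (z - m - 2 * l) ^ 2 / (4 * l) := by
    field_simp; ring
  have : 0 ≤ (z - m - 2 * l) ^ 2 / (4 * l) := by positivity
  linarith

lemma orb_block (A T n b : ℕ) :
    orb (idx A) n (idx (A + (b + 1) * T) - idx A) =
      orb (idx (A + b * T)) (orb (idx A) n (idx (A + b * T) - idx A))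
        (idx (A + b * T + T) - idx (A + b * T)) := by
  have h1 : idx A ≤ idx (A + b * T) := idx_mono (by omega)
  have h2 : idx (A + b * T) ≤ idx (A + b * T + T) := idx_mono (by omega)
  have e : A + (b + 1) * T = A + b * T + T := by ring
  have e2 : idx (A + b * T + T) - idx A =
      (idx (A + b * T) - idx A) + (idx (A + b * T + T) - idx (A + b * T)) := by omega
  rw [e, e2, orb_add]
  congr 1
  omega

lemma stepC {δ C : ℝ} (hS : Sparse δ C) (hδ : 0 < δ) (hδ2 : δ ≤ 1 / 20)
    (A : ℕ) (hC : C ≤ δ * A) (T B H X : ℕ) (Λ : ℝ) (hT : 1 ≤ T) (hB : B * T = A)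
    (hTH : 4 * T ≤ H) (hHA : 3 * H < A) (hΛ : 1 + Real.log T ≤ Λ)
    (S : Finset ℕ) (n : ℕ → ℕ) (hn : ∀ i ∈ S, H ≤ n i ∧ n i ≤ X)
    (hsp : ∀ i ∈ S, ∀ i' ∈ S, i < i' → n i + H ≤ n i')
    (hbad : ∀ i ∈ S, (orb (idx A) (n i + H) (idx (2 * A) - idx A) : ℝ) <
      orb (idx A) (n i) (idx (2 * A) - idx A) + (1 - 10 * δ) * H) :
    (S.card : ℝ) ≤ (3 * (X + 1) * A / (T * H ^ 2) + 18 * (X + 1) * T / H ^ 2
      + 76 * A ^ 2 * Λ / (T * H)) / (4 * δ ^ 2) := by
  classical
  have hA : 0 < A := by omega
  have hA' : (0 : ℝ) < A := by exact_mod_cast hA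
  have hB0 : 0 < B := by
    rcases Nat.eq_zero_or_pos B with h | h
    · rw [h] at hB; omega
    · exact h
  have hB' : (0 : ℝ) < B := by exact_mod_cast hB0
  have hH' : (4 : ℝ) ≤ H := by exact_mod_cast (by omega : 4 ≤ H)
  have hT' : (1 : ℝ) ≤ T := by exact_mod_cast hT
  set g := H / 2 with hg
  have hg3 : (H : ℝ) ≤ 3 * g := by exact_mod_cast (by omega : H ≤ 3 * g)
  have hg2 : 2 * (g : ℝ) ≤ H := by exact_mod_cast (by omega : 2 * g ≤ H)
  have hg0 : (0 : ℝ) < g := by linarith
  set s : ℕ → ℕ := fun b => idx (A + b * T) with hs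
  set κ : ℕ → ℕ := fun b => idx (A + b * T + T) - idx (A + b * T) with hκ
  set x : ℕ → ℕ → ℕ := fun i b => orb (idx A) (n i) (s b - idx A) with hx
  set y : ℕ → ℕ → ℕ := fun i b => orb (idx A) (n i + H) (s b - idx A) with hy
  set R : ℕ → ℕ → ℝ := fun i b => if x i b + g ≤ y i b then
    ((∑ j ∈ range (κ b), hit (s b) (x i b) H j : ℕ) : ℝ) else 0 with hR
  have hR0 : ∀ i b, 0 ≤ R i b := by
    intro i b; simp only [hR]; split_ifs <;> positivity
  have hQ : ∀ i b, ((x i b : ℝ) + H ≤ y i b + ∑ b' ∈ range b, R i b') ∨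
      10 * δ * H < ∑ b' ∈ range b, R i b' := by
    intro i b
    induction b with
    | zero => left; simp [hx, hy, hs, orb]
    | succ b ih =>
      rw [sum_range_succ]
      by_cases h2 : 10 * δ * H < ∑ b' ∈ range b, R i b'
      · right; have := hR0 i b; linarith
      · left
        have h1 := ih.resolve_right h2
        push Not at h2
        have hal : x i b + g ≤ y i b := by
          have : (x i b : ℝ) + g ≤ y i b := by nlinarith
          exact_mod_cast this
        have h3 : y i b ≤ x i b + H := orb_lip _ _ _ _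
        have h4 := rem_le (s b) (x i b) (y i b) H (κ b) h3
        have h5 : x i (b + 1) = orb (s b) (x i b) (κ b) := orb_block A T (n i) b
        have h6 : y i (b + 1) = orb (s b) (y i b) (κ b) := orb_block A T (n i + H) b
        rw [← h5, ← h6] at h4
        have h7 : R i b = ((∑ j ∈ range (κ b), hit (s b) (x i b) H j : ℕ) : ℝ) := by
          simp only [hR]; rw [if_pos hal]
        rw [h7]
        have h8 : (x i (b + 1) : ℝ) + y i b ≤ y i (b + 1) + x i b +
            ((∑ j ∈ range (κ b), hit (s b) (x i b) H j : ℕ) : ℝ) := by exact_mod_cast h4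
        linarith
  have hsB : s B = idx (2 * A) := by simp only [hs]; rw [hB, two_mul]
  have hbig : ∀ i ∈ S, 10 * δ * H < ∑ b ∈ range B, R i b := by
    intro i hi
    rcases hQ i B with h | h
    · have := hbad i hi
      simp only [hx, hy, hsB] at h
      linarith
    · exact h
  set Z : ℕ → ℕ → ℝ := fun b p => ∑ j ∈ range (κ b), (zz (mu (s b) j) (3 * H) p : ℝ) with hZ
  set m : ℕ → ℝ := fun b => ∑ j ∈ range (κ b), ((3 * H : ℕ) : ℝ) / mu (s b) j with hm
  set l : ℝ := δ * H / B with hl
  have hl0 : 0 < l := by positivity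
  set J : ℕ → ℕ → Finset ℕ := fun i b =>
    if x i b + g ≤ y i b then Ioc (x i b - g) (x i b) else ∅ with hJ
  have hbT : ∀ b < B, A + b * T + T ≤ 2 * A := by
    intro b hb
    have : (b + 1) * T ≤ B * T := Nat.mul_le_mul_right T hb
    nlinarith
  have hκT : ∀ b, κ b ≤ T := by
    intro b; have := idx_add_le (A + b * T) T; simp only [hκ]; omega
  have hm0 : ∀ b, 0 ≤ m b := by
    intro b
    apply sum_nonneg
    intro j _
    have : 0 ≤ mu (s b) j := le_trans (by positivity) (mu_ge _ _)
    positivity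
  have hRb : ∀ i ∈ S, ∀ b ∈ range B,
      R i b ≤ m b + l + (∑ p ∈ J i b, (Z b p - m b) ^ 2) / (4 * l * g) := by
    intro i hi b hb
    rw [mem_range] at hb
    simp only [hR, hJ]
    split_ifs with hal
    · have hxg : g ≤ x i b := by
        have h1 := orb_half hS (by linarith) A hA hC (n i) (s b - idx A) (by
          have : s b ≤ idx (2 * A) := idx_mono (by have := hbT b hb; omega)
          omega)
        have h2 : (H : ℝ) ≤ n i := by exact_mod_cast (hn i hi).1
        have : (g : ℝ) ≤ x i b := by simp only [hx]; linarith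
        exact_mod_cast this
      set r : ℝ := ((∑ j ∈ range (κ b), hit (s b) (x i b) H j : ℕ) : ℝ) with hr
      have h1 : ∀ p ∈ Ioc (x i b - g) (x i b), r ≤ m b + l + (Z b p - m b) ^ 2 / (4 * l) := by
        intro p hp
        rw [mem_Ioc] at hp
        refine le_trans ?_ (amgm (Z b p) (m b) l hl0)
        simp only [hr, hZ]
        push_cast
        apply sum_le_sum
        intro j hj
        rw [mem_range] at hj
        have h3 := hκT b
        apply hit_le_zz (s b) (x i b) H j g p _ (by omega) (by omega) hp.2 (by omega)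
        have h4 := block_rr A (A + b * T) T j hA (by omega) (by omega)
        have h5 : (T : ℝ) / A ≤ 1 / 2 := by
          rw [div_le_iff₀ hA']
          have : 2 * T ≤ A := by omega
          have : 2 * (T : ℝ) ≤ A := by exact_mod_cast this
          linarith
        simp only [hs]; linarith
      have h2 := sum_le_sum h1
      rw [sum_const, sum_add_distrib, sum_const, Nat.card_Ioc, ← sum_div,
        (by omega : x i b - (x i b - g) = g), nsmul_eq_mul, nsmul_eq_mul] at h2
      have h3 : (∑ p ∈ Ioc (x i b - g) (x i b), (Z b p - m b) ^ 2) / (4 * l) =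
          g * ((∑ p ∈ Ioc (x i b - g) (x i b), (Z b p - m b) ^ 2) / (4 * l * g)) := by
        field_simp
      rw [h3, ← mul_add] at h2
      exact le_of_mul_le_mul_left h2 hg0
    · have := hm0 b
      simp only [sum_empty, zero_div]
      linarith
  have hmsum : ∑ b ∈ range B, m b ≤ 6 * δ * H := by
    have h1 : ∀ b ∈ range B, m b ≤ (κ b : ℝ) * (3 * H / A) := by
      intro b _
      have h2 : ∀ j ∈ range (κ b), ((3 * H : ℕ) : ℝ) / mu (s b) j ≤ 3 * H / A := by
        intro j _
        push_cast
        apply div_le_div_of_nonneg_left (by positivity) hA'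
        refine le_trans ?_ (mu_ge _ _)
        have : A ≤ M (s b + j) := (Nat.le_add_right A (b * T)).trans
          ((le_M_idx _).trans (M_strictMono.monotone (Nat.le_add_right _ _)))
        exact_mod_cast this
      refine (sum_le_sum h2).trans ?_
      rw [sum_const, card_range, nsmul_eq_mul]
    refine (sum_le_sum h1).trans ?_
    rw [← sum_mul]
    have h2 : ∀ b, ∑ b' ∈ range b, κ b' + idx A = s b := by
      intro b
      induction b with
      | zero => simp [hs]
      | succ b ih =>
        rw [sum_range_succ]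
        have e : A + (b + 1) * T = A + b * T + T := by ring
        have h3 : idx (A + b * T) ≤ idx (A + b * T + T) := idx_mono (by omega)
        simp only [hs, hκ] at ih ⊢
        rw [e]; omega
    have h3 : ∑ b' ∈ range B, κ b' = idx (2 * A) - idx A := by
      have := h2 B; rw [hsB] at this; omega
    have h4 : ∑ b' ∈ range B, (κ b' : ℝ) ≤ 2 * δ * A := by
      have := k_le hS A hC
      rw [← h3] at this
      exact_mod_cast this
    calc _ ≤ 2 * δ * A * (3 * H / A) := mul_le_mul_of_nonneg_right h4 (by positivity)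
      _ = _ := by field_simp; ring
  have hkey : ∀ i ∈ S, 3 * δ * H ≤
      ∑ b ∈ range B, (∑ p ∈ J i b, (Z b p - m b) ^ 2) / (4 * l * g) := by
    intro i hi
    have h1 := hbig i hi
    have h2 := sum_le_sum (hRb i hi)
    rw [sum_add_distrib, sum_add_distrib, sum_const, card_range, nsmul_eq_mul] at h2
    have h3 : (B : ℝ) * l = δ * H := by simp only [hl]; field_simp
    linarith
  set V : ℝ := T * (3 * ((X + 1 : ℕ) : ℝ) * H / A + 18 * ((X + 1 : ℕ) : ℝ) * H * T ^ 2 / A ^ 2
    + 76 * H ^ 2 * Λ) with hV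
  have hVb : ∀ b ∈ range B, ∑ i ∈ S, (∑ p ∈ J i b, (Z b p - m b) ^ 2) / (4 * l * g) ≤
      V / (4 * l * g) := by
    intro b hb
    rw [mem_range] at hb
    rw [← sum_div]
    apply div_le_div_of_nonneg_right _ (by positivity)
    have hd : ∀ i ∈ S, ∀ i' ∈ S, i < i' → Disjoint (J i b) (J i' b) := by
      intro i hi i' hi' hlt
      simp only [hJ]
      split_ifs with h1 h2
      · have h3 : y i b ≤ x i' b := orb_mono _ _ (hsp i hi i' hi' hlt)
        rw [disjoint_left]
        intro p hp hp'
        rw [mem_Ioc] at hp hp'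
        omega
      · simp
      · simp
      · simp
    have hdisj : (S : Set ℕ).PairwiseDisjoint (fun i => J i b) := by
      intro i hi i' hi' hne
      rcases lt_or_gt_of_ne hne with h | h
      · exact hd i hi i' hi' h
      · exact (hd i' hi' i hi h).symm
    rw [← sum_biUnion hdisj]
    refine le_trans ?_ (block_var A (A + b * T) T H (X + 1) Λ hT hTH hHA (by omega) (hbT b hb) hΛ)
    apply sum_le_sum_of_subset_of_nonneg
    · intro p hp
      rw [mem_biUnion] at hp
      obtain ⟨i, hi, hp⟩ := hp
      simp only [hJ] at hp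
      split_ifs at hp with h1
      · rw [mem_Ioc] at hp
        have h2 : x i b ≤ n i := orb_le _ _ _
        have := (hn i hi).2
        rw [mem_range]; omega
      · simp at hp
    · intro p _ _; positivity
  have h1 := sum_le_sum hkey
  rw [sum_comm, sum_const, nsmul_eq_mul] at h1
  have h2 := sum_le_sum hVb
  rw [sum_const, card_range, nsmul_eq_mul] at h2
  have hΛ0 : 0 ≤ Λ := by have := Real.log_nonneg hT'; linarith
  have hV0 : 0 ≤ V := by positivity
  have h3 : V / (4 * l * g) ≤ V / (4 * l * (H / 3)) :=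
    div_le_div_of_nonneg_left hV0 (by positivity) (by nlinarith)
  have h4 : (S.card : ℝ) * (3 * δ * H) ≤ B * (V / (4 * l * (H / 3))) := by
    refine (h1.trans h2).trans (mul_le_mul_of_nonneg_left h3 hB'.le)
  have hBA : (A : ℝ) = B * T := by exact_mod_cast hB.symm
  rw [← le_div_iff₀ (by positivity)] at h4
  refine h4.trans (le_of_eq ?_)
  simp only [hV, hl]
  rw [hBA]
  push_cast
  field_simp

end Pool.Agent.Lib.MP_476537_nt
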