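import Mathlib
import Pool.Agent.Lib.MP_476537_nt.Mid

set_option autoImplicit false

namespace Pool.Agent.Lib.MP_476537_nt

open Finset

lemma step_det {δ C : ℝ} (hS : Sparse δ C) (hδ : 0 < δ) (hδ2 : δ ≤ 1 / 20) (hC0 : 0 < C)
    (A : ℕ) (hA : 0 < A) (hC : C ≤ δ * A) (n H : ℕ)
    (h : A ≤ 3 * H ∨ n < H ∨ (C + 1) * n ≤ δ * H * A) :
    (orb (idx A) n (idx (2 * A) - idx A) : ℝ) + (1 - 10 * δ) * H ≤
      orb (idx A) (n + H) (idx (2 * A) - idx A) := by
  have h1 := rem_le (idx A) n (n + H) H (idx (2 * A) - idx A) le_rfl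
  have hH : (0 : ℝ) ≤ H := by positivity
  have hA' : (0 : ℝ) < A := by exact_mod_cast hA
  have h2 : ((∑ t ∈ range (idx (2 * A) - idx A), hit (idx A) n H t : ℕ) : ℝ) ≤ 10 * δ * H := by
    by_cases ha : A ≤ 3 * H
    · have := stepA hS hδ A hA hC n H ha
      nlinarith
    · by_cases hb : n + H < A
      · rw [sum_eq_zero fun t _ => noHit A n H t hb]
        simp; positivity
      · have hc : (C + 1) * n ≤ δ * H * A := by
          rcases h with h | h | h
          · exact absurd h ha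
          · omega
          · exact h
        by_cases hd : H ≤ n
        · have := stepB hS hδ (by linarith) hC0 A hA hC n H hd (by omega)
          have h3 : 2 * (C + 1) * n / A ≤ 2 * δ * H := by
            rw [div_le_iff₀ hA']; nlinarith
          linarith
        · omega
  have h3 : (orb (idx A) n (idx (2 * A) - idx A) : ℝ) + (n + H) ≤
      orb (idx A) (n + H) (idx (2 * A) - idx A) + n +
        ((∑ t ∈ range (idx (2 * A) - idx A), hit (idx A) n H t : ℕ) : ℝ) := by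
    exact_mod_cast h1
  linarith

/-- bound for the number of windows damaged in one dyadic range -/
noncomputable def beta (δ C η Λ : ℝ) (T X : ℕ) : ℝ :=
  if 3 * η ^ 2 * δ < (C + 1) * X then
    (3 * (X + 1) * ((C + 1) * X / δ) / (T * η ^ 3) + 18 * (X + 1) * T / η ^ 2
      + 76 * ((C + 1) * X / δ) ^ 2 * Λ / (T * η ^ 3)) / (4 * δ ^ 2) else 0

lemma beta_nonneg (δ C η Λ : ℝ) (T X : ℕ) (hδ : 0 < δ) (hC : 0 < C) (hη : 0 < η) (hΛ : 0 ≤ Λ) :
    0 ≤ beta δ C η Λ T X := by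
  unfold beta; split_ifs <;> positivity

lemma step {δ C : ℝ} (hS : Sparse δ C) (hδ : 0 < δ) (hδ2 : δ ≤ 1 / 20) (hC0 : 0 < C)
    (t τ : ℕ) (hC : C ≤ δ * (2 ^ t : ℕ)) (η ηm Λ : ℝ) (hm : ηm ≤ η) (X : ℕ)
    (hΛ : 1 + Real.log (2 ^ τ : ℕ) ≤ Λ) (hT : 4 * ((2 ^ τ : ℕ) : ℝ) ≤ ηm)
    (S : Finset ℕ) (n n' : ℕ → ℕ) (h1 : ∀ i ∈ S, (n i : ℝ) + η ≤ n' i ∧ n' i ≤ X)
    (hsp : ∀ i ∈ S, ∀ i' ∈ S, i < i' → n' i ≤ n i')
    (hbad : ∀ i ∈ S, (orb (idx (2 ^ t)) (n' i) (idx (2 * 2 ^ t) - idx (2 ^ t)) : ℝ) <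
      orb (idx (2 ^ t)) (n i) (idx (2 * 2 ^ t) - idx (2 ^ t)) + (1 - 10 * δ) * η) :
    (S.card : ℝ) ≤ beta δ C ηm Λ (2 ^ τ) X := by
  set A := 2 ^ t with hAdef
  set T := 2 ^ τ with hTdef
  have hA : 0 < A := by positivity
  have hT1 : 1 ≤ T := Nat.one_le_two_pow
  have hT1' : (1 : ℝ) ≤ T := by exact_mod_cast hT1
  have hΛ0 : 0 ≤ Λ := by have := Real.log_nonneg hT1'; linarith
  have hm0 : 0 < ηm := by linarith
  rcases S.eq_empty_or_nonempty with rfl | ⟨i0, hi0⟩
  · simpa using beta_nonneg δ C ηm Λ T X hδ hC0 hm0 hΛ0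
  set H := ⌈η⌉₊ with hH
  have hηH : η ≤ H := Nat.le_ceil η
  have h2 : ∀ i ∈ S, n i + H ≤ n' i := by
    intro i hi
    have h3 := (h1 i hi).1
    have h4 : n i ≤ n' i := by
      have : (n i : ℝ) ≤ n' i := by linarith
      exact_mod_cast this
    have : H ≤ n' i - n i := by
      rw [hH, Nat.ceil_le, Nat.cast_sub h4]; linarith
    omega
  have h3 : ∀ i ∈ S, (orb (idx A) (n i + H) (idx (2 * A) - idx A) : ℝ) <
      orb (idx A) (n i) (idx (2 * A) - idx A) + (1 - 10 * δ) * H := by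
    intro i hi
    have h4 : (orb (idx A) (n i + H) (idx (2 * A) - idx A) : ℝ) ≤
        orb (idx A) (n' i) (idx (2 * A) - idx A) := by
      exact_mod_cast orb_mono _ _ (h2 i hi)
    have h5 := hbad i hi
    have h6 : (1 - 10 * δ) * η ≤ (1 - 10 * δ) * H :=
      mul_le_mul_of_nonneg_left hηH (by linarith)
    linarith
  have h4 : ∀ i ∈ S, 3 * H < A ∧ H ≤ n i ∧ δ * H * A < (C + 1) * n i := by
    intro i hi
    by_contra hc
    have h5 := step_det hS hδ hδ2 hC0 A hA hC (n i) H (by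
      by_contra hd
      push Not at hd
      exact hc hd)
    have := h3 i hi
    linarith
  obtain ⟨a1, a2, a3⟩ := h4 i0 hi0
  have hTH : 4 * T ≤ H := by
    have : 4 * (T : ℝ) ≤ H := by linarith
    exact_mod_cast this
  have hτ : τ ≤ t := by
    have : 2 ^ τ ≤ 2 ^ t := by omega
    exact (Nat.pow_le_pow_iff_right (by norm_num)).1 this
  have hB : 2 ^ (t - τ) * T = A := by rw [hTdef, ← pow_add, Nat.sub_add_cancel hτ]
  have h5 := stepC hS hδ hδ2 A hC T (2 ^ (t - τ)) H X Λ hT1 hB hTH a1 hΛ S n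
    (fun i hi => ⟨(h4 i hi).2.1, by have := h2 i hi; have := (h1 i hi).2; omega⟩)
    (fun i hi i' hi' h => (h2 i hi).trans (hsp i hi i' hi' h)) h3
  have hnX : (n i0 : ℝ) ≤ X := by
    have := h2 i0 hi0; have := (h1 i0 hi0).2
    exact_mod_cast (by omega : n i0 ≤ X)
  have hmH : ηm ≤ H := hm.trans hηH
  have hA' : (0 : ℝ) < A := by exact_mod_cast hA
  have a4 : δ * ηm * A < (C + 1) * X := by
    have : δ * ηm * A ≤ δ * H * A := by gcongr
    have : (C + 1) * n i0 ≤ (C + 1) * X := by gcongr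
    linarith
  have a5 : 3 * ηm ≤ A := by
    have : 3 * (H : ℝ) < A := by exact_mod_cast a1
    linarith
  have a6 : (A : ℝ) ≤ (C + 1) * X / δ / ηm := by
    rw [le_div_iff₀ hm0, le_div_iff₀ hδ]; linarith
  unfold beta
  rw [if_pos (by
    have : δ * ηm * (3 * ηm) ≤ δ * ηm * A := by gcongr
    linarith)]
  refine h5.trans ?_
  apply div_le_div_of_nonneg_right _ (by positivity)
  set K := (C + 1) * X / δ with hK
  have hK0 : 0 ≤ K := by positivity
  have e1 : 3 * ((X : ℝ) + 1) * A / (T * H ^ 2) ≤ 3 * (X + 1) * K / (T * ηm ^ 3) := by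
    calc _ ≤ 3 * ((X : ℝ) + 1) * (K / ηm) / (T * ηm ^ 2) := by gcongr
      _ = _ := by field_simp
  have e2 : 18 * ((X : ℝ) + 1) * T / H ^ 2 ≤ 18 * (X + 1) * T / ηm ^ 2 := by gcongr
  have e3 : 76 * (A : ℝ) ^ 2 * Λ / (T * H) ≤ 76 * K ^ 2 * Λ / (T * ηm ^ 3) := by
    calc _ ≤ 76 * (K / ηm) ^ 2 * Λ / (T * ηm) := by gcongr
      _ = _ := by field_simp
  linarith

lemma iter {δ C : ℝ} (hS : Sparse δ C) (hδ : 0 < δ) (hδ2 : δ ≤ 1 / 20) (hC0 : 0 < C)
    (t0 τ Tn : ℕ) (hC : C ≤ δ * (2 ^ t0 : ℕ)) (η ηm Λ : ℝ)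
    (hm : ηm ≤ η * (1 - 10 * δ) ^ Tn) (u h I X : ℕ) (hX : u + I * h ≤ X)
    (hΛ : 1 + Real.log (2 ^ τ : ℕ) ≤ Λ) (hT : 4 * ((2 ^ τ : ℕ) : ℝ) ≤ ηm)
    (h0 : ∀ i < I, (cnt (idx (2 ^ t0)) (u + i * h) : ℝ) + η ≤ cnt (idx (2 ^ t0)) (u + (i + 1) * h)) :
    ((((range I).filter fun i => (cnt (idx (2 ^ (t0 + Tn))) (u + (i + 1) * h) : ℝ) <
      cnt (idx (2 ^ (t0 + Tn))) (u + i * h) + ηm).card : ℕ) : ℝ) ≤
      Tn * beta δ C ηm Λ (2 ^ τ) X := by
  classical
  set θ := 1 - 10 * δ with hθ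
  have hθ0 : 0 < θ := by linarith
  have hθ1 : θ ≤ 1 := by linarith
  have hT1' : (1 : ℝ) ≤ (2 ^ τ : ℕ) := by exact_mod_cast Nat.one_le_two_pow
  have hm0 : 0 < ηm := by linarith
  have hη : 0 < η := by
    by_contra hc
    push Not at hc
    have : 0 < θ ^ Tn := by positivity
    nlinarith
  set D : ℕ → Finset ℕ := fun t => (range I).filter fun i =>
    (cnt (idx (2 ^ (t0 + t))) (u + (i + 1) * h) : ℝ) <
      cnt (idx (2 ^ (t0 + t))) (u + i * h) + η * θ ^ t with hD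
  have key : ∀ t ≤ Tn, ((D t).card : ℝ) ≤ t * beta δ C ηm Λ (2 ^ τ) X := by
    intro t
    induction t with
    | zero =>
      intro _
      have : D 0 = ∅ := by
        simp only [hD]
        apply filter_eq_empty_iff.2
        intro i hi
        have := h0 i (mem_range.1 hi)
        simp only [add_zero, pow_zero, mul_one, not_lt]
        exact this
      rw [this]; simp
    | succ t ih =>
      intro ht
      have ih := ih (by omega)
      have hsub : D (t + 1) ⊆ D t ∪ (D (t + 1) \ D t) := by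
        intro i hi
        by_cases h : i ∈ D t
        · exact mem_union_left _ h
        · exact mem_union_right _ (mem_sdiff.2 ⟨hi, h⟩)
      have hst := step hS hδ hδ2 hC0 (t0 + t) τ (hC.trans (by
          apply mul_le_mul_of_nonneg_left _ hδ.le
          exact_mod_cast Nat.pow_le_pow_right (by norm_num) (by omega))) (η * θ ^ t) ηm Λ
        (hm.trans (mul_le_mul_of_nonneg_left (pow_le_pow_of_le_one hθ0.le hθ1 (by omega)) hη.le))
        X hΛ hT (D (t + 1) \ D t) (fun i => cnt (idx (2 ^ (t0 + t))) (u + i * h))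
        (fun i => cnt (idx (2 ^ (t0 + t))) (u + (i + 1) * h)) (by
          intro i hi
          simp only [hD, mem_sdiff, mem_filter, mem_range, not_and, not_lt] at hi
          refine ⟨hi.2 hi.1.1, (cnt_le _ _).trans (le_trans ?_ hX)⟩
          have : (i + 1) * h ≤ I * h := Nat.mul_le_mul_right h hi.1.1
          omega) (by
          intro i _ i' _ hii
          apply cnt_mono
          have : (i + 1) * h ≤ i' * h := Nat.mul_le_mul_right h hii
          omega) (by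
          intro i hi
          simp only [hD, mem_sdiff, mem_filter, mem_range] at hi
          have h1 := hi.1.2
          have e : idx (2 ^ (t0 + (t + 1))) = idx (2 ^ (t0 + t)) +
              (idx (2 * 2 ^ (t0 + t)) - idx (2 ^ (t0 + t))) := by
            have : idx (2 ^ (t0 + t)) ≤ idx (2 * 2 ^ (t0 + t)) := idx_mono (by omega)
            rw [← add_assoc, pow_succ, mul_comm]; omega
          rw [e, cnt_add, cnt_add] at h1
          rw [pow_succ] at h1
          linarith)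
      have h1 := (card_le_card hsub).trans (card_union_le _ _)
      have h2 : ((D (t + 1)).card : ℝ) ≤ (D t).card + (D (t + 1) \ D t).card := by
        exact_mod_cast h1
      push_cast
      linarith
  refine le_trans ?_ (key Tn le_rfl)
  have : ((range I).filter fun i => (cnt (idx (2 ^ (t0 + Tn))) (u + (i + 1) * h) : ℝ) <
      cnt (idx (2 ^ (t0 + Tn))) (u + i * h) + ηm) ⊆ D Tn := by
    intro i hi
    simp only [hD, mem_filter] at hi ⊢
    exact ⟨hi.1, by linarith [hi.2]⟩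
  exact_mod_cast card_le_card this

lemma init_stage (j : ℕ) : ∃ c : ℝ, 0 < c ∧ ∃ h0 : ℕ, ∀ u h, h0 ≤ h →
    (cnt j u : ℝ) + c * h ≤ cnt j (u + h) := by
  have hρ := rr_pos 0 j
  have hρ1 := rr_le_one 0 j
  obtain ⟨h0, hh0⟩ := exists_nat_ge (4 * (j + 1) / rr 0 j)
  refine ⟨rr 0 j / 4, by positivity, h0, fun u h hh => ?_⟩
  have h1 := orb_upper 0 (u / 2) j
  have h2 := orb_lower 0 ((u + h) / 2) j
  change (cnt j u : ℝ) ≤ _ at h1
  change _ ≤ (cnt j (u + h) : ℝ) at h2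
  have h3 : 2 * ((u / 2 : ℕ) : ℝ) + h ≤ 2 * (((u + h) / 2 : ℕ) : ℝ) + 1 := by
    exact_mod_cast (by omega : 2 * (u / 2) + h ≤ 2 * ((u + h) / 2) + 1)
  have h4 : (h0 : ℝ) ≤ h := by exact_mod_cast hh
  rw [div_le_iff₀ hρ] at hh0
  nlinarith

lemma count_good (s u h I : ℕ) :
    cnt s (u + I * h) ≤ cnt s u +
      h * ((range I).filter fun i => cnt s (u + i * h) < cnt s (u + (i + 1) * h)).card := by
  induction I with
  | zero => simp
  | succ I ih =>
    rw [range_add_one, filter_insert]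
    split_ifs with hc
    · rw [card_insert_of_notMem (by simp)]
      have := cnt_lip s (u + I * h) h
      have e : u + (I + 1) * h = u + I * h + h := by ring
      rw [e]; nlinarith
    · omega

end Pool.Agent.Lib.MP_476537_nt
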