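import Mathlib
import Pool.Agent.Lib.MP_476537_nt.Iter

set_option autoImplicit false

namespace Pool.Agent.Lib.MP_476537_nt

open Finset

lemma beta_bound (δ C : ℝ) (hδ : 0 < δ) (hC : 0 < C) (κ : ℕ) (w v Λ : ℝ) (T X : ℕ)
    (hw : 1 ≤ w) (hv : 1 ≤ v) (hT : (T : ℝ) = v * w ^ 2) (hX : (X : ℝ) = 2 * (v ^ 3 * w ^ 12))
    (_hΛ0 : 0 ≤ Λ) (hΛ : Λ ≤ (κ + 3) * w) :
    beta δ C (v * w ^ 9) Λ T X ≤
      (18 * ((C + 1) / δ) + 54 + 304 * ((C + 1) / δ) ^ 2 * (κ + 3)) / (4 * δ ^ 2)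
        * (v ^ 2 / w ^ 4) := by
  unfold beta
  split_ifs
  swap
  · positivity
  have hY : (1 : ℝ) ≤ v ^ 3 * w ^ 12 := one_le_mul_of_one_le_of_one_le (one_le_pow₀ hv)
    (one_le_pow₀ hw)
  have hX1 : (X : ℝ) + 1 ≤ 3 * (v ^ 3 * w ^ 12) := by linarith
  rw [div_mul_eq_mul_div]
  apply div_le_div_of_nonneg_right _ (by positivity)
  set D := (C + 1) / δ with hD
  have hD0 : 0 < D := by positivity
  have hK : (C + 1) * X / δ = D * (2 * (v ^ 3 * w ^ 12)) := by rw [hX, hD]; ring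
  rw [hK, hT]
  have e1 : 3 * ((X : ℝ) + 1) * (D * (2 * (v ^ 3 * w ^ 12))) / (v * w ^ 2 * (v * w ^ 9) ^ 3) ≤
      18 * D * (v ^ 2 / w ^ 4) := by
    calc _ ≤ 3 * (3 * (v ^ 3 * w ^ 12)) * (D * (2 * (v ^ 3 * w ^ 12))) /
          (v * w ^ 2 * (v * w ^ 9) ^ 3) := by gcongr
      _ = 18 * D * (v ^ 2 / w ^ 4) / w := by field_simp; ring
      _ ≤ _ := div_le_self (by positivity) hw
  have e2 : 18 * ((X : ℝ) + 1) * (v * w ^ 2) / (v * w ^ 9) ^ 2 ≤ 54 * (v ^ 2 / w ^ 4) := by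
    calc _ ≤ 18 * (3 * (v ^ 3 * w ^ 12)) * (v * w ^ 2) / (v * w ^ 9) ^ 2 := by gcongr
      _ = _ := by field_simp; ring
  have e3 : 76 * (D * (2 * (v ^ 3 * w ^ 12))) ^ 2 * Λ / (v * w ^ 2 * (v * w ^ 9) ^ 3) ≤
      304 * D ^ 2 * (κ + 3) * (v ^ 2 / w ^ 4) := by
    calc _ ≤ 76 * (D * (2 * (v ^ 3 * w ^ 12))) ^ 2 * ((κ + 3) * w) /
          (v * w ^ 2 * (v * w ^ 9) ^ 3) := by gcongr
      _ = _ := by field_simp; ring
  linarith

lemma main_int (κ : ℕ) : ∃ ω0 : ℕ, ∀ ω ≥ ω0, ∀ x : ℕ, 2 * (2 ^ ω) ^ (3 * κ + 12) ≤ x →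
    x ≤ (2 ^ ω) ^ (6 * κ + 19) →
    ∃ a ∈ Lk, ∃ b ∈ Lk, x ≤ a + b ∧ a + b ≤ x + 2 * (2 ^ ω) ^ (κ + 11) := by
  classical
  set δ : ℝ := 1 / (120 * κ + 400) with hδdef
  have hκ0 : (0 : ℝ) ≤ κ := by positivity
  have hδ : 0 < δ := by positivity
  have hδ2 : δ ≤ 1 / 20 := one_div_le_one_div_of_le (by norm_num) (by linarith)
  obtain ⟨C, hC0, hS⟩ := sparse δ hδ
  obtain ⟨t0, ht0⟩ := pow_unbounded_of_one_lt (C / δ) (by norm_num : (1 : ℝ) < 2)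
  have hC : C ≤ δ * (2 ^ t0 : ℕ) := by
    rw [div_lt_iff₀ hδ] at ht0; push_cast; linarith
  obtain ⟨c, hc, h0, hinit⟩ := init_stage (idx (2 ^ t0))
  set E : ℝ := (18 * ((C + 1) / δ) + 54 + 304 * ((C + 1) / δ) ^ 2 * (κ + 3)) / (4 * δ ^ 2)
    with hE
  have hE0 : 0 < E := by positivity
  obtain ⟨ω0, hω0⟩ := pow_unbounded_of_one_lt
    (1 / c + h0 + (C + 1) / δ + (6 * κ + 20) * E + 4) (by norm_num : (1 : ℝ) < 2)
  refine ⟨ω0, fun ω hω x hx1 hx2 => ?_⟩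
  set wn : ℕ := 2 ^ ω with hwn
  set w : ℝ := (wn : ℝ) with hw
  have hw0 : 1 / c + h0 + (C + 1) / δ + (6 * κ + 20) * E + 4 ≤ w := by
    have : (2 : ℝ) ^ ω0 ≤ 2 ^ ω := pow_le_pow_right₀ (by norm_num) hω
    rw [hw, hwn]; push_cast; linarith
  have p1 : 0 < 1 / c := by positivity
  have p2 : (0 : ℝ) ≤ h0 := by positivity
  have p3 : 0 < (C + 1) / δ := by positivity
  have p4 : 0 < (6 * κ + 20) * E := by positivity
  have hw4 : 4 ≤ w := by linarith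
  have hw1 : 1 ≤ w := by linarith
  have hwp : 0 < w := by linarith
  have hωw : (ω : ℝ) ≤ w := by
    have : ω ≤ wn := Nat.lt_two_pow_self.le
    rw [hw]; exact_mod_cast this
  set v : ℝ := w ^ κ with hv
  have hv1 : 1 ≤ v := one_le_pow₀ hw1
  set h : ℕ := wn ^ (κ + 11) with hh
  set I : ℕ := wn ^ (2 * κ + 1) with hI
  set Y : ℕ := wn ^ (3 * κ + 12) with hY
  have hIh : I * h = Y := by rw [hI, hh, hY, ← pow_add]; congr 1; ring
  have hhr : (h : ℝ) = v * w ^ 11 := by rw [hh, hv, hw]; push_cast; ring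
  have hIr : (I : ℝ) = v ^ 2 * w := by rw [hI, hv, hw]; push_cast; ring
  have hYr : (Y : ℝ) = v ^ 3 * w ^ 12 := by rw [hY, hv, hw]; push_cast; ring
  have hwn1 : 1 ≤ wn := Nat.one_le_two_pow
  have hI1 : 1 ≤ I := Nat.one_le_pow _ _ hwn1
  have hhY : h ≤ Y := by rw [← hIh]; exact Nat.le_mul_of_pos_left h hI1
  have hh0 : h0 ≤ h := by
    have h1 : h0 ≤ wn := by
      have : (h0 : ℝ) ≤ wn := by rw [← hw]; linarith
      exact_mod_cast this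
    exact h1.trans (Nat.le_self_pow (by omega) wn)
  set τ := ω * (κ + 2) with hτ
  set Tn := ω * (6 * κ + 20) with hTn
  have hTr : ((2 ^ τ : ℕ) : ℝ) = v * w ^ 2 := by
    rw [hτ, pow_mul, ← hwn, hv, hw]; push_cast; ring
  set Λ : ℝ := (κ + 3) * w with hΛdef
  have hΛ : 1 + Real.log (2 ^ τ : ℕ) ≤ Λ := by
    push_cast
    rw [Real.log_pow, hτ]
    have h1 : Real.log 2 ≤ 1 := by
      have := Real.log_le_sub_one_of_pos (by norm_num : (0 : ℝ) < 2); linarith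
    have h2 : ((ω * (κ + 2) : ℕ) : ℝ) * Real.log 2 ≤ ((ω * (κ + 2) : ℕ) : ℝ) :=
      mul_le_of_le_one_right (by positivity) h1
    have h3 : ((ω * (κ + 2) : ℕ) : ℝ) ≤ w * (κ + 2) := by
      push_cast; gcongr
    linarith
  have hθ : 1 / w ≤ (1 - 10 * δ) ^ Tn := by
    have h1 := one_add_mul_le_pow (a := -(10 * δ)) (by linarith) (6 * κ + 20)
    have h2 : (1 : ℝ) + ((6 * κ + 20 : ℕ) : ℝ) * -(10 * δ) = 1 / 2 := by
      rw [hδdef]; push_cast; field_simp; ring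
    rw [h2, ← sub_eq_add_neg] at h1
    rw [hTn, mul_comm ω, pow_mul]
    refine le_trans (le_of_eq ?_) (pow_le_pow_left₀ (by norm_num) h1 ω)
    rw [hw, hwn]; push_cast; rw [one_div_pow]
  have hcw : 1 ≤ c * w := by
    have : 1 / c ≤ w := by linarith
    rw [div_le_iff₀ hc] at this; linarith
  have hm : ∀ y : ℝ, 0 ≤ y → y / w ^ 2 ≤ c * y * (1 - 10 * δ) ^ Tn := by
    intro y hy
    calc y / w ^ 2 ≤ (c * w) * (y / w ^ 2) := le_mul_of_one_le_left (by positivity) hcw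
      _ = c * y * (1 / w) := by field_simp
      _ ≤ _ := by gcongr
  set s := idx (2 ^ (t0 + Tn)) with hs
  have hMs : x ≤ M s := by
    refine hx2.trans (le_trans ?_ (le_M_idx _))
    rw [hwn, ← pow_mul]
    apply Nat.pow_le_pow_right (by norm_num)
    rw [hTn]; nlinarith
  set u := x + h - 2 * Y with hu
  have hvw : ∀ a b : ℕ, a ≤ b → w ^ a ≤ w ^ b := fun a b hab => pow_le_pow_right₀ hw1 hab
  have hhw : (h : ℝ) / w ^ 2 = v * w ^ 9 := by rw [hhr]; field_simp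
  have hT4 : 4 * ((2 ^ τ : ℕ) : ℝ) ≤ h / w ^ 2 := by
    rw [hTr, hhw]
    have h1 := hvw 3 9 (by norm_num)
    have h2 : 4 * w ^ 2 ≤ w ^ 3 := by nlinarith
    nlinarith
  have hA := iter hS hδ hδ2 hC0 t0 τ Tn hC (c * Y) (Y / w ^ 2) Λ (hm Y (by positivity))
    u Y 1 x (by omega) hΛ (hT4.trans (by gcongr)) (by
      intro i hi
      have : i = 0 := by omega
      subst this
      simpa using hinit u Y (hh0.trans hhY))
  have hβ0 : beta δ C (Y / w ^ 2) Λ (2 ^ τ) x = 0 := by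
    unfold beta
    rw [if_neg]
    rw [not_lt]
    have h1 : (x : ℝ) ≤ v ^ 6 * w ^ 19 := by
      have : (x : ℝ) ≤ ((wn ^ (6 * κ + 19) : ℕ) : ℝ) := by exact_mod_cast hx2
      refine this.trans (le_of_eq ?_)
      rw [hv, hw]; push_cast; ring
    have h2 : C + 1 ≤ δ * w := by
      have : (C + 1) / δ ≤ w := by linarith
      rw [div_le_iff₀ hδ] at this; linarith
    calc (C + 1) * x ≤ (δ * w) * (v ^ 6 * w ^ 19) := by gcongr
      _ = 1 * (Y / w ^ 2) ^ 2 * δ := by rw [hYr]; field_simp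
      _ ≤ _ := by gcongr; norm_num
  rw [hβ0, mul_zero] at hA
  have hA2 : (cnt s u : ℝ) + Y / w ^ 2 ≤ cnt s (u + I * h) := by
    by_contra hc
    push Not at hc
    have h1 : 0 ∈ (range 1).filter fun i => (cnt s (u + (i + 1) * Y) : ℝ) <
        cnt s (u + i * Y) + Y / w ^ 2 := by
      rw [hIh] at hc
      simpa using hc
    have h2 := card_pos.2 ⟨0, h1⟩
    have h3 : (0 : ℝ) < _ := Nat.cast_pos.2 h2
    exact absurd hA (not_le.2 h3)
  set G := (range I).filter fun i => cnt s (u + i * h) < cnt s (u + (i + 1) * h) with hG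
  have hGc : v ^ 2 / w ≤ (G.card : ℝ) := by
    have h1 : (cnt s (u + I * h) : ℝ) ≤ cnt s u + h * G.card := by
      exact_mod_cast count_good s u h I
    have h2 : (Y : ℝ) / w ^ 2 = h * (v ^ 2 / w) := by rw [hYr, hhr]; field_simp
    have h3 : (0 : ℝ) < h := by rw [hhr]; positivity
    have h4 : (h : ℝ) * (v ^ 2 / w) ≤ h * G.card := by linarith
    exact le_of_mul_le_mul_left h4 h3
  have hB := iter hS hδ hδ2 hC0 t0 τ Tn hC (c * h) (h / w ^ 2) Λ (hm h (by positivity))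
    Y h I (2 * Y) (by omega) hΛ hT4 (by
      intro i _
      have := hinit (Y + i * h) h hh0
      rwa [add_mul, one_mul, ← add_assoc])
  set Bd := (range I).filter fun i => (cnt s (Y + (i + 1) * h) : ℝ) <
      cnt s (Y + i * h) + h / w ^ 2 with hBd
  have hβ := beta_bound δ C hδ hC0 κ w v Λ (2 ^ τ) (2 * Y) hw1 hv1 hTr
    (by push_cast; rw [hYr]) (by positivity) le_rfl
  rw [← hhw, ← hE] at hβ
  have hlt : (Bd.card : ℝ) < G.card := by
    have h1 : (Tn : ℝ) ≤ w * (6 * κ + 20) := by rw [hTn]; push_cast; gcongr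
    have h2 : (6 * κ + 20) * E < w ^ 2 := by nlinarith
    calc (Bd.card : ℝ) ≤ _ := hB
      _ ≤ (w * (6 * κ + 20)) * (E * (v ^ 2 / w ^ 4)) := by
        apply mul_le_mul h1 hβ _ (by positivity)
        exact beta_nonneg _ _ _ _ _ _ hδ hC0 (by rw [hhw]; positivity) (by positivity)
      _ = ((6 * κ + 20) * E) * (v ^ 2 / w ^ 3) := by field_simp
      _ < w ^ 2 * (v ^ 2 / w ^ 3) := by gcongr
      _ = v ^ 2 / w := by field_simp
      _ ≤ _ := hGc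
  have hlt2 : (Bd.image fun i => I - 1 - i).card < G.card :=
    lt_of_le_of_lt card_image_le (by exact_mod_cast hlt)
  obtain ⟨i, hi1, hi2⟩ := exists_mem_notMem_of_card_lt_card hlt2
  rw [hG, mem_filter, mem_range] at hi1
  obtain ⟨i', hi'⟩ : ∃ i', i + i' + 1 = I := ⟨I - 1 - i, by omega⟩
  have hb : ¬ i' ∈ Bd := fun hc => hi2 (mem_image.2 ⟨i', hc, by omega⟩)
  rw [hBd, mem_filter, mem_range, not_and, not_lt] at hb
  have hb2 := hb (by omega)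
  have hb3 : cnt s (Y + i' * h) < cnt s (Y + (i' + 1) * h) := by
    have h1 : 0 < (h : ℝ) / w ^ 2 := by rw [hhw]; positivity
    have : (cnt s (Y + i' * h) : ℝ) < cnt s (Y + (i' + 1) * h) := by linarith
    exact_mod_cast this
  have e1 : i * h + i' * h + h = Y := by rw [← hIh, ← hi']; ring
  have e2 : (i + 1) * h = i * h + h := by ring
  have e3 : (i' + 1) * h = i' * h + h := by ring
  obtain ⟨a, ha, ha1, ha2⟩ := lucky_exists _ _ s (by omega) hi1.2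
  obtain ⟨b, hb', hb1', hb2'⟩ := lucky_exists _ _ s (by omega) hb3
  exact ⟨a, ha, b, hb', by omega, by omega⟩

theorem short_interval (ε : ℝ) (hε : 0 < ε) : ∃ x0 : ℕ, ∀ x : ℕ, x0 ≤ x →
    ∃ a ∈ Lk, ∃ b ∈ Lk, x ≤ a + b ∧ ((a + b : ℕ) : ℝ) ≤ x + (x : ℝ) ^ (1 / 6 + ε) := by
  obtain ⟨κ, hκ⟩ := exists_nat_ge (3 / ε)
  obtain ⟨ω0, hω0⟩ := main_int κ
  have hten : Filter.Tendsto (fun x : ℕ => (x : ℝ) ^ (ε / 2)) Filter.atTop Filter.atTop :=
    (tendsto_rpow_atTop (by positivity)).comp tendsto_natCast_atTop_atTop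
  obtain ⟨x1, hx1⟩ := Filter.eventually_atTop.1 (hten.eventually_ge_atTop (2 ^ (κ + 12)))
  refine ⟨max x1 ((2 ^ (ω0 + 2)) ^ (6 * κ + 19) + 1), fun x hx => ?_⟩
  have hxa : x1 ≤ x := le_of_max_le_left hx
  have hxb : (2 ^ (ω0 + 2)) ^ (6 * κ + 19) < x := le_of_max_le_right hx
  have hex : ∃ ω : ℕ, x ≤ (2 ^ ω) ^ (6 * κ + 19) :=
    ⟨x, Nat.lt_two_pow_self.le.trans (Nat.le_self_pow (by omega) _)⟩
  have h1 := Nat.find_spec hex
  have h2 : ω0 + 2 < Nat.find hex := by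
    by_contra hc
    push Not at hc
    have : (2 ^ Nat.find hex) ^ (6 * κ + 19) ≤ (2 ^ (ω0 + 2)) ^ (6 * κ + 19) :=
      Nat.pow_le_pow_left (Nat.pow_le_pow_right (by norm_num) hc) _
    omega
  obtain ⟨ω, hω⟩ : ∃ ω, Nat.find hex = ω + 1 := ⟨Nat.find hex - 1, by omega⟩
  have h3 : (2 ^ ω) ^ (6 * κ + 19) < x := by
    have := Nat.find_min hex (m := ω) (by omega)
    omega
  rw [hω] at h1 h2
  obtain ⟨a, ha, b, hb, h4, h5⟩ := hω0 (ω + 1) (by omega) x (by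
    refine le_trans ?_ h3.le
    rw [← pow_mul, ← pow_mul, ← pow_succ']
    apply Nat.pow_le_pow_right (by norm_num)
    have : 2 ≤ ω := by omega
    nlinarith) h1
  refine ⟨a, ha, b, hb, h4, ?_⟩
  have h6 : ((a + b : ℕ) : ℝ) ≤ x + 2 * ((2 : ℝ) ^ (ω + 1)) ^ (κ + 11) := by exact_mod_cast h5
  refine h6.trans (add_le_add_right ?_ _)
  have hx0 : (1 : ℝ) ≤ x := by
    have : 1 ≤ x := by omega
    exact_mod_cast this
  have hκ0 : (0 : ℝ) ≤ κ := by positivity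
  have h7 : (2 : ℝ) ^ ω ≤ (x : ℝ) ^ (((6 * κ + 19 : ℕ) : ℝ)⁻¹) := by
    have h8 : ((2 : ℝ) ^ ω) ^ (6 * κ + 19) ≤ x := by exact_mod_cast h3.le
    calc (2 : ℝ) ^ ω = (((2 : ℝ) ^ ω) ^ (6 * κ + 19)) ^ (((6 * κ + 19 : ℕ) : ℝ)⁻¹) :=
          (Real.pow_rpow_inv_natCast (by positivity) (by omega)).symm
      _ ≤ _ := Real.rpow_le_rpow (by positivity) h8 (by positivity)
  have h9 : ((2 : ℝ) ^ ω) ^ (κ + 11) ≤ (x : ℝ) ^ (1 / 6 + ε / 2) := by
    calc _ ≤ ((x : ℝ) ^ (((6 * κ + 19 : ℕ) : ℝ)⁻¹)) ^ (κ + 11) :=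
          pow_le_pow_left₀ (by positivity) h7 _
      _ = (x : ℝ) ^ (((6 * κ + 19 : ℕ) : ℝ)⁻¹ * ((κ + 11 : ℕ) : ℝ)) := by
          rw [Real.rpow_mul_natCast (by positivity)]
      _ ≤ _ := by
          apply Real.rpow_le_rpow_of_exponent_le hx0
          push_cast
          rw [inv_mul_le_iff₀ (by positivity)]
          rw [div_le_iff₀ hε] at hκ
          nlinarith
  have h10 := hx1 x hxa
  calc 2 * ((2 : ℝ) ^ (ω + 1)) ^ (κ + 11) = ((2 : ℝ) ^ ω) ^ (κ + 11) * 2 ^ (κ + 12) := by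
        rw [pow_succ 2 ω, mul_pow]; ring
    _ ≤ (x : ℝ) ^ (1 / 6 + ε / 2) * (x : ℝ) ^ (ε / 2) := by gcongr
    _ = _ := by rw [← Real.rpow_add (by linarith)]; congr 1; ring

end Pool.Agent.Lib.MP_476537_nt
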